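import Pool.Agent.H24.LP.S4

/-!
# Discharging
-/

namespace Pool.Agent.H24.LP

open Finset

variable {V : Type} (G : SimpleGraph V)

open Classical in
/-- neighbours of `v` inside `S` -/
noncomputable def nb (S : Finset V) (v : V) : Finset V := S.filter fun u => G.Adj v u

open Classical in
/-- the vertices of degree three in `G[S]` -/
noncomputable def T3 (S : Finset V) : Finset V := S.filter fun v => (nb G S v).card = 3

variable {G}

lemma mem_nb {S : Finset V} {v u : V} : u ∈ nb G S v ↔ u ∈ S ∧ G.Adj v u := by
  classical
  simp [nb]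

lemma mem_T3 {S : Finset V} {v : V} : v ∈ T3 G S ↔ v ∈ S ∧ (nb G S v).card = 3 := by
  classical
  simp [T3]

lemma nb_mono {S T : Finset V} (h : S ⊆ T) (v : V) : nb G S v ⊆ nb G T v := by
  intro u hu
  rw [mem_nb] at *
  exact ⟨h hu.1, hu.2⟩

lemma T3_subset (S : Finset V) : T3 G S ⊆ S := fun _ hv => (mem_T3.1 hv).1

open Classical in
/-- single vertices of degree three adjacent to `v` -/
noncomputable def sgl (G : SimpleGraph V) (S : Finset V) (v : V) : Finset V :=
  (nb G (T3 G S) v).filter fun w => nb G (T3 G S) w = ∅

open Classical in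
/-- paired vertices of degree three adjacent to `v` -/
noncomputable def prd (G : SimpleGraph V) (S : Finset V) (v : V) : Finset V :=
  (nb G (T3 G S) v).filter fun w => ¬ nb G (T3 G S) w = ∅

/-- The discharging lemma. -/
theorem exists_reducible (S : Finset V)
    (hsum : 7 * ∑ v ∈ S, (nb G S v).card < 24 * S.card) :
    (∃ v ∈ S, (nb G S v).card ≤ 2) ∨
    (∃ v ∈ S, (nb G S v).card = 3 ∧ 2 ≤ (nb G (T3 G S) v).card) ∨
    ((∀ v ∈ S, 3 ≤ (nb G S v).card) ∧
      (∀ v ∈ S, (nb G S v).card = 3 → (nb G (T3 G S) v).card ≤ 1) ∧
      ∃ v ∈ S, (nb G S v).card = 4 ∧ 9 ≤ 2 * (sgl G S v).card + 3 * (prd G S v).card) := by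
  classical
  by_contra hcon
  push Not at hcon
  obtain ⟨h1, h2, h3⟩ := hcon
  have h1' : ∀ v ∈ S, 3 ≤ (nb G S v).card := fun v hv => h1 v hv
  have h2' : ∀ v ∈ S, (nb G S v).card = 3 → (nb G (T3 G S) v).card ≤ 1 := by
    intro v hv h
    have := h2 v hv h
    omega
  have h3' := h3 h1' h2'
  -- the flow
  let g : V → V → ℕ := fun u v =>
    if G.Adj u v ∧ v ∈ T3 G S ∧ 4 ≤ (nb G S u).card then
      (if nb G (T3 G S) v = ∅ then 2 else 3) else 0
  have key : ∀ v ∈ S, 48 + ∑ u ∈ S, g v u ≤ 14 * (nb G S v).card + ∑ u ∈ S, g u v := by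
    intro v hv
    rcases Nat.lt_or_ge (nb G S v).card 4 with hd | hd
    · -- degree three
      have hd3 : (nb G S v).card = 3 := by have := h1' v hv; omega
      have hvT : v ∈ T3 G S := mem_T3.2 ⟨hv, hd3⟩
      have hz : ∑ u ∈ S, g v u = 0 := by
        apply Finset.sum_eq_zero
        intro u _
        simp only [g]
        rw [if_neg]
        rintro ⟨-, -, h⟩
        omega
      -- big neighbours
      have hbig : ((nb G S v) \ (nb G (T3 G S) v)).card = 3 - (nb G (T3 G S) v).card := by
        rw [Finset.card_sdiff_of_subset (nb_mono (T3_subset S) v), hd3]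
      have hin : ∑ u ∈ S, g u v = ∑ u ∈ (nb G S v) \ (nb G (T3 G S) v),
          (if nb G (T3 G S) v = ∅ then 2 else 3) := by
        have hss : (nb G S v) \ (nb G (T3 G S) v) ⊆ S := by
          intro u hu
          rw [Finset.mem_sdiff, mem_nb] at hu
          exact hu.1.1
        rw [← Finset.sum_subset (f := fun u => g u v) hss]
        · apply Finset.sum_congr rfl
          intro u hu
          rw [Finset.mem_sdiff, mem_nb, mem_nb, mem_T3] at hu
          simp only [g]
          rw [if_pos]
          refine ⟨hu.1.2.symm, hvT, ?_⟩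
          have h3u := h1' u hu.1.1
          by_contra hlt
          exact hu.2 ⟨⟨hu.1.1, by omega⟩, hu.1.2⟩
        · intro u hu hnot
          simp only [g]
          rw [if_neg]
          rintro ⟨hadj, -, h4⟩
          apply hnot
          rw [Finset.mem_sdiff, mem_nb, mem_nb, mem_T3]
          refine ⟨⟨hu, hadj.symm⟩, ?_⟩
          rintro ⟨⟨-, h3u⟩, -⟩
          omega
      rw [hz, hin, Finset.sum_const, hbig, hd3]
      have hle := h2' v hv hd3
      by_cases hem : nb G (T3 G S) v = ∅
      · rw [if_pos hem, hem]
        simp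
      · rw [if_neg hem]
        have : (nb G (T3 G S) v).card = 1 := by
          have := Finset.card_pos.2 (Finset.nonempty_iff_ne_empty.2 hem)
          omega
        rw [this]
        simp
    · -- degree at least four
      have hout : ∑ u ∈ S, g v u = 2 * (sgl G S v).card + 3 * (prd G S v).card := by
        have hsub : nb G (T3 G S) v ⊆ S := by
          intro u hu
          rw [mem_nb, mem_T3] at hu
          exact hu.1.1
        rw [← Finset.sum_subset hsub]
        · rw [← Finset.sum_filter_add_sum_filter_not (nb G (T3 G S) v)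
            (fun w => nb G (T3 G S) w = ∅)]
          congr 1
          · rw [Finset.sum_congr rfl (g := fun _ => 2)]
            · rw [Finset.sum_const, smul_eq_mul, mul_comm]
              rfl
            · intro u hu
              rw [Finset.mem_filter, mem_nb] at hu
              simp only [g]
              rw [if_pos ⟨hu.1.2, hu.1.1, hd⟩, if_pos hu.2]
          · rw [Finset.sum_congr rfl (g := fun _ => 3)]
            · rw [Finset.sum_const, smul_eq_mul, mul_comm]
              rfl
            · intro u hu
              rw [Finset.mem_filter, mem_nb] at hu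
              simp only [g]
              rw [if_pos ⟨hu.1.2, hu.1.1, hd⟩, if_neg hu.2]
        · intro u hu hnot
          simp only [g]
          rw [if_neg]
          rintro ⟨hadj, hT, -⟩
          exact hnot (mem_nb.2 ⟨hT, hadj⟩)
      have hsum2 : (sgl G S v).card + (prd G S v).card ≤ (nb G S v).card := by
        unfold sgl prd
        rw [Finset.card_filter_add_card_filter_not]
        exact Finset.card_le_card (nb_mono (T3_subset S) v)
      rw [hout]
      rcases Nat.lt_or_ge (nb G S v).card 5 with hd5 | hd5
      · have hd4 : (nb G S v).card = 4 := by omega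
        have := h3' v hv hd4
        omega
      · omega
  have hs := Finset.sum_le_sum key
  rw [Finset.sum_add_distrib, Finset.sum_add_distrib, Finset.sum_const, smul_eq_mul,
    ← Finset.mul_sum] at hs
  rw [Finset.sum_comm (f := fun v u => g v u)] at hs
  omega

end Pool.Agent.H24.LP
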