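import Pool.Agent.H24.LP.Defs

/-!
# List packing and correspondence packing: basic reductions
-/

namespace Pool.Agent.H24.LP

open Finset

/-- Two permutations that differ at every point. -/
def Disc {k : ℕ} (p q : Equiv.Perm (Fin k)) : Prop := ∀ i, p i ≠ q i

lemma Disc.symm {k : ℕ} {p q : Equiv.Perm (Fin k)} (h : Disc p q) : Disc q p :=
  fun i => (h i).symm

lemma disc_mul_left {k : ℕ} {p q : Equiv.Perm (Fin k)} (s : Equiv.Perm (Fin k)) :
    Disc (s * p) (s * q) ↔ Disc p q := by
  constructor
  · intro h i hi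
    exact h i (by simp [hi])
  · intro h i hi
    exact h i (by simpa using hi)

lemma disc_mul_right {k : ℕ} {p q : Equiv.Perm (Fin k)} (s : Equiv.Perm (Fin k)) :
    Disc (p * s) (q * s) ↔ Disc p q := by
  constructor
  · intro h i hi
    have := h (s⁻¹ i)
    simp at this
    exact this hi
  · intro h i hi
    exact h (s i) (by simpa using hi)

/-- Packability of covers given by permutations. -/
def PermPackable {V : Type} (G : SimpleGraph V) (k : ℕ) : Prop :=
  ∀ σ : V → V → Equiv.Perm (Fin k), (∀ u v, G.Adj u v → σ v u = (σ u v)⁻¹) →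
    ∃ π : V → Equiv.Perm (Fin k), ∀ u v, G.Adj u v → Disc (σ u v * π u) (π v)

lemma exists_perm_extending {k : ℕ} (P : Fin k → Fin k → Prop)
    (h1 : ∀ a b b', P a b → P a b' → b = b') (h2 : ∀ a a' b, P a b → P a' b → a = a') :
    ∃ τ : Equiv.Perm (Fin k), ∀ a b, P a b → τ a = b := by
  classical
  let p : Fin k → Prop := fun a => ∃ b, P a b
  let q : Fin k → Prop := fun b => ∃ a, P a b
  have hp : ∀ x : {x // p x}, P x.1 (Classical.choose x.2) := fun x => Classical.choose_spec x.2
  have hq : ∀ x : {x // q x}, P (Classical.choose x.2) x.1 := fun x => Classical.choose_spec x.2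
  let e : {x // p x} ≃ {x // q x} :=
    { toFun := fun x => ⟨Classical.choose x.2, ⟨x.1, hp x⟩⟩
      invFun := fun y => ⟨Classical.choose y.2, ⟨y.1, hq y⟩⟩
      left_inv := by
        intro x
        apply Subtype.ext
        exact h2 _ _ _ (hq ⟨_, ⟨x.1, hp x⟩⟩) (hp x)
      right_inv := by
        intro y
        apply Subtype.ext
        exact h1 _ _ _ (hp ⟨_, ⟨y.1, hq y⟩⟩) (hq y) }
  refine ⟨e.extendSubtype, ?_⟩
  intro a b hab
  rw [Equiv.extendSubtype_apply_of_mem e a ⟨b, hab⟩]
  exact h1 _ _ _ (hp ⟨a, ⟨b, hab⟩⟩) hab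

lemma corrPackable_of_perm {V : Type} {G : SimpleGraph V} {k : ℕ} (h : PermPackable G k) :
    CorrPackable G k := by
  classical
  intro C
  let e : ∀ v, Fin k ≃ C.L v := fun v => (Finset.equivFinOfCardEq (C.card_L v)).symm
  have hτ : ∀ u v, G.Adj u v → ∃ τ : Equiv.Perm (Fin k),
      ∀ a b, C.M (e u a).1 (e v b).1 → τ a = b := by
    intro u v huv
    apply exists_perm_extending
    · intro a b b' h1 h2
      have := C.matching u v huv _ (e u a).2 _ (e v b).2 _ (e v b').2 h1 h2
      exact (e v).injective (Subtype.ext this)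
    · intro a a' b h1 h2
      have := C.matching v u huv.symm _ (e v b).2 _ (e u a).2 _ (e u a').2
        (C.symm _ _ h1) (C.symm _ _ h2)
      exact (e u).injective (Subtype.ext this)
  choose! τ hτ using hτ
  let σ : V → V → Equiv.Perm (Fin k) := fun u v =>
    if WellOrderingRel u v then τ u v else (τ v u)⁻¹
  have hσ : ∀ u v, G.Adj u v → σ v u = (σ u v)⁻¹ := by
    intro u v huv
    have hne : u ≠ v := huv.ne
    rcases trichotomous_of WellOrderingRel u v with h1 | h1 | h1
    · have h2 : ¬ WellOrderingRel v u := fun h2 => asymm h1 h2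
      simp [σ, h1, h2]
    · exact absurd h1 hne
    · have h2 : ¬ WellOrderingRel u v := fun h2 => asymm h1 h2
      simp [σ, h1, h2]
  have hM : ∀ u v, G.Adj u v → ∀ a b, C.M (e u a).1 (e v b).1 → σ u v a = b := by
    intro u v huv a b hab
    by_cases h1 : WellOrderingRel u v
    · simp only [σ, h1, if_true]
      exact hτ u v huv a b hab
    · simp only [σ, h1, if_false]
      have := hτ v u huv.symm b a (C.symm _ _ hab)
      rw [← this]
      simp
  obtain ⟨π, hπ⟩ := h σ hσ
  refine ⟨fun i v => (e v (π v i)).1, ?_, ?_⟩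
  · intro i
    refine ⟨fun v => (e v (π v i)).2, ?_⟩
    intro u v huv hm
    have := hM u v huv _ _ hm
    exact hπ u v huv i (by simpa using this)
  · intro i j hij
    rw [Set.disjoint_left]
    rintro x ⟨u, rfl⟩ ⟨v, hv⟩
    by_cases huv : u = v
    · subst huv
      have h1 : e u (π u j) = e u (π u i) := Subtype.ext hv
      exact hij ((π u).injective ((e u).injective h1)).symm
    · have h1 := C.disj u v huv
      rw [Finset.disjoint_left] at h1
      have h2 : (e u (π u i)).1 ∈ C.L v := by
        have h3 := (e v (π v j)).2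
        simp only at hv
        rw [hv] at h3
        exact h3
      exact h1 (e u (π u i)).2 h2

lemma listPackable_of_corr {V : Type} {G : SimpleGraph V} {k : ℕ} (h : CorrPackable G k) :
    ListPackable G k := by
  classical
  intro L hL
  let C : Cover G k :=
    { α := V × ℕ
      L := fun v => ({v} : Finset V) ×ˢ L v
      card_L := fun v => by simp [hL v]
      disj := by
        intro u v huv
        rw [Finset.disjoint_left]
        rintro ⟨x, c⟩ h1 h2
        simp only [Finset.mem_product, Finset.mem_singleton] at h1 h2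
        exact huv (h1.1.symm.trans h2.1)
      M := fun x y => x.2 = y.2
      symm := fun x y h => h.symm
      matching := by
        intro u v _ x _ y hy z hz h1 h2
        simp only [Finset.mem_product, Finset.mem_singleton] at hy hz
        exact Prod.ext (hy.1.trans hz.1.symm) (h1.symm.trans h2) }
  obtain ⟨c, hc, hd⟩ := h C
  refine ⟨fun i v => (c i v).2, ?_, ?_⟩
  · intro i
    refine ⟨?_, ?_⟩
    · intro v
      have := (hc i).1 v
      simp only [C, Finset.mem_product, Finset.mem_singleton] at this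
      exact this.2
    · intro u v huv heq
      exact (hc i).2 u v huv heq
  · intro v i j hij heq
    have h1 := (hc i).1 v
    have h2 := (hc j).1 v
    simp only [C, Finset.mem_product, Finset.mem_singleton] at h1 h2
    have h3 : c i v = c j v := Prod.ext (h1.1.trans h2.1.symm) heq
    have h4 := hd i j hij
    rw [Set.disjoint_left] at h4
    exact h4 ⟨v, rfl⟩ ⟨v, h3.symm⟩

lemma listPackable_succ {V : Type} {G : SimpleGraph V} {k : ℕ} (hk : 1 ≤ k)
    (h : ListPackable G k) : ListPackable G (k + 1) := by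
  classical
  intro L hL
  have h0 : ∀ v, ∃ t ⊆ L v, t.card = k := fun v =>
    Finset.exists_subset_card_eq (by rw [hL v]; omega)
  choose L0 hL0 hL0c using h0
  obtain ⟨c0, hc0, -⟩ := h L0 hL0c
  let c : V → ℕ := c0 ⟨0, hk⟩
  have hcL : ∀ v, c v ∈ L v := fun v => hL0 v ((hc0 ⟨0, hk⟩).1 v)
  obtain ⟨c1, hc1, hd1⟩ := h (fun v => (L v).erase (c v)) (fun v => by
    rw [Finset.card_erase_of_mem (hcL v), hL v]; rfl)
  refine ⟨Fin.cons c c1, ?_, ?_⟩
  · intro i
    refine Fin.cases ?_ ?_ i
    · exact ⟨hcL, (hc0 ⟨0, hk⟩).2⟩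
    · intro j
      refine ⟨fun v => ?_, ?_⟩
      · rw [Fin.cons_succ]
        exact Finset.mem_of_mem_erase ((hc1 j).1 v)
      · rw [Fin.cons_succ]
        exact (hc1 j).2
  · intro v i j
    refine Fin.cases ?_ ?_ i
    · refine Fin.cases ?_ ?_ j
      · intro h; exact absurd rfl h
      · intro j' _
        rw [Fin.cons_succ, Fin.cons_zero]
        exact (Finset.ne_of_mem_erase ((hc1 j').1 v)).symm
    · intro i'
      refine Fin.cases ?_ ?_ j
      · intro _
        rw [Fin.cons_succ, Fin.cons_zero]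
        exact Finset.ne_of_mem_erase ((hc1 i').1 v)
      · intro j' hij
        rw [Fin.cons_succ, Fin.cons_succ]
        exact hd1 v i' j' (fun h => hij (by rw [h]))

lemma listPackable_mono {V : Type} {G : SimpleGraph V} {k m : ℕ} (hk : 1 ≤ k) (hkm : k ≤ m)
    (h : ListPackable G k) : ListPackable G m := by
  induction m, hkm using Nat.le_induction with
  | base => exact h
  | succ n hn ih => exact listPackable_succ (le_trans hk hn) ih

lemma chiL_le {V : Type} {G : SimpleGraph V} {k : ℕ} (hk : 1 ≤ k) (h : CorrPackable G k) :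
    chiL G ≤ k :=
  Nat.sInf_le ⟨hk, listPackable_of_corr h⟩

lemma chiC_le {V : Type} {G : SimpleGraph V} {k : ℕ} (hk : 1 ≤ k) (h : CorrPackable G k) :
    chiC G ≤ k :=
  Nat.sInf_le ⟨hk, h⟩

lemma lt_chiL {V : Type} {G : SimpleGraph V} {k m : ℕ} (hm : 1 ≤ m) (h : ListPackable G m)
    (hn : ¬ ListPackable G k) : k < chiL G := by
  have hne : {k : ℕ | 1 ≤ k ∧ ListPackable G k}.Nonempty := ⟨m, hm, h⟩
  have := Nat.sInf_mem hne
  by_contra hlt
  push Not at hlt
  exact hn (listPackable_mono this.1 hlt this.2)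

lemma lt_chiC {V : Type} {G : SimpleGraph V} {k m : ℕ} (hm : 1 ≤ m) (h : CorrPackable G m)
    (hn : ¬ ListPackable G k) : k < chiC G := by
  have hne : {k : ℕ | 1 ≤ k ∧ CorrPackable G k}.Nonempty := ⟨m, hm, h⟩
  have := Nat.sInf_mem hne
  by_contra hlt
  push Not at hlt
  exact hn (listPackable_mono this.1 hlt (listPackable_of_corr this.2))

lemma one_le_chiL {V : Type} {G : SimpleGraph V} {m : ℕ} (hm : 1 ≤ m) (h : ListPackable G m) :
    1 ≤ chiL G :=
  (Nat.sInf_mem (⟨m, hm, h⟩ : {k : ℕ | 1 ≤ k ∧ ListPackable G k}.Nonempty)).1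

lemma one_le_chiC {V : Type} {G : SimpleGraph V} {m : ℕ} (hm : 1 ≤ m) (h : CorrPackable G m) :
    1 ≤ chiC G :=
  (Nat.sInf_mem (⟨m, hm, h⟩ : {k : ℕ | 1 ≤ k ∧ CorrPackable G k}.Nonempty)).1

end Pool.Agent.H24.LP
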