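import Mathlib

/-!
# A lower tail estimate for adaptive hits
-/

namespace Pool.Agent.H24.LP

open Finset

set_option linter.unusedSectionVars false

variable {ι α : Type} [Fintype ι] [DecidableEq ι] [Fintype α] [DecidableEq α]

/-- resampling one coordinate -/
lemma sum_update (j : ι) (H : (ι → α) → ℝ) :
    ∑ ω : ι → α, ∑ c : α, H (Function.update ω j c) = Fintype.card α * ∑ ω, H ω := by
  classical
  rw [← Finset.sum_product' (s := Finset.univ) (t := Finset.univ)
    (f := fun (ω : ι → α) (c : α) => H (Function.update ω j c))]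
  have h1 : (Fintype.card α : ℝ) * ∑ ω : ι → α, H ω = ∑ ω : ι → α, ∑ _c : α, H ω := by
    rw [Finset.mul_sum]
    apply Finset.sum_congr rfl
    intro ω _
    rw [Finset.sum_const, nsmul_eq_mul, Finset.card_univ]
  rw [h1, ← Finset.sum_product' (s := Finset.univ) (t := Finset.univ)
    (f := fun (ω : ι → α) (_c : α) => H ω)]
  refine Finset.sum_bij' (fun p _ => (Function.update p.1 j p.2, p.1 j))
    (fun p _ => (Function.update p.1 j p.2, p.1 j)) ?_ ?_ ?_ ?_ ?_
  · intro p _; simp
  · intro p _; simp
  · rintro ⟨ω, c⟩ _; simp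
  · rintro ⟨ω, c⟩ _; simp
  · rintro ⟨ω, c⟩ _; rfl

variable (r : ι → ℕ) (Hit : ι → (ι → α) → Prop) [∀ j ω, Decidable (Hit j ω)]

/-- exponential moment of the number of hits -/
lemma hit_moment (hr : Function.Injective r)
    (hdep : ∀ j ω ω', (∀ i, r i ≤ r j → ω i = ω' i) → (Hit j ω → Hit j ω')) (p : ℝ)
    (hp1 : p ≤ 2) (J : Finset ι)
    (hcount : ∀ j ∈ J, ∀ ω : ι → α, p * Fintype.card α ≤
      ((Finset.univ.filter fun c => Hit j (Function.update ω j c)).card : ℝ)) :
    ∑ ω : ι → α, (1 / 2 : ℝ) ^ (J.filter fun j => Hit j ω).card ≤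
      (1 - p / 2) ^ J.card * Fintype.card (ι → α) := by
  classical
  induction J using Finset.induction_on_max_value r with
  | empty => simp
  | insert a s has hmax ih =>
    have ihs := ih (fun j hj => hcount j (Finset.mem_insert_of_mem hj))
    have hca := hcount a (Finset.mem_insert_self a s)
    rcases isEmpty_or_nonempty α with hα | hα
    · -- no values at all
      have : IsEmpty (ι → α) := ⟨fun ω => hα.elim (ω a)⟩
      rw [Finset.univ_eq_empty, Finset.sum_empty, Fintype.card_eq_zero]
      simp
    have hαpos : (0 : ℝ) < Fintype.card α := by exact_mod_cast Fintype.card_pos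
    let F : (ι → α) → ℝ := fun ω => (1 / 2 : ℝ) ^ (s.filter fun j => Hit j ω).card
    let g : (ι → α) → ℝ := fun ω => if Hit a ω then 1 / 2 else 1
    have hsplit : ∀ ω : ι → α, (1 / 2 : ℝ) ^ ((insert a s).filter fun j => Hit j ω).card =
        F ω * g ω := by
      intro ω
      simp only [F, g]
      rw [Finset.filter_insert]
      split_ifs with h
      · rw [Finset.card_insert_of_notMem (by simp [has]), pow_succ]
      · rw [mul_one]
    have hinv : ∀ (ω : ι → α) (c : α), F (Function.update ω a c) = F ω := by
      intro ω c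
      simp only [F]
      congr 2
      apply Finset.filter_congr
      intro j hj
      have hja : j ≠ a := fun h => has (h ▸ hj)
      have hlt : r j < r a := lt_of_le_of_ne (hmax j hj) (fun h => hja (hr h))
      constructor
      · intro h
        refine hdep j _ _ ?_ h
        intro i hi
        have : i ≠ a := by
          rintro rfl
          omega
        exact Function.update_of_ne this _ _
      · intro h
        refine hdep j _ _ ?_ h
        intro i hi
        have : i ≠ a := by
          rintro rfl
          omega
        exact (Function.update_of_ne this _ _).symm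
    have hFnonneg : ∀ ω, 0 ≤ F ω := fun ω => by simp only [F]; positivity
    have hg : ∀ ω : ι → α, ∑ c : α, g (Function.update ω a c) ≤
        (1 - p / 2) * Fintype.card α := by
      intro ω
      have h1 : ∀ c : α, g (Function.update ω a c) =
          1 - (if Hit a (Function.update ω a c) then (1 / 2 : ℝ) else 0) := by
        intro c
        simp only [g]
        split_ifs <;> norm_num
      rw [Finset.sum_congr rfl (fun c _ => h1 c), Finset.sum_sub_distrib, Finset.sum_const,
        nsmul_eq_mul, mul_one, Finset.card_univ, ← Finset.sum_filter, Finset.sum_const,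
        nsmul_eq_mul]
      have := hca ω
      linarith
    have hmain : (Fintype.card α : ℝ) * ∑ ω : ι → α, F ω * g ω ≤
        Fintype.card α * ((1 - p / 2) * ∑ ω, F ω) := by
      rw [← sum_update a]
      calc ∑ ω : ι → α, ∑ c : α, F (Function.update ω a c) * g (Function.update ω a c)
          = ∑ ω : ι → α, F ω * ∑ c : α, g (Function.update ω a c) := by
            apply Finset.sum_congr rfl
            intro ω _
            rw [Finset.mul_sum]
            apply Finset.sum_congr rfl
            intro c _
            rw [hinv]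
        _ ≤ ∑ ω : ι → α, F ω * ((1 - p / 2) * Fintype.card α) := by
            apply Finset.sum_le_sum
            intro ω _
            exact mul_le_mul_of_nonneg_left (hg ω) (hFnonneg ω)
        _ = Fintype.card α * ((1 - p / 2) * ∑ ω, F ω) := by
            rw [← Finset.sum_mul]
            ring
    have hfin := le_of_mul_le_mul_left hmain hαpos
    rw [Finset.sum_congr rfl (fun ω _ => hsplit ω), Finset.card_insert_of_notMem has, pow_succ]
    refine hfin.trans ?_
    have h0 : 0 ≤ 1 - p / 2 := by linarith
    calc (1 - p / 2) * ∑ ω, F ω ≤ (1 - p / 2) * ((1 - p / 2) ^ s.card * Fintype.card (ι → α)) :=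
          mul_le_mul_of_nonneg_left ihs h0
      _ = (1 - p / 2) ^ s.card * (1 - p / 2) * Fintype.card (ι → α) := by ring

/-- few hits are unlikely -/
lemma few_hits (hr : Function.Injective r)
    (hdep : ∀ j ω ω', (∀ i, r i ≤ r j → ω i = ω' i) → (Hit j ω → Hit j ω')) (p : ℝ)
    (hp1 : p ≤ 2) (J : Finset ι)
    (hcount : ∀ j ∈ J, ∀ ω : ι → α, p * Fintype.card α ≤
      ((Finset.univ.filter fun c => Hit j (Function.update ω j c)).card : ℝ)) (h : ℕ) :
    ((Finset.univ.filter fun ω : ι → α => (J.filter fun j => Hit j ω).card ≤ h).card : ℝ) ≤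
      2 ^ h * ((1 - p / 2) ^ J.card * Fintype.card (ι → α)) := by
  have h1 := hit_moment r Hit hr hdep p hp1 J hcount
  have h2 : ((Finset.univ.filter fun ω : ι → α => (J.filter fun j => Hit j ω).card ≤ h).card : ℝ)
      * (1 / 2) ^ h ≤ ∑ ω : ι → α, (1 / 2 : ℝ) ^ (J.filter fun j => Hit j ω).card := by
    rw [← nsmul_eq_mul, ← Finset.sum_const]
    calc ∑ ω ∈ Finset.univ.filter fun ω : ι → α => (J.filter fun j => Hit j ω).card ≤ h,
          (1 / 2 : ℝ) ^ h
        ≤ ∑ ω ∈ Finset.univ.filter fun ω : ι → α => (J.filter fun j => Hit j ω).card ≤ h,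
          (1 / 2 : ℝ) ^ (J.filter fun j => Hit j ω).card := by
          apply Finset.sum_le_sum
          intro ω hω
          rw [Finset.mem_filter] at hω
          exact pow_le_pow_of_le_one (by norm_num) (by norm_num) hω.2
      _ ≤ _ := by
          apply Finset.sum_le_sum_of_subset_of_nonneg (Finset.filter_subset _ _)
          intro ω _ _
          positivity
  have h3 : (2 : ℝ) ^ h * (1 / 2) ^ h = 1 := by
    rw [← mul_pow]
    norm_num
  calc ((Finset.univ.filter fun ω : ι → α => (J.filter fun j => Hit j ω).card ≤ h).card : ℝ)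
      = 2 ^ h * (((Finset.univ.filter fun ω : ι → α =>
          (J.filter fun j => Hit j ω).card ≤ h).card : ℝ) * (1 / 2) ^ h) := by
        rw [mul_left_comm, h3, mul_one]
    _ ≤ 2 ^ h * ((1 - p / 2) ^ J.card * Fintype.card (ι → α)) :=
        mul_le_mul_of_nonneg_left (h2.trans h1) (by positivity)

end Pool.Agent.H24.LP
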