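import Pool.Agent.H24.LP.Hall
import Pool.Agent.H24.LP.Tail
import Pool.Agent.H16.Cube.Lll

/-!
# Random cells
-/

namespace Pool.Agent.H24.LP

open Finset

set_option linter.unusedSectionVars false

namespace Cells

variable {V : Type} [Fintype V] [DecidableEq V] {K m : ℕ}

/-- random cells: `m` cells of the `K × K` array for every vertex -/
abbrev Om (V : Type) (m K : ℕ) : Type := V × Fin m → Fin K × Fin K

/-- The cell number `t` of the vertex `u` is kept. -/
def Keep (G : SimpleGraph V) (σ : V → V → Equiv.Perm (Fin K)) (W A : Finset V)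
    (π : V → Equiv.Perm (Fin K)) (idx : V → ℕ) (ω : Om V m K) (u : V) (t : Fin m) : Prop :=
  (∀ w ∈ nb G W u, σ w u (π w (ω (u, t)).1) ≠ (ω (u, t)).2) ∧
  (∀ t' < t, (ω (u, t')).1 ≠ (ω (u, t)).1 ∧ (ω (u, t')).2 ≠ (ω (u, t)).2) ∧
  (∀ u' ∈ nb G A u, idx u' < idx u → ∀ t' : Fin m, (ω (u', t')).1 = (ω (u, t)).1 →
    σ u' u (ω (u', t')).2 ≠ (ω (u, t)).2)

/-- The cell `j` is kept and lies in `X × Y`, seen from `v`. -/
def HitAt (G : SimpleGraph V) (σ : V → V → Equiv.Perm (Fin K)) (W A : Finset V)
    (π : V → Equiv.Perm (Fin K)) (idx : V → ℕ) (v : V) (X Y : Finset (Fin K)) (j : V × Fin m)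
    (ω : Om V m K) : Prop :=
  Keep G σ W A π idx ω j.1 j.2 ∧ (ω j).1 ∈ X ∧ σ j.1 v (ω j).2 ∈ Y

/-- rank of a cell -/
def rk (idx : V → ℕ) (j : V × Fin m) : ℕ := idx j.1 * m + j.2.val

lemma rk_inj {idx : V → ℕ} (hidx : Function.Injective idx) :
    Function.Injective (rk idx : V × Fin m → ℕ) := by
  rintro ⟨u, t⟩ ⟨u', t'⟩ h
  unfold rk at h
  simp only at h
  have ht := t.isLt
  have ht' := t'.isLt
  have h1 : idx u = idx u' := by
    have e1 : (idx u * m + t.val) / m = idx u := by
      rw [mul_comm, Nat.mul_add_div (by omega), Nat.div_eq_of_lt ht, add_zero]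
    have e2 : (idx u' * m + t'.val) / m = idx u' := by
      rw [mul_comm, Nat.mul_add_div (by omega), Nat.div_eq_of_lt ht', add_zero]
    rw [← e1, ← e2, h]
  have h2 : t.val = t'.val := by
    rw [h1] at h
    omega
  rw [hidx h1, Fin.ext h2]

variable (G : SimpleGraph V) (σ : V → V → Equiv.Perm (Fin K)) (W A : Finset V)
    (π : V → Equiv.Perm (Fin K)) (idx : V → ℕ)

/-- the coordinates seen by a vertex -/
lemma keep_congr {ω ω' : Om V m K} {u : V} {t : Fin m} (h1 : ∀ t' ≤ t, ω (u, t') = ω' (u, t'))
    (h2 : ∀ u' ∈ nb G A u, idx u' < idx u → ∀ t', ω (u', t') = ω' (u', t'))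
    (hk : Keep G σ W A π idx ω u t) : Keep G σ W A π idx ω' u t := by
  obtain ⟨a1, a2, a3⟩ := hk
  have e := h1 t le_rfl
  refine ⟨?_, ?_, ?_⟩
  · rw [← e]
    exact a1
  · intro t' ht'
    rw [← e, ← h1 t' ht'.le]
    exact a2 t' ht'
  · intro u' hu' hlt t'
    rw [← e, ← h2 u' hu' hlt t']
    exact a3 u' hu' hlt t'

lemma hit_dep (v : V) (X Y : Finset (Fin K)) (j : V × Fin m) (ω ω' : Om V m K)
    (h : ∀ i, rk idx i ≤ rk idx j → ω i = ω' i) (hh : HitAt G σ W A π idx v X Y j ω) :
    HitAt G σ W A π idx v X Y j ω' := by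
  obtain ⟨u, t⟩ := j
  obtain ⟨h1, h2, h3⟩ := hh
  have e : ω (u, t) = ω' (u, t) := h _ le_rfl
  refine ⟨keep_congr G σ W A π idx ?_ ?_ h1, ?_, ?_⟩
  · intro t' ht'
    apply h
    unfold rk
    have : t'.val ≤ t.val := ht'
    simp only
    omega
  · intro u' _ hlt t'
    apply h
    unfold rk
    simp only at hlt ⊢
    have := t'.isLt
    have h5 : (idx u' + 1) * m ≤ idx u * m := Nat.mul_le_mul_right m hlt
    rw [add_mul, one_mul] at h5
    omega
  · rw [← e]
    exact h2
  · rw [← e]
    exact h3

open Classical in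
/-- many values make a hit -/
lemma hit_count (hK : 100 * m ≤ K) {u : V} (t : Fin m) (hext : 10 * (nb G W u).card ≤ 3 * K)
    (hin : 10 * (nb G A u).card ≤ 3 * K) (v : V) {X Y : Finset (Fin K)}
    (hX : 2 * K ≤ 5 * X.card) (hY : 2 * K ≤ 5 * Y.card) (ω : Om V m K) :
    K * K ≤ 100 * (Finset.univ.filter fun c : Fin K × Fin K =>
      HitAt G σ W A π idx v X Y (u, t) (Function.update ω (u, t) c)).card := by
  set H := Finset.univ.filter fun c : Fin K × Fin K =>
      HitAt G σ W A π idx v X Y (u, t) (Function.update ω (u, t) c) with hH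
  set Y' : Finset (Fin K) := Finset.univ.filter fun c => σ u v c ∈ Y with hY'
  have hYc : Y'.card = Y.card := by
    rw [hY']
    apply Finset.card_bij (fun c _ => σ u v c)
    · intro c hc
      rw [Finset.mem_filter] at hc
      exact hc.2
    · intro a _ b _ hab
      exact (σ u v).injective hab
    · intro y hy
      exact ⟨(σ u v)⁻¹ y, by simp [hy], by simp⟩
  let B1 : Finset (Fin K × Fin K) :=
    (nb G W u).biUnion fun w => X.image fun i => (i, σ w u (π w i))
  let B2 : Finset (Fin K × Fin K) :=
    (Finset.univ : Finset (Fin m)).biUnion fun t' => {(ω (u, t')).1} ×ˢ Finset.univ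
  let B3 : Finset (Fin K × Fin K) :=
    (Finset.univ : Finset (Fin m)).biUnion fun t' => Finset.univ ×ˢ {(ω (u, t')).2}
  let B4 : Finset (Fin K × Fin K) :=
    (nb G A u ×ˢ (Finset.univ : Finset (Fin m))).image fun p =>
      ((ω p).1, σ p.1 u (ω p).2)
  have hcover : X ×ˢ Y' ⊆ H ∪ (B1 ∪ (B2 ∪ (B3 ∪ B4))) := by
    rintro ⟨i, c⟩ hic
    rw [Finset.mem_product] at hic
    obtain ⟨hi, hc⟩ := hic
    rw [hY', Finset.mem_filter] at hc
    simp only at hi hc
    simp only [Finset.mem_union]
    by_cases h1 : (i, c) ∈ B1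
    · tauto
    by_cases h2 : (i, c) ∈ B2
    · tauto
    by_cases h3 : (i, c) ∈ B3
    · tauto
    by_cases h4 : (i, c) ∈ B4
    · tauto
    left
    rw [hH, Finset.mem_filter]
    refine ⟨Finset.mem_univ _, ?_, ?_, ?_⟩
    · refine ⟨?_, ?_, ?_⟩
      · intro w hw heq
        rw [Function.update_self] at heq
        apply h1
        simp only [B1, Finset.mem_biUnion, Finset.mem_image]
        exact ⟨w, hw, i, hi, by rw [Prod.mk.injEq]; exact ⟨rfl, heq⟩⟩
      · intro t' ht'
        have hne : ((u, t') : V × Fin m) ≠ (u, t) := by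
          intro h
          rw [Prod.mk.injEq] at h
          exact ht'.ne h.2
        rw [Function.update_self, Function.update_of_ne hne]
        constructor
        · intro h
          apply h2
          simp only [B2, Finset.mem_biUnion, Finset.mem_product, Finset.mem_singleton]
          exact ⟨t', Finset.mem_univ _, h.symm, Finset.mem_univ _⟩
        · intro h
          apply h3
          simp only [B3, Finset.mem_biUnion, Finset.mem_product, Finset.mem_singleton]
          exact ⟨t', Finset.mem_univ _, Finset.mem_univ _, h.symm⟩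
      · intro u' hu' _ t'
        have hne : ((u', t') : V × Fin m) ≠ (u, t) := by
          intro h
          rw [Prod.mk.injEq] at h
          have := (mem_nb.1 hu').2
          rw [h.1] at this
          exact G.loopless.irrefl _ this
        rw [Function.update_self, Function.update_of_ne hne]
        intro e1 e2
        apply h4
        simp only [B4, Finset.mem_image, Finset.mem_product]
        exact ⟨(u', t'), ⟨hu', Finset.mem_univ _⟩, by rw [Prod.mk.injEq]; exact ⟨e1, e2⟩⟩
    · rw [Function.update_self]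
      exact hi
    · rw [Function.update_self]
      exact hc.2
  have c1 : B1.card ≤ (nb G W u).card * X.card :=
    Finset.card_biUnion_le_card_mul _ _ _ (fun w _ => Finset.card_image_le)
  have c2 : B2.card ≤ m * K := by
    have := Finset.card_biUnion_le_card_mul (Finset.univ : Finset (Fin m))
      (fun t' => ({(ω (u, t')).1} : Finset (Fin K)) ×ˢ (Finset.univ : Finset (Fin K))) K
      (fun t' _ => by rw [Finset.card_product]; simp)
    rw [Finset.card_univ, Fintype.card_fin] at this
    exact this
  have c3 : B3.card ≤ m * K := by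
    have := Finset.card_biUnion_le_card_mul (Finset.univ : Finset (Fin m))
      (fun t' => (Finset.univ : Finset (Fin K)) ×ˢ ({(ω (u, t')).2} : Finset (Fin K))) K
      (fun t' _ => by rw [Finset.card_product]; simp)
    rw [Finset.card_univ, Fintype.card_fin] at this
    exact this
  have c4 : B4.card ≤ (nb G A u).card * m := by
    refine Finset.card_image_le.trans ?_
    rw [Finset.card_product, Finset.card_univ, Fintype.card_fin]
  have htot : X.card * Y.card ≤ H.card + ((nb G W u).card * X.card + (m * K + (m * K +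
      (nb G A u).card * m))) := by
    rw [← hYc, ← Finset.card_product]
    refine (Finset.card_le_card hcover).trans ?_
    refine (Finset.card_union_le _ _).trans ?_
    refine Nat.add_le_add_left ?_ _
    refine (Finset.card_union_le _ _).trans ?_
    refine Nat.add_le_add c1 ?_
    refine (Finset.card_union_le _ _).trans ?_
    refine Nat.add_le_add c2 ?_
    refine (Finset.card_union_le _ _).trans ?_
    exact Nat.add_le_add c3 c4
  generalize X.card = x at *
  generalize Y.card = y at *
  generalize (nb G W u).card = e at *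
  generalize (nb G A u).card = d at *
  generalize H.card = n at *
  -- arithmetic
  have e1 : K ≤ 10 * (y - e) := by omega
  have e2 : 2 * K * K ≤ 5 * x * (10 * (y - e)) := Nat.mul_le_mul hX e1
  have e3 : x * (y - e) + e * x ≤ x * y := by
    have : e ≤ y := by omega
    calc x * (y - e) + e * x = x * (y - e + e) := by ring
      _ = x * y := by rw [Nat.sub_add_cancel this]
      _ ≤ x * y := le_refl _
  have e4 : 100 * (m * K) ≤ K * K := by
    calc 100 * (m * K) = (100 * m) * K := by ring
      _ ≤ K * K := Nat.mul_le_mul_right K hK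
  have e5 : 1000 * (d * m) ≤ 3 * (K * K) := by
    calc 1000 * (d * m) = (10 * d) * (100 * m) := by ring
      _ ≤ (3 * K) * K := Nat.mul_le_mul hin hK
      _ = 3 * (K * K) := by ring
  nlinarith

end Cells

end Pool.Agent.H24.LP
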