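import Pool.Agent.H24.LP.Rand

/-!
# Extension of a packing to a sparse piece
-/

namespace Pool.Agent.H24.LP

open Finset

set_option linter.unusedSectionVars false

/-! ### Counting forbidden entries -/

lemma card_forb {ι : Type} {K : ℕ} (N : Finset ι) (P : ι → Fin K → Prop)
    (hP : ∀ j c c', P j c → P j c' → c = c') [DecidablePred fun c => ∃ j ∈ N, P j c] :
    (Finset.univ.filter fun c => ∃ j ∈ N, P j c).card ≤ N.card := by
  classical
  rcases (Finset.univ.filter fun c => ∃ j ∈ N, P j c).eq_empty_or_nonempty with h | ⟨c0, hc0⟩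
  · rw [h]
    simp
  have hne : Nonempty ι := by
    rw [Finset.mem_filter] at hc0
    exact ⟨hc0.2.choose⟩
  have h1 : ∀ c ∈ Finset.univ.filter fun c => ∃ j ∈ N, P j c, ∃ j ∈ N, P j c := by
    intro c hc
    rw [Finset.mem_filter] at hc
    exact hc.2
  choose! g hg using h1
  apply Finset.card_le_card_of_injOn g (fun c hc => (hg c hc).1)
  intro c hc c' hc' h
  have e1 := (hg c hc).2
  have e2 := (hg c' hc').2
  rw [h] at e1
  exact hP _ _ _ e1 e2

/-- number of entries of a family of permutations in a rectangle -/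
def cnt {V : Type} {K : ℕ} (N : Finset V) (g : V → Equiv.Perm (Fin K)) (X Y : Finset (Fin K)) :
    ℕ :=
  ∑ w ∈ N, (X.filter fun i => g w i ∈ Y).card

section Count

variable {V : Type} {K : ℕ} (N : Finset V) (g : V → Equiv.Perm (Fin K))

lemma cnt_add_right (S T : Finset (Fin K)) :
    cnt N g S T + cnt N g S Tᶜ = N.card * S.card := by
  unfold cnt
  rw [← Finset.sum_add_distrib]
  rw [Finset.sum_congr rfl (g := fun _ => S.card)]
  · rw [Finset.sum_const, smul_eq_mul]
  · intro w _
    simp only [Finset.mem_compl]
    exact Finset.card_filter_add_card_filter_not _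

lemma cnt_add_left (S T : Finset (Fin K)) :
    cnt N g S T + cnt N g Sᶜ T = N.card * T.card := by
  classical
  unfold cnt
  rw [← Finset.sum_add_distrib]
  rw [Finset.sum_congr rfl (g := fun _ => T.card)]
  · rw [Finset.sum_const, smul_eq_mul]
  · intro w _
    rw [← Finset.card_union_of_disjoint]
    · rw [← Finset.filter_union, Finset.union_compl]
      apply Finset.card_bij (fun i _ => g w i)
      · intro i hi
        rw [Finset.mem_filter] at hi
        exact hi.2
      · intro a _ b _ hab
        exact (g w).injective hab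
      · intro y hy
        exact ⟨(g w)⁻¹ y, by simp [hy], by simp⟩
    · rw [Finset.disjoint_left]
      intro i hi hi'
      rw [Finset.mem_filter] at hi hi'
      exact (Finset.mem_compl.1 hi'.1) hi.1

lemma mul_le_cnt {S T : Finset (Fin K)} (h : ∀ i ∈ S, ∀ c ∈ T, ∃ w ∈ N, g w i = c) :
    S.card * T.card ≤ cnt N g S T := by
  classical
  rw [← Finset.card_product]
  have hsub : S ×ˢ T ⊆ N.biUnion fun w => (S.filter fun i => g w i ∈ T).image fun i => (i, g w i) := by
    rintro ⟨i, c⟩ hic
    rw [Finset.mem_product] at hic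
    obtain ⟨w, hw, hwc⟩ := h i hic.1 c hic.2
    rw [Finset.mem_biUnion]
    refine ⟨w, hw, ?_⟩
    rw [Finset.mem_image]
    refine ⟨i, ?_, by rw [hwc]⟩
    rw [Finset.mem_filter, hwc]
    exact hic
  refine (Finset.card_le_card hsub).trans (Finset.card_biUnion_le.trans ?_)
  unfold cnt
  exact Finset.sum_le_sum fun w _ => Finset.card_image_le

/-- a robust version of the greedy step -/
theorem hall_robust (hN : 2000000 * N.card ≤ 1000002 * K) (hK : 0 < K)
    (hX : ∀ X Y : Finset (Fin K), 2 * K ≤ 5 * X.card → 2 * K ≤ 5 * Y.card →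
      K * K < 1000000 * cnt N g X Y) :
    ∃ p : Equiv.Perm (Fin K), ∀ w ∈ N, Disc (g w) p := by
  classical
  let Forb : Fin K → Finset (Fin K) := fun i => Finset.univ.filter fun c => ∃ w ∈ N, g w i = c
  have hrow : ∀ i, (Forb i).card ≤ N.card := fun i =>
    card_forb N (fun w c => g w i = c) (fun w c c' h h' => h.symm.trans h')
  have hcol : ∀ c, (Finset.univ.filter fun i => ∃ w ∈ N, g w i = c).card ≤ N.card := fun c =>
    card_forb N (fun w i => g w i = c) (fun w i i' h h' => (g w).injective (h.trans h'.symm))
  obtain ⟨p, hp⟩ := hall_perm Forb (by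
    intro S
    by_contra hcon
    push Not at hcon
    set NS := S.biUnion fun i => Finset.univ \ Forb i with hNS
    set T := NSᶜ with hT
    have hTc : T.card + NS.card = K := by
      rw [hT, Finset.card_compl, Fintype.card_fin]
      have := Finset.card_le_univ NS
      rw [Fintype.card_fin] at this
      omega
    have hcov : ∀ i ∈ S, ∀ c ∈ T, ∃ w ∈ N, g w i = c := by
      intro i hi c hc
      rw [hT, Finset.mem_compl, hNS, Finset.mem_biUnion] at hc
      push Not at hc
      have := hc i hi
      rw [Finset.mem_sdiff, not_and, not_not] at this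
      have h2 := this (Finset.mem_univ _)
      simp only [Forb, Finset.mem_filter, Finset.mem_univ, true_and] at h2
      exact h2
    have hSne : S.Nonempty := by
      rw [← Finset.card_pos]
      omega
    have hScard : S.card ≤ K := by
      have := Finset.card_le_univ S
      rwa [Fintype.card_fin] at this
    have hTne : T.Nonempty := by
      rw [← Finset.card_pos]
      omega
    have hTn : T.card ≤ N.card := by
      obtain ⟨i, hi⟩ := hSne
      refine le_trans (Finset.card_le_card ?_) (hrow i)
      intro c hc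
      simp only [Forb, Finset.mem_filter, Finset.mem_univ, true_and]
      exact hcov i hi c hc
    have hSn : S.card ≤ N.card := by
      obtain ⟨c, hc⟩ := hTne
      refine le_trans (Finset.card_le_card ?_) (hcol c)
      intro i hi
      simp only [Finset.mem_filter, Finset.mem_univ, true_and]
      exact hcov i hi c hc
    have h1 := mul_le_cnt N g hcov
    have h2 := cnt_add_right N g S T
    have h3 := cnt_add_left N g S T
    have hTcc : Tᶜ.card = K - T.card := by
      rw [Finset.card_compl, Fintype.card_fin]
    have hScc : Sᶜ.card = K - S.card := by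
      rw [Finset.card_compl, Fintype.card_fin]
    rcases le_total S.card T.card with hle | hle
    · have h4 := hX S Tᶜ (by omega) (by omega)
      -- the number of violations
      have h5 : cnt N g S Tᶜ ≤ S.card * (N.card - T.card) := by
        have : S.card * (N.card - T.card) + S.card * T.card = N.card * S.card := by
          rw [← mul_add, Nat.sub_add_cancel hTn, mul_comm]
        omega
      have h6 : 1000000 * (N.card - T.card) ≤ K := by omega
      have h7 : 1000000 * cnt N g S Tᶜ ≤ K * K := by
        calc 1000000 * cnt N g S Tᶜ ≤ 1000000 * (S.card * (N.card - T.card)) :=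
              Nat.mul_le_mul_left _ h5
          _ = S.card * (1000000 * (N.card - T.card)) := by ring
          _ ≤ K * K := Nat.mul_le_mul hScard h6
      omega
    · have h4 := hX Sᶜ T (by omega) (by omega)
      have h5 : cnt N g Sᶜ T ≤ T.card * (N.card - S.card) := by
        have : T.card * (N.card - S.card) + T.card * S.card = N.card * T.card := by
          rw [← mul_add, Nat.sub_add_cancel hSn, mul_comm]
        have h8 : T.card * S.card = S.card * T.card := mul_comm _ _
        omega
      have h6 : 1000000 * (N.card - S.card) ≤ K := by omega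
      have hTK : T.card ≤ K := by omega
      have h7 : 1000000 * cnt N g Sᶜ T ≤ K * K := by
        calc 1000000 * cnt N g Sᶜ T ≤ 1000000 * (T.card * (N.card - S.card)) :=
              Nat.mul_le_mul_left _ h5
          _ = T.card * (1000000 * (N.card - S.card)) := by ring
          _ ≤ K * K := Nat.mul_le_mul hTK h6
      omega)
  refine ⟨p, ?_⟩
  intro w hw i hi
  apply hp i
  simp only [Forb, Finset.mem_filter, Finset.mem_univ, true_and]
  exact ⟨w, hw, hi⟩

end Count

/-! ### Valid partial packings -/

section Valid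

variable {V : Type} [Fintype V] [DecidableEq V] {K m : ℕ}

/-- a packing of the part of the cover over `S` -/
def ValidK (G : SimpleGraph V) (σ : V → V → Equiv.Perm (Fin K)) (S : Finset V)
    (π : V → Equiv.Perm (Fin K)) : Prop :=
  ∀ u ∈ S, ∀ w ∈ S, G.Adj u w → Disc (σ u w * π u) (π w)

variable {G : SimpleGraph V} {σ : V → V → Equiv.Perm (Fin K)}
  (hσ : ∀ u v, G.Adj u v → σ v u = (σ u v)⁻¹)

include hσ

lemma validK_insert {S : Finset V} {π : V → Equiv.Perm (Fin K)} (h : ValidK G σ S π) {v : V}
    (hv : v ∉ S) {p : Equiv.Perm (Fin K)} (hp : ∀ w ∈ nb G S v, Disc (σ w v * π w) p) :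
    ValidK G σ (insert v S) (Function.update π v p) := by
  intro u hu w hw hadj
  have hns : ∀ t ∈ S, t ≠ v := fun t ht htv => hv (htv ▸ ht)
  rw [Finset.mem_insert] at hu hw
  rcases hu with rfl | hu
  · rcases hw with rfl | hw
    · exact absurd hadj (G.loopless.irrefl _)
    · rw [Function.update_self, Function.update_of_ne (hns w hw)]
      have h5 := hp w (mem_nb.2 ⟨hw, hadj⟩)
      rw [hσ w u hadj.symm, ← disc_mul_left (σ w u)]
      simpa using h5.symm
  · rcases hw with rfl | hw
    · rw [Function.update_self, Function.update_of_ne (hns u hu)]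
      exact hp u (mem_nb.2 ⟨hu, hadj.symm⟩)
    · rw [Function.update_of_ne (hns u hu), Function.update_of_ne (hns w hw)]
      exact h u hu w hw hadj

end Valid

namespace Cells

variable {V : Type} [Fintype V] [DecidableEq V] {K m : ℕ}
variable (G : SimpleGraph V) (σ : V → V → Equiv.Perm (Fin K)) (W A A2 : Finset V)
    (π : V → Equiv.Perm (Fin K)) (idx : V → ℕ) (ω : Om V m K)

open Classical in
/-- the kept cells of a vertex -/
noncomputable def KC (u : V) : Finset (Fin K × Fin K) :=
  (Finset.univ.filter fun t : Fin m => Keep G σ W A π idx ω u t).image fun t => ω (u, t)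

lemma mem_KC {u : V} {x : Fin K × Fin K} :
    x ∈ KC G σ W A π idx ω u ↔ ∃ t, Keep G σ W A π idx ω u t ∧ ω (u, t) = x := by
  classical
  unfold KC
  rw [Finset.mem_image]
  simp

lemma KC_card (u : V) : (KC G σ W A π idx ω u).card ≤ m := by
  classical
  unfold KC
  refine Finset.card_image_le.trans ((Finset.card_filter_le _ _).trans ?_)
  rw [Finset.card_univ, Fintype.card_fin]

lemma keep_row {u : V} {t t' : Fin m} (h : Keep G σ W A π idx ω u t)
    (h' : Keep G σ W A π idx ω u t') (heq : (ω (u, t)).1 = (ω (u, t')).1) : t = t' := by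
  rcases lt_trichotomy t t' with hlt | rfl | hlt
  · exact absurd heq (h'.2.1 t hlt).1
  · rfl
  · exact absurd heq.symm (h.2.1 t' hlt).1

lemma keep_col {u : V} {t t' : Fin m} (h : Keep G σ W A π idx ω u t)
    (h' : Keep G σ W A π idx ω u t') (heq : (ω (u, t)).2 = (ω (u, t')).2) : t = t' := by
  rcases lt_trichotomy t t' with hlt | rfl | hlt
  · exact absurd heq (h'.2.1 t hlt).2
  · rfl
  · exact absurd heq.symm (h.2.1 t' hlt).2

lemma KC_row {u : V} : ∀ x ∈ KC G σ W A π idx ω u, ∀ y ∈ KC G σ W A π idx ω u,
    x.1 = y.1 → x = y := by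
  intro x hx y hy h
  obtain ⟨t, ht, rfl⟩ := (mem_KC G σ W A π idx ω).1 hx
  obtain ⟨t', ht', rfl⟩ := (mem_KC G σ W A π idx ω).1 hy
  rw [keep_row G σ W A π idx ω ht ht' h]

lemma KC_col {u : V} : ∀ x ∈ KC G σ W A π idx ω u, ∀ y ∈ KC G σ W A π idx ω u,
    x.2 = y.2 → x = y := by
  intro x hx y hy h
  obtain ⟨t, ht, rfl⟩ := (mem_KC G σ W A π idx ω).1 hx
  obtain ⟨t', ht', rfl⟩ := (mem_KC G σ W A π idx ω).1 hy
  rw [keep_col G σ W A π idx ω ht ht' h]

lemma KC_ext {u : V} {x : Fin K × Fin K} (hx : x ∈ KC G σ W A π idx ω u) {w : V}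
    (hw : w ∈ nb G W u) : σ w u (π w x.1) ≠ x.2 := by
  obtain ⟨t, ht, rfl⟩ := (mem_KC G σ W A π idx ω).1 hx
  exact ht.1 w hw

lemma KC_conf (hσ : ∀ u v, G.Adj u v → σ v u = (σ u v)⁻¹) (hidx : Function.Injective idx)
    {u u' : V} (hu : u ∈ A) (hu' : u' ∈ A) (hadj : G.Adj u u') {x y : Fin K × Fin K}
    (hx : x ∈ KC G σ W A π idx ω u) (hy : y ∈ KC G σ W A π idx ω u') (h1 : y.1 = x.1) :
    σ u' u y.2 ≠ x.2 := by
  obtain ⟨t, ht, rfl⟩ := (mem_KC G σ W A π idx ω).1 hx
  obtain ⟨t', ht', rfl⟩ := (mem_KC G σ W A π idx ω).1 hy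
  rcases lt_trichotomy (idx u') (idx u) with hlt | heq | hlt
  · exact ht.2.2 u' (mem_nb.2 ⟨hu', hadj⟩) hlt t' h1
  · exact absurd (hidx heq) hadj.symm.ne
  · have h2 := ht'.2.2 u (mem_nb.2 ⟨hu, hadj.symm⟩) hlt t h1.symm
    intro h3
    apply h2
    rw [← h3, hσ u u' hadj]
    simp


/-- Stage 1: completing the kept cells to permutations. -/
theorem stage_one (hσ : ∀ u v, G.Adj u v → σ v u = (σ u v)⁻¹) (hidx : Function.Injective idx)
    (hWA : Disjoint W A) (hval : ValidK G σ W π)
    (hdeg : ∀ u ∈ A, 2 * ((nb G W u).card + (nb G A u).card) + m ≤ K) :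
    ∀ D ⊆ A, ∃ ρ : V → Equiv.Perm (Fin K), (∀ w ∈ W, ρ w = π w) ∧ ValidK G σ (W ∪ D) ρ ∧
      (∀ u ∈ D, ∀ x ∈ KC G σ W A π idx ω u, ρ u x.1 = x.2) ∧
      (∀ u ∈ D, ∀ u' ∈ nb G A u, u' ∉ D → ∀ x ∈ KC G σ W A π idx ω u',
        σ u u' (ρ u x.1) ≠ x.2) := by
  classical
  intro D
  induction D using Finset.induction_on with
  | empty =>
    intro _
    refine ⟨π, fun _ _ => rfl, ?_, ?_, ?_⟩
    · rw [Finset.union_empty]
      exact hval
    · intro u hu
      exact absurd hu (Finset.notMem_empty u)
    · intro u hu
      exact absurd hu (Finset.notMem_empty u)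
  | insert u D huD ih =>
    intro hDA
    obtain ⟨ρ, hρW, hρval, hρK, hρc⟩ := ih ((Finset.subset_insert u D).trans hDA)
    have huA : u ∈ A := hDA (Finset.mem_insert_self u D)
    have huW : u ∉ W := fun h => (Finset.disjoint_left.1 hWA) h huA
    -- the forbidden entries
    let P : V → Fin K → Fin K → Prop := fun w i c =>
      if w ∈ W ∪ D then σ w u (ρ w i) = c
      else ∃ x ∈ KC G σ W A π idx ω w, x.1 = i ∧ σ w u x.2 = c
    have hP1 : ∀ w i c c', P w i c → P w i c' → c = c' := by
      intro w i c c' h h'
      simp only [P] at h h'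
      by_cases hw : w ∈ W ∪ D
      · rw [if_pos hw] at h h'
        exact h.symm.trans h'
      · rw [if_neg hw] at h h'
        obtain ⟨x, hx, hx1, hx2⟩ := h
        obtain ⟨y, hy, hy1, hy2⟩ := h'
        have := KC_row G σ W A π idx ω x hx y hy (hx1.trans hy1.symm)
        rw [← hx2, ← hy2, this]
    have hP2 : ∀ w c i i', P w i c → P w i' c → i = i' := by
      intro w c i i' h h'
      simp only [P] at h h'
      by_cases hw : w ∈ W ∪ D
      · rw [if_pos hw] at h h'
        exact (ρ w).injective ((σ w u).injective (h.trans h'.symm))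
      · rw [if_neg hw] at h h'
        obtain ⟨x, hx, hx1, hx2⟩ := h
        obtain ⟨y, hy, hy1, hy2⟩ := h'
        have := KC_col G σ W A π idx ω x hx y hy ((σ w u).injective (hx2.trans hy2.symm))
        rw [← hx1, ← hy1, this]
    let N : Finset V := nb G (W ∪ A) u
    have hNcard : N.card ≤ (nb G W u).card + (nb G A u).card := by
      have hsub : N ⊆ nb G W u ∪ nb G A u := by
        intro w hw
        simp only [N, mem_nb, Finset.mem_union] at hw ⊢
        tauto
      exact (Finset.card_le_card hsub).trans (Finset.card_union_le _ _)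
    let Forb : Fin K → Finset (Fin K) := fun i => Finset.univ.filter fun c => ∃ w ∈ N, P w i c
    obtain ⟨p, hp1, hp2⟩ := hall_complete (f := N.card) Forb
      (fun i => card_forb N (fun w c => P w i c) (fun w c c' h h' => hP1 w i c c' h h'))
      (fun c => by
        have := card_forb N (fun w i => P w i c) (fun w i i' h h' => hP2 w c i i' h h')
        refine le_trans (Finset.card_le_card ?_) this
        intro i hi
        rw [Finset.mem_filter] at hi ⊢
        refine ⟨Finset.mem_univ _, ?_⟩
        have h2 := hi.2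
        simp only [Forb, Finset.mem_filter, Finset.mem_univ, true_and] at h2
        exact h2)
      (KC G σ W A π idx ω u) (KC_row G σ W A π idx ω) (KC_col G σ W A π idx ω)
      (by
        intro x hx hmem
        simp only [Forb, Finset.mem_filter, Finset.mem_univ, true_and] at hmem
        obtain ⟨w, hw, hPw⟩ := hmem
        simp only [N] at hw
        rw [mem_nb, Finset.mem_union] at hw
        obtain ⟨hwS, hadj⟩ := hw
        simp only [P] at hPw
        by_cases hwWD : w ∈ W ∪ D
        · rw [if_pos hwWD] at hPw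
          rw [Finset.mem_union] at hwWD
          rcases hwWD with hwW | hwD
          · rw [hρW w hwW] at hPw
            exact KC_ext G σ W A π idx ω hx (mem_nb.2 ⟨hwW, hadj⟩) hPw
          · exact hρc w hwD u (mem_nb.2 ⟨huA, hadj.symm⟩) huD x hx hPw
        · rw [if_neg hwWD] at hPw
          obtain ⟨y, hy, hy1, hy2⟩ := hPw
          have hwA : w ∈ A := by
            rcases hwS with h | h
            · exact absurd (Finset.mem_union_left _ h) hwWD
            · exact h
          exact KC_conf G σ W A π idx ω hσ hidx huA hwA hadj hx hy hy1 hy2)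
      (by
        have h1 := hdeg u huA
        have h2 := KC_card G σ W A π idx ω u
        omega)
    have hforb : ∀ w ∈ N, ∀ i, ¬ P w i (p i) := by
      intro w hw i hPw
      apply hp2 i
      simp only [Forb, Finset.mem_filter, Finset.mem_univ, true_and]
      exact ⟨w, hw, hPw⟩
    have huWD : u ∉ W ∪ D := by
      rw [Finset.mem_union]
      tauto
    refine ⟨Function.update ρ u p, ?_, ?_, ?_, ?_⟩
    · intro w hw
      have : w ≠ u := fun h => huW (h ▸ hw)
      rw [Function.update_of_ne this]
      exact hρW w hw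
    · rw [Finset.union_insert]
      apply validK_insert hσ hρval huWD
      intro w hw i hi
      rw [mem_nb] at hw
      have hwN : w ∈ N := by
        simp only [N]
        rw [mem_nb, Finset.mem_union]
        have := (Finset.mem_union.1 hw.1)
        refine ⟨?_, hw.2⟩
        rcases this with h | h
        · exact Or.inl h
        · exact Or.inr (hDA (Finset.mem_insert_of_mem h))
      apply hforb w hwN i
      simp only [P]
      rw [if_pos hw.1]
      exact hi
    · intro v hv x hx
      rw [Finset.mem_insert] at hv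
      rcases hv with rfl | hv
      · rw [Function.update_self]
        exact hp1 x hx
      · have : v ≠ u := fun h => huD (h ▸ hv)
        rw [Function.update_of_ne this]
        exact hρK v hv x hx
    · intro v hv u' hu' hu'D x hx
      rw [Finset.mem_insert, not_or] at hu'D
      rw [Finset.mem_insert] at hv
      rcases hv with rfl | hv
      · rw [Function.update_self]
        intro heq
        rw [mem_nb] at hu'
        have hu'N : u' ∈ N := by
          simp only [N]
          rw [mem_nb, Finset.mem_union]
          exact ⟨Or.inr hu'.1, hu'.2⟩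
        apply hforb u' hu'N x.1
        simp only [P]
        have hnot : u' ∉ W ∪ D := by
          rw [Finset.mem_union, not_or]
          exact ⟨fun h => (Finset.disjoint_left.1 hWA) h hu'.1, hu'D.2⟩
        rw [if_neg hnot]
        refine ⟨x, hx, rfl, ?_⟩
        rw [← heq, hσ v u' hu'.2]
        simp
      · have : v ≠ u := fun h => huD (h ▸ hv)
        rw [Function.update_of_ne this]
        exact hρc v hv u' hu' hu'D.2 x hx

/-- Stage 2: the vertices of the other side, one by one. -/
theorem stage_two (hσ : ∀ u v, G.Adj u v → σ v u = (σ u v)⁻¹) (hK : 0 < K)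
    (hWA2 : Disjoint (W ∪ A) A2)
    (hcells : ∀ v ∈ A2, ∀ X Y : Finset (Fin K), 2 * K ≤ 5 * X.card → 2 * K ≤ 5 * Y.card →
      ∃ T : Finset (V × Fin m), (∀ j ∈ T, j.1 ∈ nb G A v ∧ HitAt G σ W A π idx v X Y j ω) ∧
        K * K < 1000000 * T.card)
    (hdeg : ∀ v ∈ A2, 2000000 * (nb G (W ∪ A ∪ A2) v).card ≤ 1000002 * K)
    (ρ : V → Equiv.Perm (Fin K)) (hval : ValidK G σ (W ∪ A) ρ)
    (hρ : ∀ u ∈ A, ∀ x ∈ KC G σ W A π idx ω u, ρ u x.1 = x.2) :
    ∀ D ⊆ A2, ∃ ρ' : V → Equiv.Perm (Fin K), (∀ w ∈ W ∪ A, ρ' w = ρ w) ∧
      ValidK G σ (W ∪ A ∪ D) ρ' := by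
  classical
  intro D
  induction D using Finset.induction_on with
  | empty =>
    intro _
    refine ⟨ρ, fun _ _ => rfl, ?_⟩
    rw [Finset.union_empty]
    exact hval
  | insert v D hvD ih =>
    intro hDA
    obtain ⟨ρ', hρ', hval'⟩ := ih ((Finset.subset_insert v D).trans hDA)
    have hvA2 : v ∈ A2 := hDA (Finset.mem_insert_self v D)
    have hvWA : v ∉ W ∪ A := fun h => (Finset.disjoint_left.1 hWA2) h hvA2
    have hvWAD : v ∉ W ∪ A ∪ D := by
      rw [Finset.mem_union]
      tauto
    let N : Finset V := nb G (W ∪ A ∪ D) v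
    let g : V → Equiv.Perm (Fin K) := fun w => σ w v * ρ' w
    obtain ⟨p, hp⟩ := hall_robust N g (by
        have h1 : N.card ≤ (nb G (W ∪ A ∪ A2) v).card := by
          apply Finset.card_le_card
          apply nb_mono
          apply Finset.union_subset_union_right
          exact (Finset.subset_insert v D).trans hDA
        have h2 := hdeg v hvA2
        omega) hK (by
        intro X Y hX hY
        obtain ⟨T, hT1, hT2⟩ := hcells v hvA2 X Y hX hY
        refine lt_of_lt_of_le hT2 (Nat.mul_le_mul_left _ ?_)
        -- the hits inject into the entries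
        have hinj : T.card ≤ (N.sigma fun w => X.filter fun i => g w i ∈ Y).card := by
          apply Finset.card_le_card_of_injOn (fun j => ⟨j.1, (ω j).1⟩)
          · rintro ⟨u, t⟩ hj
            obtain ⟨hu, hk, hx, hy⟩ := hT1 _ hj
            rw [mem_nb] at hu
            simp only at hu hx hy hk
            rw [Finset.mem_coe, Finset.mem_sigma, Finset.mem_filter]
            refine ⟨?_, hx, ?_⟩
            · simp only [N]
              rw [mem_nb, Finset.mem_union, Finset.mem_union]
              exact ⟨Or.inl (Or.inr hu.1), hu.2⟩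
            · have h3 := hρ u hu.1 (ω (u, t)) ((mem_KC G σ W A π idx ω).2 ⟨t, hk, rfl⟩)
              simp only [g, Equiv.Perm.mul_apply]
              rw [hρ' u (Finset.mem_union_right _ hu.1), h3]
              exact hy
          · rintro ⟨u, t⟩ hj ⟨u', t'⟩ hj' heq
            simp only [Sigma.mk.injEq] at heq
            obtain ⟨rfl, heq⟩ := heq
            have h1 := (hT1 _ hj).2.1
            have h2 := (hT1 _ hj').2.1
            simp only at h1 h2
            rw [keep_row G σ W A π idx ω h1 h2 (eq_of_heq heq)]
        rw [Finset.card_sigma] at hinj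
        exact hinj)
    refine ⟨Function.update ρ' v p, ?_, ?_⟩
    · intro w hw
      have : w ≠ v := fun h => hvWA (h ▸ hw)
      rw [Function.update_of_ne this]
      exact hρ' w hw
    · rw [Finset.union_insert]
      exact validK_insert hσ hval' hvWAD hp

end Cells

end Pool.Agent.H24.LP
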