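import Mathlib

/-!
# List packing and correspondence packing: definitions

The definitions follow the problem file `MP_6af60b_co`.
-/

namespace Pool.Agent.H24.LP

/-- `MadLT G a`: the maximum average degree of `G` is less than `a`, that is, every subgraph `H`
of `G` with at least one vertex satisfies `2 |E(H)| / |V(H)| < a`. -/
def MadLT {V : Type} (G : SimpleGraph V) (a : ℝ) : Prop :=
  ∀ H : G.Subgraph, H.verts.Nonempty → 2 * (H.edgeSet.ncard : ℝ) < a * (H.verts.ncard : ℝ)

/-- `L` is a `k`-list-assignment: every vertex gets a set of `k` colours (natural numbers). -/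
def IsListAssignment {V : Type} (L : V → Finset ℕ) (k : ℕ) : Prop :=
  ∀ v, (L v).card = k

/-- `c` is a proper `L`-colouring of `G`. -/
def IsListColouring {V : Type} (G : SimpleGraph V) (L : V → Finset ℕ) (c : V → ℕ) : Prop :=
  (∀ v, c v ∈ L v) ∧ ∀ u v, G.Adj u v → c u ≠ c v

/-- `G` has an `L`-packing: `k` proper `L`-colourings, pairwise different at every vertex. -/
def HasListPacking {V : Type} (G : SimpleGraph V) (L : V → Finset ℕ) (k : ℕ) : Prop :=
  ∃ c : Fin k → V → ℕ, (∀ i, IsListColouring G L (c i)) ∧ ∀ v i j, i ≠ j → c i v ≠ c j v

/-- Every `k`-list-assignment of `G` admits a packing. -/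
def ListPackable {V : Type} (G : SimpleGraph V) (k : ℕ) : Prop :=
  ∀ L : V → Finset ℕ, IsListAssignment L k → HasListPacking G L k

/-- The list packing number of `G`: the least positive `k` such that every `k`-list-assignment
of `G` admits a packing. -/
noncomputable def chiL {V : Type} (G : SimpleGraph V) : ℕ :=
  sInf {k : ℕ | 1 ≤ k ∧ ListPackable G k}

/-- A `k`-cover of `G`: a set `L v` of `k` elements for every vertex `v`, disjoint for distinct
vertices, and a symmetric relation `M` (being matched) such that for every edge `uv` of `G` the
pairs of `L u × L v` related by `M` form a matching (each `x` in `L u` is matched to at most one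
element of `L v`; by symmetry also conversely). -/
structure Cover {V : Type} (G : SimpleGraph V) (k : ℕ) where
  /-- the type of elements of the cover -/
  α : Type
  /-- the set of elements over a vertex -/
  L : V → Finset α
  /-- each set has `k` elements -/
  card_L : ∀ v, (L v).card = k
  /-- sets of distinct vertices are disjoint -/
  disj : ∀ u v, u ≠ v → Disjoint (L u) (L v)
  /-- the matched pairs -/
  M : α → α → Prop
  /-- being matched is symmetric -/
  symm : ∀ x y, M x y → M y x
  /-- for every edge the matched pairs form a matching -/
  matching : ∀ u v, G.Adj u v → ∀ x ∈ L u, ∀ y ∈ L v, ∀ z ∈ L v, M x y → M x z → y = z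

/-- A cover colouring chooses one element over every vertex so that the elements chosen at the
ends of an edge are not matched. -/
def Cover.IsColouring {V : Type} {G : SimpleGraph V} {k : ℕ} (C : Cover G k) (c : V → C.α) :
    Prop :=
  (∀ v, c v ∈ C.L v) ∧ ∀ u v, G.Adj u v → ¬ C.M (c u) (c v)

/-- A packing of a `k`-cover: `k` pairwise disjoint cover colourings. -/
def Cover.HasPacking {V : Type} {G : SimpleGraph V} {k : ℕ} (C : Cover G k) : Prop :=
  ∃ c : Fin k → V → C.α, (∀ i, C.IsColouring (c i)) ∧
    ∀ i j, i ≠ j → Disjoint (Set.range (c i)) (Set.range (c j))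

/-- Every `k`-cover of `G` admits a packing. -/
def CorrPackable {V : Type} (G : SimpleGraph V) (k : ℕ) : Prop :=
  ∀ C : Cover G k, C.HasPacking

/-- The correspondence packing number of `G`: the least positive `k` such that every `k`-cover
of `G` admits a packing. -/
noncomputable def chiC {V : Type} (G : SimpleGraph V) : ℕ :=
  sInf {k : ℕ | 1 ≤ k ∧ CorrPackable G k}

/-- The list packing numbers of the finite graphs of maximum average degree less than `a`. -/
def valuesL (a : ℝ) : Set ℕ :=
  {m | ∃ (V : Type) (_ : Finite V) (G : SimpleGraph V), MadLT G a ∧ chiL G = m}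

/-- The correspondence packing numbers of the finite graphs of maximum average degree less
than `a`. -/
def valuesC (a : ℝ) : Set ℕ :=
  {m | ∃ (V : Type) (_ : Finite V) (G : SimpleGraph V), MadLT G a ∧ chiC G = m}

end Pool.Agent.H24.LP
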