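import Pool.Agent.H24.LP.Upper

/-!
# Long cycles with three triangle ears
-/

namespace Pool.Agent.H24.LP

open Finset

namespace Ear

variable {m : ℕ}

/-- vertices of the long cycle: three threads with `m + 2` vertices -/
abbrev CV (m : ℕ) : Type := Fin 3 × Fin (m + 2)

/-- all vertices: the cycle and three ears -/
abbrev EV (m : ℕ) : Type := CV m ⊕ Fin 3

/-- edges: the edges of the cycle, and two edges for every ear -/
abbrev EE (m : ℕ) : Type := CV m ⊕ (Fin 3 ⊕ Fin 3)

/-- the next vertex of the cycle -/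
def nxt (v : CV m) : CV m :=
  if h : v.2.val + 1 < m + 2 then (v.1, ⟨v.2.val + 1, h⟩) else (v.1 + 1, 0)

/-- the previous vertex of the cycle -/
def prv (v : CV m) : CV m :=
  if 0 < v.2.val then (v.1, ⟨v.2.val - 1, by omega⟩) else (v.1 - 1, Fin.last (m + 1))

lemma nxt_eq_iff (v w : CV m) : nxt v = w ↔ v = prv w := by
  obtain ⟨i, s⟩ := v
  obtain ⟨j, t⟩ := w
  unfold nxt prv
  constructor
  · intro h
    split_ifs at h with h1
    · rw [Prod.mk.injEq] at h
      obtain ⟨rfl, rfl⟩ := h
      simp
    · rw [Prod.mk.injEq] at h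
      obtain ⟨rfl, rfl⟩ := h
      simp only [Fin.val_zero, lt_irrefl, if_false, Prod.mk.injEq, add_sub_cancel_right, true_and]
      apply Fin.ext
      simp only [Fin.val_last]
      have := s.isLt
      simp only at h1
      omega
  · intro h
    split_ifs at h with h1
    · rw [Prod.mk.injEq] at h
      obtain ⟨rfl, rfl⟩ := h
      have h2 : t.val - 1 + 1 < m + 2 := by have := t.isLt; omega
      rw [dif_pos h2]
      simp only [Prod.mk.injEq, true_and]
      apply Fin.ext
      simp only
      simp only at h1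
      omega
    · rw [Prod.mk.injEq] at h
      obtain ⟨rfl, rfl⟩ := h
      simp only [Fin.val_last, lt_irrefl, dif_neg, not_false_eq_true, sub_add_cancel,
        Prod.mk.injEq, true_and]
      apply Fin.ext
      simp only [Fin.val_zero]
      simp only at h1
      omega

/-- source of an edge -/
def src : EE m → EV m
  | Sum.inl v => Sum.inl v
  | Sum.inr (Sum.inl j) => Sum.inr j
  | Sum.inr (Sum.inr j) => Sum.inr j

/-- target of an edge -/
def tgt : EE m → EV m
  | Sum.inl v => Sum.inl (nxt v)
  | Sum.inr (Sum.inl j) => Sum.inl (j, Fin.last (m + 1))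
  | Sum.inr (Sum.inr j) => Sum.inl (j + 1, 0)

/-- the graph: a long cycle with three triangle ears -/
def graph (m : ℕ) : SimpleGraph (EV m) :=
  SimpleGraph.fromRel fun u v => ∃ e : EE m, src e = u ∧ tgt e = v

/-- shares of the edges -/
noncomputable def sh : EE m → ℝ
  | Sum.inl v => if v.2 = Fin.last (m + 1) then 1 / 2 else 1 - (v.2.val : ℝ) / m
  | Sum.inr _ => 1 / 2

lemma sh_nonneg (hm : 1 ≤ m) (e : EE m) : 0 ≤ sh e := by
  have hm' : (0 : ℝ) < m := by exact_mod_cast hm
  rcases e with v | e
  · simp only [sh]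
    split_ifs with h
    · norm_num
    · have h1 : v.2.val ≤ m := by
        have h2 := v.2.isLt
        have h3 : v.2.val ≠ m + 1 := fun h' => h (Fin.ext h')
        omega
      have h2 : (v.2.val : ℝ) ≤ m := by exact_mod_cast h1
      have h3 : (v.2.val : ℝ) / m ≤ 1 := (div_le_one hm').2 h2
      linarith
  · simp only [sh]
    norm_num

lemma sh_le_one (e : EE m) : sh e ≤ 1 := by
  rcases e with v | e
  · simp only [sh]
    split_ifs with h
    · norm_num
    · have h3 : (0 : ℝ) ≤ (v.2.val : ℝ) / m := by positivity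
      linarith
  · simp only [sh]
    norm_num

lemma load_eq_cycle (c : CV m) :
    ∑ e, (if tgt e = Sum.inl c then sh e else 0) +
      ∑ e, (if src e = Sum.inl c then 1 - sh e else 0) =
    sh (Sum.inl (prv c)) + (if c.2 = Fin.last (m + 1) then 1 / 2 else 0) +
      (if c.2 = 0 then 1 / 2 else 0) + (1 - sh (Sum.inl c)) := by
  rw [Fintype.sum_sum_type, Fintype.sum_sum_type, Fintype.sum_sum_type, Fintype.sum_sum_type]
  simp only [src, tgt, Sum.inl.injEq, nxt_eq_iff, reduceCtorEq, if_false, Finset.sum_const_zero,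
    add_zero, Finset.sum_ite_eq', Finset.mem_univ, if_true]
  have h1 : ∑ x : Fin 3, (if (x, Fin.last (m + 1)) = c then sh (Sum.inr (Sum.inl x) : EE m) else 0)
      = if c.2 = Fin.last (m + 1) then 1 / 2 else 0 := by
    obtain ⟨i, t⟩ := c
    simp only [Prod.mk.injEq, sh]
    by_cases ht : t = Fin.last (m + 1)
    · subst ht
      simp
    · have ht' : ¬ Fin.last (m + 1) = t := fun h => ht h.symm
      simp [ht, ht']
  have h2 : ∑ x : Fin 3, (if (x + 1, (0 : Fin (m + 2))) = c then sh (Sum.inr (Sum.inr x) : EE m)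
      else 0) = if c.2 = 0 then 1 / 2 else 0 := by
    obtain ⟨i, t⟩ := c
    simp only [Prod.mk.injEq, sh]
    by_cases ht : t = 0
    · subst ht
      have : ∀ x : Fin 3, (x + 1 = i) ↔ x = i - 1 := by
        intro x
        constructor
        · rintro rfl
          simp
        · rintro rfl
          simp
      simp only [this, and_true, if_true]
      simp
    · have ht' : ¬ (0 : Fin (m + 2)) = t := fun h => ht h.symm
      simp [ht, ht']
  rw [h1, h2]
  ring

lemma load_eq_ear (j : Fin 3) :
    ∑ e : EE m, (if tgt e = Sum.inr j then sh e else 0) +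
      ∑ e : EE m, (if src e = Sum.inr j then 1 - sh e else 0) = 1 := by
  rw [Fintype.sum_sum_type, Fintype.sum_sum_type, Fintype.sum_sum_type, Fintype.sum_sum_type]
  simp only [src, tgt, reduceCtorEq, if_false, Finset.sum_const_zero, add_zero, zero_add,
    Sum.inr.injEq, Finset.sum_ite_eq', Finset.mem_univ, if_true, sh]
  norm_num

lemma load_cycle_le (hm : 1 ≤ m) (c : CV m) :
    sh (Sum.inl (prv c)) + (if c.2 = Fin.last (m + 1) then 1 / 2 else 0) +
      (if c.2 = 0 then 1 / 2 else 0) + (1 - sh (Sum.inl c)) ≤ 1 + 1 / (m : ℝ) := by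
  have hm' : (0 : ℝ) < m := by exact_mod_cast hm
  have hm'' : (0 : ℝ) < 1 / m := by positivity
  obtain ⟨i, t⟩ := c
  rcases Nat.eq_zero_or_pos t.val with h0 | h0
  · have ht : t = 0 := Fin.ext h0
    subst ht
    have h1 : ¬ (0 : Fin (m + 2)) = Fin.last (m + 1) := by
      intro h
      have := congrArg Fin.val h
      simp at this
    have hp : prv ((i, 0) : CV m) = (i - 1, Fin.last (m + 1)) := by simp [prv]
    rw [hp]
    simp only [sh, if_true, if_neg h1, Fin.val_zero, Nat.cast_zero, zero_div]
    linarith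
  · have hp : prv ((i, t) : CV m) = (i, ⟨t.val - 1, by omega⟩) := by
      simp [prv, h0]
    have ht0 : ¬ t = 0 := by
      rintro rfl
      simp at h0
    rw [hp]
    have hpl : ¬ (⟨t.val - 1, by omega⟩ : Fin (m + 2)) = Fin.last (m + 1) := by
      intro h
      have := congrArg Fin.val h
      simp only [Fin.val_last] at this
      have := t.isLt
      omega
    simp only [sh, if_neg hpl, if_neg ht0]
    have hcast : ((t.val - 1 : ℕ) : ℝ) = (t.val : ℝ) - 1 := by
      rw [Nat.cast_sub h0, Nat.cast_one]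
    rw [hcast]
    by_cases hl : t = Fin.last (m + 1)
    · rw [if_pos hl, if_pos hl]
      have h2 : (t.val : ℝ) = m + 1 := by
        rw [hl]
        simp
      rw [h2]
      have h3 : ((m : ℝ) + 1 - 1) / m = 1 := by
        rw [add_sub_cancel_right]
        exact div_self hm'.ne'
      rw [h3]
      linarith
    · rw [if_neg hl, if_neg hl]
      have h3 : ((t.val : ℝ) - 1) / m = (t.val : ℝ) / m - 1 / m := by ring
      rw [h3]
      linarith

/-- The maximum average degree is as close to two as we wish. -/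
theorem madLT {a : ℝ} (ha : 2 < a) : ∃ m, 1 ≤ m ∧ MadLT (graph m) a := by
  obtain ⟨n, hn⟩ := exists_nat_gt (1 / (a / 2 - 1))
  have ha2 : 0 < a / 2 - 1 := by linarith
  have hn0 : (0 : ℝ) < n := lt_trans (by positivity) hn
  have hn1 : 1 ≤ n := by
    have : 0 < n := by exact_mod_cast hn0
    omega
  have hlt : 1 / (n : ℝ) < a / 2 - 1 := by
    rw [div_lt_iff₀ hn0]
    rw [div_lt_iff₀ ha2] at hn
    linarith
  refine ⟨n, hn1, ?_⟩
  apply madLT_of_load (ι := EE n) src tgt ?_ sh (sh_nonneg hn1) sh_le_one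
  · rintro (c | j)
    · rw [load_eq_cycle]
      have := load_cycle_le hn1 c
      linarith
    · rw [load_eq_ear]
      linarith
  · intro u v huv
    unfold graph at huv
    rw [SimpleGraph.fromRel_adj] at huv
    rcases huv.2 with ⟨e, he⟩ | ⟨e, he⟩
    · exact ⟨e, Or.inl he⟩
    · exact ⟨e, Or.inr he⟩

/-! ### Non-packability -/

/-- colour triples -/
def base : Fin 3 → Fin 3 → ℕ := ![![1, 2, 3], ![1, 2, 4], ![1, 3, 4]]

/-- the six arrangements -/
def perm6 : Fin 6 → Fin 3 → Fin 3 :=
  ![![0, 1, 2], ![1, 2, 0], ![2, 0, 1], ![0, 2, 1], ![2, 1, 0], ![1, 0, 2]]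

/-- the sign of an arrangement -/
def sgn (p : Fin 6) : Bool := decide (p.val < 3)

lemma perm6_surj : ∀ a b c : Fin 3, a ≠ b → a ≠ c → b ≠ c →
    ∃ p, perm6 p 0 = a ∧ perm6 p 1 = b ∧ perm6 p 2 = c := by decide

lemma same_list : ∀ j : Fin 3, ∀ p q : Fin 6,
    (∀ i, base j (perm6 p i) ≠ base j (perm6 q i)) → sgn p = sgn q := by decide

lemma triangle : ∀ j : Fin 3, ∀ p q r : Fin 6,
    (∀ i, base j (perm6 p i) ≠ base j (perm6 q i)) →
    (∀ i, base j (perm6 q i) ≠ base (j + 1) (perm6 r i)) →
    (∀ i, base j (perm6 p i) ≠ base (j + 1) (perm6 r i)) →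
    sgn r = if j = 2 then !(sgn p) else sgn p := by decide

lemma ne_add_one : ∀ j : Fin 3, j ≠ j + 1 := by decide

/-- the lists -/
def lst (j : Fin 3) : Finset ℕ := {base j 0, base j 1, base j 2}

lemma lst_card : ∀ j : Fin 3, (lst j).card = 3 := by decide

lemma exists_arr (j : Fin 3) (f : Fin 3 → ℕ) (hf : ∀ i, f i ∈ lst j)
    (hinj : ∀ i i', i ≠ i' → f i ≠ f i') : ∃ p : Fin 6, ∀ i, f i = base j (perm6 p i) := by
  have h1 : ∀ i, ∃ a : Fin 3, f i = base j a := by
    intro i
    have := hf i
    unfold lst at this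
    rw [Finset.mem_insert, Finset.mem_insert, Finset.mem_singleton] at this
    rcases this with h | h | h
    · exact ⟨0, h⟩
    · exact ⟨1, h⟩
    · exact ⟨2, h⟩
  choose a ha using h1
  have hne : ∀ i i', i ≠ i' → a i ≠ a i' := by
    intro i i' h h'
    apply hinj i i' h
    rw [ha i, ha i', h']
  obtain ⟨p, h0, h1, h2⟩ := perm6_surj (a 0) (a 1) (a 2) (hne _ _ (by decide))
    (hne _ _ (by decide)) (hne _ _ (by decide))
  refine ⟨p, ?_⟩
  intro i
  fin_cases i
  · exact (ha 0).trans (congrArg (base j) h0.symm)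
  · exact (ha 1).trans (congrArg (base j) h1.symm)
  · exact (ha 2).trans (congrArg (base j) h2.symm)

/-- the list assignment -/
def L : EV m → Finset ℕ
  | Sum.inl c => lst c.1
  | Sum.inr j => lst j

theorem not_listPackable : ¬ ListPackable (graph m) 3 := by
  intro h
  obtain ⟨c, hc, hd⟩ := h L (by
    rintro (c | j)
    · exact lst_card _
    · exact lst_card _)
  have hcyc : ∀ v : CV m, ∃ p : Fin 6, ∀ i, c i (Sum.inl v) = base v.1 (perm6 p i) := by
    intro v
    exact exists_arr v.1 (fun i => c i (Sum.inl v)) (fun i => (hc i).1 (Sum.inl v))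
      (fun i i' h => hd _ i i' h)
  have hear : ∀ j : Fin 3, ∃ p : Fin 6, ∀ i, c i (Sum.inr j) = base j (perm6 p i) := by
    intro j
    exact exists_arr j (fun i => c i (Sum.inr j)) (fun i => (hc i).1 (Sum.inr j))
      (fun i i' h => hd _ i i' h)
  choose P hP using hcyc
  choose Q hQ using hear
  have hadj : ∀ e : EE m, src e ≠ tgt e → ∀ i, c i (src e) ≠ c i (tgt e) := by
    intro e hne i
    apply (hc i).2
    unfold graph
    rw [SimpleGraph.fromRel_adj]
    exact ⟨hne, Or.inl ⟨e, rfl, rfl⟩⟩
  -- constant sign on a thread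
  have hstep : ∀ (j : Fin 3) (t : ℕ) (h : t + 1 < m + 2),
      sgn (P (j, ⟨t + 1, h⟩)) = sgn (P (j, ⟨t, by omega⟩)) := by
    intro j t h
    have hn : nxt ((j, ⟨t, by omega⟩) : CV m) = (j, ⟨t + 1, h⟩) := by
      unfold nxt
      rw [dif_pos (by simpa using h)]
    have hne : (Sum.inl ((j, ⟨t, by omega⟩) : CV m) : EV m) ≠ Sum.inl (j, ⟨t + 1, h⟩) := by
      intro h'
      rw [Sum.inl.injEq, Prod.mk.injEq] at h'
      have := congrArg Fin.val h'.2
      simp at this
    have := hadj (Sum.inl (j, ⟨t, by omega⟩)) (by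
      simp only [src, tgt, hn]
      exact hne)
    simp only [src, tgt, hn] at this
    symm
    apply same_list j
    intro i
    have h1 := this i
    rw [hP, hP] at h1
    exact h1
  have hthread : ∀ (j : Fin 3) (t : ℕ) (h : t < m + 2),
      sgn (P (j, ⟨t, h⟩)) = sgn (P (j, 0)) := by
    intro j t
    induction t with
    | zero => intro h; rfl
    | succ t ih =>
      intro h
      rw [hstep j t h]
      exact ih (by omega)
  have htri : ∀ j : Fin 3, sgn (P (j + 1, 0)) =
      if j = 2 then !(sgn (P (j, Fin.last (m + 1)))) else sgn (P (j, Fin.last (m + 1))) := by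
    intro j
    have hn : nxt ((j, Fin.last (m + 1)) : CV m) = (j + 1, 0) := by
      unfold nxt
      rw [dif_neg]
      simp
    have hjj : j ≠ j + 1 := ne_add_one j
    have e1 := hadj (Sum.inl (j, Fin.last (m + 1))) (by
      simp only [src, tgt, hn]
      intro h'
      rw [Sum.inl.injEq, Prod.mk.injEq] at h'
      exact hjj h'.1)
    have e2 := hadj (Sum.inr (Sum.inl j)) (by simp [src, tgt])
    have e3 := hadj (Sum.inr (Sum.inr j)) (by simp [src, tgt])
    simp only [src, tgt, hn] at e1 e2 e3
    apply triangle j (P (j, Fin.last (m + 1))) (Q j) (P (j + 1, 0))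
    · intro i
      have := e2 i
      rw [hP, hQ] at this
      exact this.symm
    · intro i
      have := e3 i
      rw [hP, hQ] at this
      exact this
    · intro i
      have := e1 i
      rw [hP, hP] at this
      exact this
  have hlast : ∀ j : Fin 3, sgn (P (j, Fin.last (m + 1))) = sgn (P (j, 0)) := by
    intro j
    exact hthread j (m + 1) (by omega)
  have h0 := htri 0
  have h1 := htri 1
  have h2 := htri 2
  rw [hlast] at h0 h1 h2
  have e1 : (0 : Fin 3) + 1 = 1 := rfl
  have e2 : (1 : Fin 3) + 1 = 2 := rfl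
  have e3 : (2 : Fin 3) + 1 = 0 := rfl
  rw [e1, if_neg (by decide)] at h0
  rw [e2, if_neg (by decide)] at h1
  rw [e3, if_pos rfl] at h2
  rw [h1, h0] at h2
  cases hb : sgn (P (0, 0)) <;> rw [hb] at h2 <;> simp at h2

end Ear

end Pool.Agent.H24.LP
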