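import Pool.Agent.H24.LP.Disch

/-!
# Extending packings over reducible configurations
-/

namespace Pool.Agent.H24.LP

open Finset S4

/-- permutations of four points -/
abbrev P4 := Equiv.Perm (Fin 4)

variable {V : Type} {G : SimpleGraph V} {σ : V → V → P4}

/-- `π` is a packing of the part of the cover over `S` -/
def Valid (G : SimpleGraph V) (σ : V → V → P4) (S : Finset V) (π : V → P4) : Prop :=
  ∀ u ∈ S, ∀ w ∈ S, G.Adj u w → Disc (σ u w * π u) (π w)

lemma edge_symm (hσ : ∀ u v, G.Adj u v → σ v u = (σ u v)⁻¹) {u w : V} (h : G.Adj u w)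
    {a b : P4} (hd : Disc (σ u w * a) b) : Disc (σ w u * b) a := by
  rw [hσ u w h, ← disc_mul_left (σ u w)]
  simpa using hd.symm

/-- The component `C` can be filled in when the centre `v` gets `x`. -/
def CompOK (G : SimpleGraph V) (σ : V → V → P4) (W : Finset V) (π : V → P4) (v : V) (x : P4)
    (C : Finset V) : Prop :=
  ∃ ρ : V → P4, (∀ u ∈ C, ∀ w ∈ C, G.Adj u w → Disc (σ u w * ρ u) (ρ w)) ∧
    (∀ u ∈ W, ∀ w ∈ C, G.Adj u w → Disc (σ u w * π u) (ρ w)) ∧
    (∀ w ∈ C, G.Adj v w → Disc (σ v w * x) (ρ w))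

lemma glue (hσ : ∀ u v, G.Adj u v → σ v u = (σ u v)⁻¹) {W : Finset V} {π : V → P4} {v : V}
    {x : P4} (hπ : Valid G σ W π) (hx : ∀ u ∈ W, G.Adj u v → Disc (σ u v * π u) x)
    (Cs : Finset (Finset V)) (hC : ∀ C ∈ Cs, Disjoint C W ∧ v ∉ C ∧ CompOK G σ W π v x C)
    (hpair : ∀ C ∈ Cs, ∀ C' ∈ Cs, C ≠ C' → Disjoint C C' ∧ ∀ u ∈ C, ∀ w ∈ C', ¬ G.Adj u w)
    (S : Finset V) (hv : v ∉ W) (hS : ∀ u ∈ S, u = v ∨ u ∈ W ∨ ∃ C ∈ Cs, u ∈ C) :
    ∃ π' : V → P4, Valid G σ S π' := by
  classical
  have hC3 : ∀ C ∈ Cs, CompOK G σ W π v x C := fun C h => (hC C h).2.2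
  unfold CompOK at hC3
  choose! ρ hρ1 hρ2 hρ3 using hC3
  let π' : V → P4 := fun u => if u = v then x else if u ∈ W then π u else
    if h : ∃ C ∈ Cs, u ∈ C then ρ (Classical.choose h) u else 1
  have e1 : π' v = x := by simp [π']
  have e2 : ∀ u ∈ W, π' u = π u := by
    intro u hu
    have : u ≠ v := fun h => hv (h ▸ hu)
    simp [π', this, hu]
  have e3 : ∀ C ∈ Cs, ∀ u ∈ C, π' u = ρ C u := by
    intro C hCs u hu
    obtain ⟨h1, h2, -⟩ := hC C hCs
    have hne : u ≠ v := fun h => h2 (h ▸ hu)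
    have hnW : u ∉ W := Finset.disjoint_left.1 h1 hu
    have hex : ∃ C ∈ Cs, u ∈ C := ⟨C, hCs, hu⟩
    have hch := Classical.choose_spec hex
    have heq : Classical.choose hex = C := by
      by_contra hcon
      exact Finset.disjoint_left.1 (hpair _ hch.1 C hCs hcon).1 hch.2 hu
    simp only [π']
    rw [if_neg hne, if_neg hnW, dif_pos hex, heq]
  refine ⟨π', ?_⟩
  intro u hu w hw huw
  rcases hS u hu with rfl | hu1 | ⟨C, hCs, hu1⟩
  · rcases hS w hw with rfl | hw1 | ⟨C', hCs', hw1⟩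
    · exact absurd huw (G.loopless.irrefl _)
    · rw [e1, e2 w hw1]
      exact edge_symm hσ huw.symm (hx w hw1 huw.symm)
    · rw [e1, e3 C' hCs' w hw1]
      exact hρ3 C' hCs' w hw1 huw
  · rcases hS w hw with rfl | hw1 | ⟨C', hCs', hw1⟩
    · rw [e1, e2 u hu1]
      exact hx u hu1 huw
    · rw [e2 u hu1, e2 w hw1]
      exact hπ u hu1 w hw1 huw
    · rw [e2 u hu1, e3 C' hCs' w hw1]
      exact hρ2 C' hCs' u hu1 w hw1 huw
  · rcases hS w hw with rfl | hw1 | ⟨C', hCs', hw1⟩
    · rw [e1, e3 C hCs u hu1]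
      exact edge_symm hσ huw.symm (hρ3 C hCs u hu1 huw.symm)
    · rw [e3 C hCs u hu1, e2 w hw1]
      exact edge_symm hσ huw.symm (hρ2 C hCs w hw1 u hu1 huw.symm)
    · by_cases hCC : C = C'
      · subst hCC
        rw [e3 C hCs u hu1, e3 C hCs w hw1]
        exact hρ1 C hCs u hu1 w hw1 huw
      · exact absurd huw ((hpair C hCs C' hCs' hCC).2 u hu1 w hw1)

lemma single_ok {W : Finset V} {π : V → P4} {v w u1 u2 : V}
    (hW : ∀ u ∈ W, G.Adj u w → u = u1 ∨ u = u2) :
    ∃ a b : P4, ∀ x, x ∉ k1 a b → CompOK G σ W π v x {w} := by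
  refine ⟨(σ v w)⁻¹ * (σ u1 w * π u1), (σ v w)⁻¹ * (σ u2 w * π u2), ?_⟩
  intro x hx
  rw [mem_k1, not_not] at hx
  obtain ⟨y, h1, h2, h3⟩ := hx
  refine ⟨fun _ => σ v w * y, ?_, ?_, ?_⟩
  · intro u hu w' hw' hadj
    rw [Finset.mem_singleton] at hu hw'
    subst hu hw'
    exact absurd hadj (G.loopless.irrefl _)
  · intro u hu w' hw' hadj
    rw [Finset.mem_singleton] at hw'
    subst hw'
    rw [← disc_mul_left (σ v w')⁻¹]
    rcases hW u hu hadj with rfl | rfl
    · simpa using h1
    · simpa using h2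
  · intro w' hw' _
    rw [Finset.mem_singleton] at hw'
    subst hw'
    exact (disc_mul_left _).2 h3

lemma pair_out_ok [DecidableEq V] (hσ : ∀ u v, G.Adj u v → σ v u = (σ u v)⁻¹) {W : Finset V} {π : V → P4}
    {v w w' u1 u2 u3 : V} (hne : w ≠ w') (hvw' : ¬ G.Adj v w')
    (hW : ∀ u ∈ W, G.Adj u w → u = u1) (hW' : ∀ u ∈ W, G.Adj u w' → u = u2 ∨ u = u3) :
    ∃ a b c : P4, ∀ x, x ∉ k2 a b c → CompOK G σ W π v x {w, w'} := by
  set h := σ w w' * σ v w with hh
  refine ⟨(σ v w)⁻¹ * (σ u1 w * π u1), h⁻¹ * (σ u2 w' * π u2), h⁻¹ * (σ u3 w' * π u3), ?_⟩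
  intro x hx
  rw [mem_k2, not_not] at hx
  obtain ⟨y, z, h1, h2, h3, h4, h5⟩ := hx
  have hint : Disc (σ w w' * (σ v w * y)) (h * z) := by
    rw [← mul_assoc, ← hh, disc_mul_left]
    exact h3
  refine ⟨fun u => if u = w then σ v w * y else h * z, ?_, ?_, ?_⟩
  · intro u hu t ht hadj
    rw [Finset.mem_insert, Finset.mem_singleton] at hu ht
    rcases hu with rfl | rfl <;> rcases ht with rfl | rfl
    · exact absurd hadj (G.loopless.irrefl _)
    · simp only [if_true, if_neg hne.symm]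
      exact hint
    · simp only [if_true, if_neg hne.symm]
      exact edge_symm hσ hadj.symm hint
    · exact absurd hadj (G.loopless.irrefl _)
  · intro u hu t ht hadj
    rw [Finset.mem_insert, Finset.mem_singleton] at ht
    rcases ht with rfl | rfl
    · simp only [if_true]
      rw [← disc_mul_left (σ v t)⁻¹]
      rw [hW u hu hadj]
      simpa using h1
    · simp only [if_neg hne.symm]
      rw [← disc_mul_left h⁻¹]
      rcases hW' u hu hadj with rfl | rfl
      · simpa using h4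
      · simpa using h5
  · intro t ht hadj
    rw [Finset.mem_insert, Finset.mem_singleton] at ht
    rcases ht with rfl | rfl
    · simp only [if_true]
      exact (disc_mul_left _).2 h2
    · exact absurd hadj hvw'

lemma pair_mut_ok [DecidableEq V] (hσ : ∀ u v, G.Adj u v → σ v u = (σ u v)⁻¹) {W : Finset V} {π : V → P4}
    {v w w' u1 u2 : V} (hne : w ≠ w')
    (hW : ∀ u ∈ W, G.Adj u w → u = u1) (hW' : ∀ u ∈ W, G.Adj u w' → u = u2) :
    ∃ a b s : P4, ∀ x, x ∉ k3 a b s → CompOK G σ W π v x {w, w'} := by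
  set h := σ w w' * σ v w with hh
  refine ⟨(σ v w)⁻¹ * (σ u1 w * π u1), h⁻¹ * (σ u2 w' * π u2), h⁻¹ * σ v w', ?_⟩
  intro x hx
  rw [mem_k3, not_not] at hx
  obtain ⟨y, z, h1, h2, h3, h4, h5⟩ := hx
  have hint : Disc (σ w w' * (σ v w * y)) (h * z) := by
    rw [← mul_assoc, ← hh, disc_mul_left]
    exact h3
  refine ⟨fun u => if u = w then σ v w * y else h * z, ?_, ?_, ?_⟩
  · intro u hu t ht hadj
    rw [Finset.mem_insert, Finset.mem_singleton] at hu ht
    rcases hu with rfl | rfl <;> rcases ht with rfl | rfl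
    · exact absurd hadj (G.loopless.irrefl _)
    · simp only [if_true, if_neg hne.symm]
      exact hint
    · simp only [if_true, if_neg hne.symm]
      exact edge_symm hσ hadj.symm hint
    · exact absurd hadj (G.loopless.irrefl _)
  · intro u hu t ht hadj
    rw [Finset.mem_insert, Finset.mem_singleton] at ht
    rcases ht with rfl | rfl
    · simp only [if_true]
      rw [← disc_mul_left (σ v t)⁻¹]
      rw [hW u hu hadj]
      simpa using h1
    · simp only [if_neg hne.symm]
      rw [← disc_mul_left h⁻¹, hW' u hu hadj]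
      simpa using h4
  · intro t ht hadj
    rw [Finset.mem_insert, Finset.mem_singleton] at ht
    rcases ht with rfl | rfl
    · simp only [if_true]
      exact (disc_mul_left _).2 h2
    · simp only [if_neg hne.symm]
      rw [← disc_mul_left h⁻¹]
      simpa [mul_assoc] using h5

/-! ### Small helpers -/

lemma exists_pair {F : Finset V} (v : V) (h : F.card ≤ 2) :
    ∃ a b, ∀ x ∈ F, x = a ∨ x = b := by
  classical
  have h3 : F.card = 0 ∨ F.card = 1 ∨ F.card = 2 := by omega
  rcases h3 with h | h | h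
  · rw [Finset.card_eq_zero] at h
    exact ⟨v, v, by simp [h]⟩
  · obtain ⟨a, ha⟩ := Finset.card_eq_one.1 h
    exact ⟨a, a, by simp [ha]⟩
  · obtain ⟨a, b, -, hab⟩ := Finset.card_eq_two.1 h
    exact ⟨a, b, by simp [hab]⟩

lemma exists_single {F : Finset V} (v : V) (h : F.card ≤ 1) :
    ∃ a, ∀ x ∈ F, x = a := by
  classical
  have h3 : F.card = 0 ∨ F.card = 1 := by omega
  rcases h3 with h | h
  · rw [Finset.card_eq_zero] at h
    exact ⟨v, by simp [h]⟩
  · obtain ⟨a, ha⟩ := Finset.card_eq_one.1 h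
    exact ⟨a, by simp [ha]⟩

lemma exists_notMem_of_card {A : Finset P4} (h : A.card ≤ 23) : ∃ x, x ∉ A := by
  by_contra hcon
  push Not at hcon
  have : A = Finset.univ := Finset.eq_univ_iff_forall.2 hcon
  rw [this, card_perm4] at h
  omega

/-- extension over a vertex of degree at most two -/
lemma ext_small (hσ : ∀ u v, G.Adj u v → σ v u = (σ u v)⁻¹) [DecidableEq V] {S : Finset V}
    {v : V} (hd : (nb G S v).card ≤ 2) {π : V → P4} (hπ : Valid G σ (S.erase v) π) :
    ∃ π' : V → P4, Valid G σ S π' := by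
  obtain ⟨u1, u2, hu⟩ := exists_pair v hd
  obtain ⟨x, hx⟩ := exists_notMem_of_card
    (le_trans (card_k1_le (σ u1 v * π u1) (σ u2 v * π u2)) (by norm_num))
  rw [mem_k1, not_not] at hx
  obtain ⟨y, h1, h2, -⟩ := hx
  apply glue hσ (x := y) hπ ?_ ∅ (by simp) (by simp) S (Finset.notMem_erase v S) ?_
  · intro u huW hadj
    rcases hu u (mem_nb.2 ⟨Finset.mem_of_mem_erase huW, hadj.symm⟩) with rfl | rfl
    · exact h1
    · exact h2
  · intro u hu
    by_cases h : u = v
    · exact Or.inl h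
    · exact Or.inr (Or.inl (Finset.mem_erase.2 ⟨h, hu⟩))

lemma nbrs_in_W {S W R : Finset V} {w : V} (hW : W ⊆ S) (hWR : Disjoint W R) [DecidableEq V]
    {n : ℕ} (hn : ((nb G S w) \ R).card ≤ n) : (nb G W w).card ≤ n := by
  refine le_trans (Finset.card_le_card ?_) hn
  intro u hu
  rw [mem_nb] at hu
  rw [Finset.mem_sdiff, mem_nb]
  exact ⟨⟨hW hu.1, hu.2⟩, Finset.disjoint_left.1 hWR hu.1⟩

/-- extension over three vertices of degree three -/
lemma ext_path (hσ : ∀ u v, G.Adj u v → σ v u = (σ u v)⁻¹) {S : Finset V} {v : V} (hv : v ∈ S)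
    (hd : (nb G S v).card = 3) (h2 : 2 ≤ (nb G (T3 G S) v).card)
    (ih : ∀ W, W ⊂ S → ∃ π : V → P4, Valid G σ W π) :
    ∃ π' : V → P4, Valid G σ S π' := by
  classical
  obtain ⟨w1, hw1, w2, hw2, hne⟩ := Finset.one_lt_card.1 (by omega : 1 < (nb G (T3 G S) v).card)
  rw [mem_nb, mem_T3] at hw1 hw2
  obtain ⟨⟨hw1S, hw1d⟩, hvw1⟩ := hw1
  obtain ⟨⟨hw2S, hw2d⟩, hvw2⟩ := hw2
  set R : Finset V := {v, w1, w2} with hR
  set W : Finset V := S \ R with hW
  have hWS : W ⊆ S := Finset.sdiff_subset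
  have hWR : Disjoint W R := Finset.sdiff_disjoint
  have hvW : v ∉ W := by simp [hW, hR]
  have hw1W : w1 ∉ W := by simp [hW, hR]
  have hw2W : w2 ∉ W := by simp [hW, hR]
  obtain ⟨π, hπ⟩ := ih W (by
    rw [Finset.ssubset_iff_subset_ne]
    refine ⟨hWS, ?_⟩
    intro h
    rw [h] at hvW
    exact hvW hv)
  -- the third neighbour of `v`
  have hv1 : (nb G W v).card ≤ 1 := by
    apply nbrs_in_W hWS hWR
    have hsub : ({w1, w2} : Finset V) ⊆ nb G S v := by
      intro u hu
      rw [Finset.mem_insert, Finset.mem_singleton] at hu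
      rcases hu with rfl | rfl
      · exact mem_nb.2 ⟨hw1S, hvw1⟩
      · exact mem_nb.2 ⟨hw2S, hvw2⟩
    have h3 : (nb G S v \ R) ⊆ (nb G S v) \ {w1, w2} := by
      apply Finset.sdiff_subset_sdiff (le_refl _)
      intro u hu
      simp only [hR, Finset.mem_insert, Finset.mem_singleton] at hu ⊢
      tauto
    refine le_trans (Finset.card_le_card h3) ?_
    rw [Finset.card_sdiff_of_subset hsub, hd, Finset.card_pair hne]
  obtain ⟨u0, hu0⟩ := exists_single v hv1
  by_cases hadj : G.Adj w1 w2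
  · -- a triangle
    have hc1 : (nb G W w1).card ≤ 1 := by
      apply nbrs_in_W hWS hWR
      have hsub : ({v, w2} : Finset V) ⊆ nb G S w1 := by
        intro u hu
        rw [Finset.mem_insert, Finset.mem_singleton] at hu
        rcases hu with rfl | rfl
        · exact mem_nb.2 ⟨hv, hvw1.symm⟩
        · exact mem_nb.2 ⟨hw2S, hadj⟩
      have h3 : (nb G S w1 \ R) ⊆ (nb G S w1) \ {v, w2} := by
        apply Finset.sdiff_subset_sdiff (le_refl _)
        intro u hu
        simp only [hR, Finset.mem_insert, Finset.mem_singleton] at hu ⊢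
        tauto
      refine le_trans (Finset.card_le_card h3) ?_
      rw [Finset.card_sdiff_of_subset hsub, hw1d, Finset.card_pair hvw2.ne]
    have hc2 : (nb G W w2).card ≤ 1 := by
      apply nbrs_in_W hWS hWR
      have hsub : ({v, w1} : Finset V) ⊆ nb G S w2 := by
        intro u hu
        rw [Finset.mem_insert, Finset.mem_singleton] at hu
        rcases hu with rfl | rfl
        · exact mem_nb.2 ⟨hv, hvw2.symm⟩
        · exact mem_nb.2 ⟨hw1S, hadj.symm⟩
      have h3 : (nb G S w2 \ R) ⊆ (nb G S w2) \ {v, w1} := by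
        apply Finset.sdiff_subset_sdiff (le_refl _)
        intro u hu
        simp only [hR, Finset.mem_insert, Finset.mem_singleton] at hu ⊢
        tauto
      refine le_trans (Finset.card_le_card h3) ?_
      rw [Finset.card_sdiff_of_subset hsub, hw2d, Finset.card_pair hvw1.ne]
    obtain ⟨u1, hu1⟩ := exists_single v hc1
    obtain ⟨u2, hu2⟩ := exists_single v hc2
    obtain ⟨a, b, s, hok⟩ := pair_mut_ok (π := π) (v := v) (w := w1) (w' := w2) hσ
      (W := W) (u1 := u1) (u2 := u2) hne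
      (fun u hu h => hu1 u (mem_nb.2 ⟨hu, h.symm⟩)) (fun u hu h => hu2 u (mem_nb.2 ⟨hu, h.symm⟩))
    obtain ⟨x, hx⟩ := exists_notMem_of_card
      (le_trans (card_k0_k3 (σ u0 v * π u0) a b s) (by norm_num))
    rw [Finset.mem_union, not_or, mem_k0, not_not] at hx
    apply glue hσ (x := x) hπ ?_ {{w1, w2}} ?_ ?_ S hvW ?_
    · intro u hu h
      rw [hu0 u (mem_nb.2 ⟨hu, h.symm⟩)]
      exact hx.1
    · intro C hC
      rw [Finset.mem_singleton] at hC
      subst hC
      refine ⟨?_, ?_, hok x hx.2⟩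
      · rw [Finset.disjoint_left]
        intro u hu
        rw [Finset.mem_insert, Finset.mem_singleton] at hu
        rcases hu with rfl | rfl
        · exact hw1W
        · exact hw2W
      · simp [hvw1.ne, hvw2.ne]
    · intro C hC C' hC' hCC
      rw [Finset.mem_singleton] at hC hC'
      exact absurd (hC.trans hC'.symm) hCC
    · intro u hu
      by_cases h1 : u = v
      · exact Or.inl h1
      by_cases h2 : u ∈ ({w1, w2} : Finset V)
      · exact Or.inr (Or.inr ⟨_, Finset.mem_singleton_self _, h2⟩)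
      · right; left
        rw [hW, Finset.mem_sdiff, hR, Finset.mem_insert]
        exact ⟨hu, fun h => h.elim h1 h2⟩
  · -- a path
    have hc1 : (nb G W w1).card ≤ 2 := by
      apply nbrs_in_W hWS hWR
      have hsub : ({v} : Finset V) ⊆ nb G S w1 := by
        intro u hu
        rw [Finset.mem_singleton] at hu
        subst hu
        exact mem_nb.2 ⟨hv, hvw1.symm⟩
      have h3 : (nb G S w1 \ R) ⊆ (nb G S w1) \ {v} := by
        apply Finset.sdiff_subset_sdiff (le_refl _)
        intro u hu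
        simp only [hR, Finset.mem_insert, Finset.mem_singleton] at hu ⊢
        tauto
      refine le_trans (Finset.card_le_card h3) ?_
      rw [Finset.card_sdiff_of_subset hsub, hw1d, Finset.card_singleton]
    have hc2 : (nb G W w2).card ≤ 2 := by
      apply nbrs_in_W hWS hWR
      have hsub : ({v} : Finset V) ⊆ nb G S w2 := by
        intro u hu
        rw [Finset.mem_singleton] at hu
        subst hu
        exact mem_nb.2 ⟨hv, hvw2.symm⟩
      have h3 : (nb G S w2 \ R) ⊆ (nb G S w2) \ {v} := by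
        apply Finset.sdiff_subset_sdiff (le_refl _)
        intro u hu
        simp only [hR, Finset.mem_insert, Finset.mem_singleton] at hu ⊢
        tauto
      refine le_trans (Finset.card_le_card h3) ?_
      rw [Finset.card_sdiff_of_subset hsub, hw2d, Finset.card_singleton]
    obtain ⟨u1, u2, hu12⟩ := exists_pair v hc1
    obtain ⟨u3, u4, hu34⟩ := exists_pair v hc2
    obtain ⟨a, b, hok1⟩ := single_ok (σ := σ) (π := π) (v := v) (w := w1) (W := W) (u1 := u1)
      (u2 := u2) (fun u hu h => hu12 u (mem_nb.2 ⟨hu, h.symm⟩))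
    obtain ⟨c, d, hok2⟩ := single_ok (σ := σ) (π := π) (v := v) (w := w2) (W := W) (u1 := u3)
      (u2 := u4) (fun u hu h => hu34 u (mem_nb.2 ⟨hu, h.symm⟩))
    have hcard : (k0 (σ u0 v * π u0) ∪ (k1 a b \ k0 (σ u0 v * π u0)) ∪
        (k1 c d \ k0 (σ u0 v * π u0))).card ≤ 23 := by
      have e1 := Finset.card_union_le (k0 (σ u0 v * π u0) ∪ (k1 a b \ k0 (σ u0 v * π u0)))
        (k1 c d \ k0 (σ u0 v * π u0))
      have e2 := Finset.card_union_le (k0 (σ u0 v * π u0)) (k1 a b \ k0 (σ u0 v * π u0))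
      have e3 := card_k0_le (σ u0 v * π u0)
      have e4 := card_k1_sdiff (σ u0 v * π u0) a b
      have e5 := card_k1_sdiff (σ u0 v * π u0) c d
      omega
    obtain ⟨x, hx⟩ := exists_notMem_of_card hcard
    simp only [Finset.mem_union, Finset.mem_sdiff, not_or, not_and, not_not] at hx
    obtain ⟨⟨hx0, hx1⟩, hx2⟩ := hx
    have hx1' : x ∉ k1 a b := fun h => hx0 (hx1 h)
    have hx2' : x ∉ k1 c d := fun h => hx0 (hx2 h)
    rw [mem_k0, not_not] at hx0
    apply glue hσ (x := x) hπ ?_ {{w1}, {w2}} ?_ ?_ S hvW ?_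
    · intro u hu h
      rw [hu0 u (mem_nb.2 ⟨hu, h.symm⟩)]
      exact hx0
    · intro C hC
      rw [Finset.mem_insert, Finset.mem_singleton] at hC
      rcases hC with rfl | rfl
      · exact ⟨Finset.disjoint_singleton_left.2 hw1W, by simp [hvw1.ne], hok1 x hx1'⟩
      · exact ⟨Finset.disjoint_singleton_left.2 hw2W, by simp [hvw2.ne], hok2 x hx2'⟩
    · intro C hC C' hC' hCC
      rw [Finset.mem_insert, Finset.mem_singleton] at hC hC'
      rcases hC with rfl | rfl <;> rcases hC' with rfl | rfl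
      · exact absurd rfl hCC
      · refine ⟨by simpa using hne, ?_⟩
        intro u hu w hw
        rw [Finset.mem_singleton] at hu hw
        subst hu hw
        exact hadj
      · refine ⟨by simpa using hne.symm, ?_⟩
        intro u hu w hw
        rw [Finset.mem_singleton] at hu hw
        subst hu hw
        exact fun h => hadj h.symm
      · exact absurd rfl hCC
    · intro u hu
      by_cases h1 : u = v
      · exact Or.inl h1
      by_cases h2 : u = w1
      · exact Or.inr (Or.inr ⟨{w1}, by simp, by simp [h2]⟩)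
      by_cases h3 : u = w2
      · exact Or.inr (Or.inr ⟨{w2}, by simp, by simp [h3]⟩)
      · right; left
        rw [hW, Finset.mem_sdiff, hR]
        simp [hu, h1, h2, h3]

end Pool.Agent.H24.LP
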