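import Pool.Agent.H24.LP.Core

/-!
# Finding the sparse piece and its two sides
-/

namespace Pool.Agent.H24.LP

open Finset

set_option linter.unusedSectionVars false

variable {V : Type} [DecidableEq V] (G : SimpleGraph V)

/-- twice the number of edges inside `B` -/
noncomputable def E2 (B : Finset V) : ℕ := ∑ w ∈ B, (nb G B w).card

lemma nb_insert_card (B : Finset V) {u w : V} (hu : u ∉ B) :
    (nb G (insert u B) w).card = (nb G B w).card + (nb G {u} w).card := by
  have h : nb G (insert u B) w = nb G B w ∪ nb G {u} w := by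
    ext x
    simp only [mem_nb, Finset.mem_union, Finset.mem_insert, Finset.mem_singleton]
    tauto
  rw [h, Finset.card_union_of_disjoint]
  rw [Finset.disjoint_left]
  intro x hx hx'
  rw [mem_nb] at hx hx'
  rw [Finset.mem_singleton] at hx'
  exact hu (hx'.1 ▸ hx.1)

lemma sum_nb_singleton (B : Finset V) (u : V) :
    ∑ w ∈ B, (nb G {u} w).card = (nb G B u).card := by
  classical
  have h : ∀ w, (nb G {u} w).card = if G.Adj u w then 1 else 0 := by
    intro w
    by_cases hw : G.Adj u w
    · rw [if_pos hw, Finset.card_eq_one]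
      refine ⟨u, ?_⟩
      ext x
      rw [mem_nb, Finset.mem_singleton]
      constructor
      · intro h
        exact h.1
      · rintro rfl
        exact ⟨rfl, hw.symm⟩
    · rw [if_neg hw, Finset.card_eq_zero, Finset.eq_empty_iff_forall_notMem]
      intro x hx
      rw [mem_nb, Finset.mem_singleton] at hx
      obtain ⟨rfl, hx⟩ := hx
      exact hw hx.symm
  rw [Finset.sum_congr rfl (fun w _ => h w), ← Finset.card_filter]
  congr 1

lemma E2_insert (B : Finset V) {u : V} (hu : u ∉ B) :
    E2 G (insert u B) = E2 G B + 2 * (nb G B u).card := by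
  unfold E2
  rw [Finset.sum_insert hu, Finset.sum_congr rfl (fun w _ => nb_insert_card G B hu),
    Finset.sum_add_distrib, sum_nb_singleton, nb_insert_card G B hu]
  have h0 : (nb G {u} u).card = 0 := by
    rw [Finset.card_eq_zero, Finset.eq_empty_iff_forall_notMem]
    intro x hx
    rw [mem_nb, Finset.mem_singleton] at hx
    obtain ⟨rfl, hx⟩ := hx
    exact G.loopless.irrefl _ hx
  rw [h0]
  ring

lemma nb_split {I R : Finset V} (h : Disjoint I R) (v : V) :
    (nb G (I ∪ R) v).card = (nb G I v).card + (nb G R v).card := by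
  rw [← Finset.card_union_of_disjoint]
  · congr 1
    ext x
    simp only [mem_nb, Finset.mem_union]
    tauto
  · rw [Finset.disjoint_left]
    intro x hx hx'
    rw [mem_nb] at hx hx'
    exact (Finset.disjoint_left.1 h) hx.1 hx'.1

/-- a maximum cut -/
lemma exists_cut (R : Finset V) : ∃ A ⊆ R,
    (∀ u ∈ A, (nb G A u).card ≤ (nb G (R \ A) u).card) ∧
    (∀ v ∈ R \ A, (nb G (R \ A) v).card ≤ (nb G A v).card) := by
  obtain ⟨A, hA, hmin⟩ := Finset.exists_min_image R.powerset (fun A => E2 G A + E2 G (R \ A))
    ⟨∅, Finset.empty_mem_powerset R⟩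
  rw [Finset.mem_powerset] at hA
  refine ⟨A, hA, ?_, ?_⟩
  · intro u hu
    have h1 := hmin (A.erase u) (Finset.mem_powerset.2 ((Finset.erase_subset u A).trans hA))
    have h2 : R \ (A.erase u) = insert u (R \ A) := by
      ext x
      simp only [Finset.mem_sdiff, Finset.mem_erase, Finset.mem_insert]
      constructor
      · rintro ⟨hx, hx'⟩
        by_cases hxu : x = u
        · exact Or.inl hxu
        · right
          exact ⟨hx, fun h => hx' ⟨hxu, h⟩⟩
      · rintro (rfl | ⟨hx, hx'⟩)
        · exact ⟨hA hu, fun h => h.1 rfl⟩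
        · exact ⟨hx, fun h => hx' h.2⟩
    have h3 : u ∉ R \ A := by
      rw [Finset.mem_sdiff]
      tauto
    have h4 := E2_insert G (A.erase u) (Finset.notMem_erase u A)
    rw [Finset.insert_erase hu] at h4
    have h5 := E2_insert G (R \ A) h3
    have h6 : nb G (A.erase u) u = nb G A u := by
      ext x
      rw [mem_nb, mem_nb, Finset.mem_erase]
      constructor
      · rintro ⟨⟨-, h⟩, h'⟩
        exact ⟨h, h'⟩
      · rintro ⟨h, h'⟩
        exact ⟨⟨h'.symm.ne, h⟩, h'⟩
    rw [h6] at h4
    rw [h2, h5] at h1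
    omega
  · intro v hv
    have hvR : v ∈ R := (Finset.mem_sdiff.1 hv).1
    have hvA : v ∉ A := (Finset.mem_sdiff.1 hv).2
    have h1 := hmin (insert v A) (Finset.mem_powerset.2 (Finset.insert_subset hvR hA))
    have h2 : R \ (insert v A) = (R \ A).erase v := by
      ext x
      simp only [Finset.mem_sdiff, Finset.mem_erase, Finset.mem_insert]
      tauto
    have h4 := E2_insert G A hvA
    have h5 := E2_insert G ((R \ A).erase v) (Finset.notMem_erase v _)
    rw [Finset.insert_erase hv] at h5
    have h6 : nb G ((R \ A).erase v) v = nb G (R \ A) v := by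
      ext x
      rw [mem_nb, mem_nb, Finset.mem_erase]
      constructor
      · rintro ⟨⟨-, h⟩, h'⟩
        exact ⟨h, h'⟩
      · rintro ⟨h, h'⟩
        exact ⟨⟨h'.symm.ne, h⟩, h'⟩
    rw [h6] at h5
    rw [h2, h4] at h1
    omega

/-- the sparse piece -/
lemma exists_piece {K : ℕ} {S : Finset V} (hK : 0 < K) (hS : S.Nonempty)
    (hsp : 20000000 * E2 G S < 10000002 * (K * S.card))
    (hmin : ∀ v ∈ S, K < 2 * (nb G S v).card) :
    ∃ I R : Finset V, Disjoint I R ∧ I ∪ R = S ∧ R.Nonempty ∧
      (∀ v ∈ R, 10 * (nb G I v).card ≤ 3 * K) ∧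
      (∀ v ∈ R, 2000000 * (nb G S v).card ≤ 1000002 * K) := by
  classical
  set H := S.filter fun v => 1000002 * K < 2000000 * (nb G S v).card with hH
  -- few vertices of large degree
  have hHS : H ⊆ S := Finset.filter_subset _ _
  have hHcard : 10 * H.card < S.card := by
    have h1 : ∑ v ∈ S, (1000000 * K + (if v ∈ H then 2 * K else 0)) ≤
        ∑ v ∈ S, 2000000 * (nb G S v).card := by
      apply Finset.sum_le_sum
      intro v hv
      have h2 := hmin v hv
      split_ifs with h3
      · rw [hH, Finset.mem_filter] at h3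
        omega
      · omega
    have h4 : ∑ v ∈ S, (if v ∈ H then 2 * K else 0) = H.card * (2 * K) := by
      rw [← Finset.sum_filter, Finset.filter_mem_eq_inter, Finset.inter_eq_right.2 hHS,
        Finset.sum_const, smul_eq_mul]
    rw [Finset.sum_add_distrib, Finset.sum_const, smul_eq_mul, h4, ← Finset.mul_sum] at h1
    have h5 : S.card * (1000000 * K) + H.card * (2 * K) ≤ 2000000 * E2 G S := h1
    by_contra hcon
    push Not at hcon
    have h6 : K * S.card ≤ 10 * (K * H.card) := by
      calc K * S.card ≤ K * (10 * H.card) := Nat.mul_le_mul_left _ hcon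
        _ = 10 * (K * H.card) := by ring
    have h7 : S.card * (1000000 * K) = 1000000 * (K * S.card) := by ring
    have h8 : H.card * (2 * K) = 2 * (K * H.card) := by ring
    rw [h7, h8] at h5
    omega
  -- the closed set
  obtain ⟨I, hI, hmax⟩ := Finset.exists_max_image (S.powerset.filter fun I => H ⊆ I)
    (fun I => (5 * (E2 G I : ℤ) - 3 * (K * I.card)))
    ⟨H, Finset.mem_filter.2 ⟨Finset.mem_powerset.2 hHS, Finset.Subset.refl H⟩⟩
  rw [Finset.mem_filter, Finset.mem_powerset] at hI
  obtain ⟨hIS, hHI⟩ := hI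
  refine ⟨I, S \ I, Finset.disjoint_sdiff, Finset.union_sdiff_of_subset hIS, ?_, ?_, ?_⟩
  · rw [Finset.sdiff_nonempty]
    intro hSI
    have hIS' : I = S := Finset.Subset.antisymm hIS hSI
    have h1 := hmax H (Finset.mem_filter.2 ⟨Finset.mem_powerset.2 hHS, Finset.Subset.refl H⟩)
    rw [hIS'] at h1
    have h2 : (0 : ℤ) ≤ E2 G H := Int.natCast_nonneg _
    have h3 : (10 * (K * H.card) : ℤ) ≤ K * S.card := by
      have : 10 * (K * H.card) ≤ K * S.card := by
        calc 10 * (K * H.card) = K * (10 * H.card) := by ring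
          _ ≤ K * S.card := Nat.mul_le_mul_left _ hHcard.le
      exact_mod_cast this
    have h4 : (20000000 * E2 G S : ℤ) < 10000002 * (K * S.card) := by exact_mod_cast hsp
    have h5 : (0 : ℤ) < K * S.card := by
      have : 0 < K * S.card := Nat.mul_pos hK hS.card_pos
      exact_mod_cast this
    generalize (K * S.card : ℤ) = x at *
    generalize (K * H.card : ℤ) = y at *
    omega
  · intro v hv
    rw [Finset.mem_sdiff] at hv
    have h1 := hmax (insert v I) (Finset.mem_filter.2 ⟨Finset.mem_powerset.2
      (Finset.insert_subset hv.1 hIS), hHI.trans (Finset.subset_insert v I)⟩)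
    rw [E2_insert G I hv.2, Finset.card_insert_of_notMem hv.2] at h1
    push_cast at h1
    have h2 : (10 * (nb G I v).card : ℤ) ≤ 3 * K := by linarith
    exact_mod_cast h2
  · intro v hv
    rw [Finset.mem_sdiff] at hv
    have h1 : v ∉ H := fun h => hv.2 (hHI h)
    rw [hH, Finset.mem_filter] at h1
    by_contra hcon
    push Not at hcon
    exact h1 ⟨hv.1, hcon⟩

end Pool.Agent.H24.LP
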