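import Pool.Agent.H24.LP.Ext

/-!
# Extending packings over a vertex of degree four with many neighbours of degree three
-/

namespace Pool.Agent.H24.LP

open Finset S4

variable {V : Type} {G : SimpleGraph V} {σ : V → V → P4}

open Classical in
/-- the component of `w` among the vertices of degree three -/
noncomputable def cmp (G : SimpleGraph V) (S : Finset V) (w : V) : Finset V :=
  insert w (nb G (T3 G S) w)

/-- structure of the components -/
lemma nb_partner {S : Finset V}
    (h1 : ∀ v ∈ S, (nb G S v).card = 3 → (nb G (T3 G S) v).card ≤ 1) {w w' : V}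
    (hw : w ∈ T3 G S) (hw' : w' ∈ nb G (T3 G S) w) : nb G (T3 G S) w = {w'} := by
  classical
  have hle := h1 w (mem_T3.1 hw).1 (mem_T3.1 hw).2
  have hpos := Finset.card_pos.2 ⟨w', hw'⟩
  obtain ⟨a, ha⟩ := Finset.card_eq_one.1 (by omega : (nb G (T3 G S) w).card = 1)
  rw [ha] at hw' ⊢
  rw [Finset.mem_singleton] at hw'
  rw [hw']

lemma partner_symm {S : Finset V} {w w' : V} (hw : w ∈ T3 G S)
    (hw' : w' ∈ nb G (T3 G S) w) : w ∈ nb G (T3 G S) w' := by
  rw [mem_nb] at hw' ⊢
  exact ⟨hw, hw'.2.symm⟩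

lemma cmp_eq_of_mem {S : Finset V}
    (h1 : ∀ v ∈ S, (nb G S v).card = 3 → (nb G (T3 G S) v).card ≤ 1) {w u : V}
    (hw : w ∈ T3 G S) (hu : u ∈ cmp G S w) : cmp G S u = cmp G S w ∧ u ∈ T3 G S := by
  classical
  unfold cmp at hu ⊢
  rw [Finset.mem_insert] at hu
  rcases hu with rfl | hu
  · exact ⟨rfl, hw⟩
  · have huT : u ∈ T3 G S := (mem_nb.1 hu).1
    refine ⟨?_, huT⟩
    rw [nb_partner h1 hw hu, nb_partner h1 huT (partner_symm hw hu)]
    exact Finset.pair_comm u w

lemma card_three_bound (f : V → Finset P4) (A : Finset V) (hA : A.card = 3)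
    (hf : ∀ w ∈ A, ∃ a b, f w = k1 a b) : (A.biUnion f).card ≤ 21 := by
  classical
  obtain ⟨x, y, z, -, -, -, rfl⟩ := Finset.card_eq_three.1 hA
  obtain ⟨a, b, h1⟩ := hf x (by simp)
  obtain ⟨c, d, h2⟩ := hf y (by simp)
  obtain ⟨e, g, h3⟩ := hf z (by simp)
  have : ({x, y, z} : Finset V).biUnion f = k1 a b ∪ k1 c d ∪ k1 e g := by
    rw [Finset.biUnion_insert, Finset.biUnion_insert, Finset.singleton_biUnion, h1, h2, h3,
      Finset.union_assoc]
  rw [this]
  exact card_k1_k1_k1 a b c d e g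

lemma card_two_one_bound {ι : Type} (f : V → Finset P4) (g : ι → Finset P4) (A : Finset V)
    (B : Finset ι) (hA : A.card = 2) (hB : B.card = 1)
    (hf : ∀ w ∈ A, ∃ a b, f w = k1 a b) (hg : ∀ w ∈ B, ∃ a b s, g w = k3 a b s) :
    (A.biUnion f ∪ B.biUnion g).card ≤ 23 := by
  classical
  obtain ⟨x, y, -, rfl⟩ := Finset.card_eq_two.1 hA
  obtain ⟨z, rfl⟩ := Finset.card_eq_one.1 hB
  obtain ⟨a, b, h1⟩ := hf x (by simp)
  obtain ⟨c, d, h2⟩ := hf y (by simp)
  obtain ⟨e, h, s, h3⟩ := hg z (by simp)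
  have : ({x, y} : Finset V).biUnion f ∪ ({z} : Finset ι).biUnion g =
      k1 a b ∪ k1 c d ∪ k3 e h s := by
    rw [Finset.biUnion_insert, Finset.singleton_biUnion, Finset.singleton_biUnion, h1, h2, h3]
  rw [this]
  exact card_k1_k1_k3 a b c d e h s

lemma card_one_one_bound {ι : Type} (f : V → Finset P4) (g : ι → Finset P4) (A : Finset V)
    (B : Finset ι) (hA : A.card = 1) (hB : B.card = 1)
    (hf : ∀ w ∈ A, ∃ a, f w = k0 a) (hg : ∀ w ∈ B, ∃ a b s, g w = k3 a b s) :
    (A.biUnion f ∪ B.biUnion g).card ≤ 21 := by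
  classical
  obtain ⟨x, rfl⟩ := Finset.card_eq_one.1 hA
  obtain ⟨z, rfl⟩ := Finset.card_eq_one.1 hB
  obtain ⟨a, h1⟩ := hf x (by simp)
  obtain ⟨e, h, s, h3⟩ := hg z (by simp)
  have : ({x} : Finset V).biUnion f ∪ ({z} : Finset ι).biUnion g = k0 a ∪ k3 e h s := by
    rw [Finset.singleton_biUnion, Finset.singleton_biUnion, h1, h3]
  rw [this]
  exact card_k0_k3 a e h s

lemma card_union4 (A B C D : Finset P4) :
    (A ∪ B ∪ C ∪ D).card ≤ A.card + B.card + C.card + D.card := by
  have e1 := Finset.card_union_le (A ∪ B ∪ C) D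
  have e2 := Finset.card_union_le (A ∪ B) C
  have e3 := Finset.card_union_le A B
  omega

lemma card_union3 (A B C : Finset P4) :
    (A ∪ B ∪ C).card ≤ A.card + B.card + C.card := by
  have e2 := Finset.card_union_le (A ∪ B) C
  have e3 := Finset.card_union_le A B
  omega

lemma card_union4_a (A B C D : Finset P4) :
    (A ∪ B ∪ C ∪ D).card ≤ (B ∪ D).card + A.card + C.card := by
  have heq : A ∪ B ∪ C ∪ D = (B ∪ D) ∪ A ∪ C := by
    ext x
    simp only [Finset.mem_union]
    tauto
  rw [heq]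
  exact card_union3 _ _ _

lemma card_union4_b (A B C D : Finset P4) :
    (A ∪ B ∪ C ∪ D).card ≤ (A ∪ D).card + B.card + C.card := by
  have heq : A ∪ B ∪ C ∪ D = (A ∪ D) ∪ B ∪ C := by
    ext x
    simp only [Finset.mem_union]
    tauto
  rw [heq]
  exact card_union3 _ _ _

/-- the final count -/
lemma arith_count {x x0 x1 x2 x3 x13 x03 e s q r c : ℕ} (h9 : 9 ≤ 2 * s + 3 * (q + r))
    (h4 : e + (s + (q + r)) ≤ 4) (hc : 2 * c ≤ r) (hz : c = 0 → r = 0) (c0 : x0 ≤ e * 15)
    (c1 : x1 ≤ s * 8) (c2 : x2 ≤ q * 2) (c3 : x3 ≤ c * 8) (d1 : s = 3 → x1 ≤ 21)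
    (d13 : s = 2 → c = 1 → x13 ≤ 23) (d03 : e = 1 → c = 1 → x03 ≤ 21)
    (u1 : x ≤ x0 + x1 + x2 + x3) (u2 : x ≤ x13 + x0 + x2) (u3 : x ≤ x03 + x1 + x2) :
    x ≤ 23 := by
  have hcc : c = 0 ∨ c = 1 ∨ 2 ≤ c := by omega
  rcases hcc with hcc | hcc | hcc
  · have := hz hcc
    clear d13 d03 u2 u3 hz
    by_cases h3 : s = 3
    · have := d1 h3
      omega
    · clear d1
      omega
  · clear hz d1
    by_cases h2 : s = 2
    · have := d13 h2 hcc
      clear d13 d03
      omega
    · clear d13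
      by_cases h3 : e = 1
      · have := d03 h3 hcc
        clear d03
        omega
      · clear d03
        omega
  · clear hz d1 d13 d03 u2 u3
    omega

/-- extension over a vertex of degree four -/
lemma ext_four (hσ : ∀ u v, G.Adj u v → σ v u = (σ u v)⁻¹) {S : Finset V} {v : V} (hv : v ∈ S)
    (h1 : ∀ v ∈ S, (nb G S v).card = 3 → (nb G (T3 G S) v).card ≤ 1)
    (hd : (nb G S v).card = 4) (h9 : 9 ≤ 2 * (sgl G S v).card + 3 * (prd G S v).card)
    (ih : ∀ W, W ⊂ S → ∃ π : V → P4, Valid G σ W π) :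
    ∃ π' : V → P4, Valid G σ S π' := by
  classical
  have hvT : v ∉ T3 G S := by
    rw [mem_T3]
    rintro ⟨-, h⟩
    omega
  -- the components
  set N : Finset V := nb G (T3 G S) v with hN
  have hNT : ∀ w ∈ N, w ∈ T3 G S := fun w hw => (mem_nb.1 hw).1
  have hNv : ∀ w ∈ N, G.Adj v w := fun w hw => (mem_nb.1 hw).2
  set Cs : Finset (Finset V) := N.image (cmp G S) with hCs
  have hCT : ∀ C ∈ Cs, ∀ u ∈ C, cmp G S u = C ∧ u ∈ T3 G S := by
    intro C hC u hu
    rw [hCs, Finset.mem_image] at hC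
    obtain ⟨w, hw, rfl⟩ := hC
    exact cmp_eq_of_mem h1 (hNT w hw) hu
  set R : Finset V := Cs.biUnion id with hR
  have hRT : ∀ u ∈ R, u ∈ T3 G S := by
    intro u hu
    rw [hR, Finset.mem_biUnion] at hu
    obtain ⟨C, hC, huC⟩ := hu
    exact (hCT C hC u huC).2
  set W : Finset V := S \ (insert v R) with hW
  have hWS : W ⊆ S := Finset.sdiff_subset
  have hvW : v ∉ W := by simp [hW]
  have hWof : ∀ u ∈ S, u ∉ T3 G S → u ≠ v → u ∈ W := by
    intro u hu huT huv
    rw [hW, Finset.mem_sdiff, Finset.mem_insert, not_or]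
    exact ⟨hu, huv, fun h => huT (hRT u h)⟩
  have hCW : ∀ C ∈ Cs, Disjoint C W := by
    intro C hC
    rw [Finset.disjoint_left]
    intro u hu huW
    rw [hW, Finset.mem_sdiff, Finset.mem_insert, not_or] at huW
    apply huW.2.2
    rw [hR, Finset.mem_biUnion]
    exact ⟨C, hC, hu⟩
  obtain ⟨π, hπ⟩ := ih W (by
    rw [Finset.ssubset_iff_subset_ne]
    refine ⟨hWS, ?_⟩
    intro h
    rw [h] at hvW
    exact hvW hv)
  have hcmpC : ∀ w ∈ N, cmp G S w ∈ Cs := fun w hw => Finset.mem_image_of_mem _ hw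
  -- members of components are outside W
  have hNW : ∀ w ∈ N, w ∉ W := by
    intro w hw
    have := hCW _ (hcmpC w hw)
    rw [Finset.disjoint_left] at this
    exact this (by unfold cmp; simp)
  -- neighbours in W of a vertex of a component
  have hWnb : ∀ w ∈ T3 G S, cmp G S w ∈ Cs →
      (nb G W w).card + (nb G (T3 G S) w).card + (if G.Adj v w then 1 else 0) ≤ 3 := by
    intro w hw hwC
    have hd3 := (mem_T3.1 hw).2
    have hnbC : ∀ u ∈ nb G (T3 G S) w, u ∉ W := by
      intro u hu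
      have := hCW _ hwC
      rw [Finset.disjoint_left] at this
      exact this (by unfold cmp; exact Finset.mem_insert_of_mem hu)
    have hdisj : Disjoint (nb G W w) (nb G (T3 G S) w) := by
      rw [Finset.disjoint_left]
      intro u hu hu'
      exact hnbC u hu' (mem_nb.1 hu).1
    by_cases hadj : G.Adj v w
    · rw [if_pos hadj, ← Finset.card_union_of_disjoint hdisj]
      have hvn : v ∉ nb G W w ∪ nb G (T3 G S) w := by
        rw [Finset.mem_union, not_or]
        exact ⟨fun h => hvW (mem_nb.1 h).1, fun h => hvT (mem_nb.1 h).1⟩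
      rw [← Finset.card_insert_of_notMem hvn, ← hd3]
      apply Finset.card_le_card
      intro u hu
      rw [Finset.mem_insert, Finset.mem_union] at hu
      rcases hu with rfl | hu | hu
      · exact mem_nb.2 ⟨hv, hadj.symm⟩
      · exact nb_mono hWS w hu
      · exact nb_mono (T3_subset S) w hu
    · rw [if_neg hadj, ← Finset.card_union_of_disjoint hdisj, add_zero, ← hd3]
      apply Finset.card_le_card
      intro u hu
      rw [Finset.mem_union] at hu
      rcases hu with hu | hu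
      · exact nb_mono hWS w hu
      · exact nb_mono (T3_subset S) w hu
  -- kinds of neighbours
  set A1 : Finset V := sgl G S v with hA1
  set A2 : Finset V := (prd G S v).filter (fun w => ∀ u ∈ nb G (T3 G S) w, ¬ G.Adj v u) with hA2
  set A3 : Finset V := (prd G S v).filter (fun w => ¬ ∀ u ∈ nb G (T3 G S) w, ¬ G.Adj v u)
    with hA3
  have hcard23 : A2.card + A3.card = (prd G S v).card := by
    rw [hA2, hA3, Finset.card_filter_add_card_filter_not]
  have hcardN : A1.card + (prd G S v).card = N.card := by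
    rw [hA1]
    unfold sgl prd
    rw [Finset.card_filter_add_card_filter_not]
  -- single neighbours
  have hk1 : ∀ w ∈ A1, ∃ a b : P4, ∀ x, x ∉ k1 a b → CompOK G σ W π v x (cmp G S w) := by
    intro w hw
    rw [hA1] at hw
    unfold sgl at hw
    rw [Finset.mem_filter] at hw
    obtain ⟨hwN, hwe⟩ := hw
    have hc : cmp G S w = {w} := by
      unfold cmp
      rw [hwe]
      rfl
    have h3 := hWnb w (hNT w hwN) (hcmpC w hwN)
    rw [if_pos (hNv w hwN), hwe, Finset.card_empty] at h3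
    obtain ⟨u1, u2, hu⟩ := exists_pair v (by omega : (nb G W w).card ≤ 2)
    rw [hc]
    exact single_ok (fun u hu' h => hu u (mem_nb.2 ⟨hu', h.symm⟩))
  -- neighbours paired outside
  have hk2 : ∀ w ∈ A2, ∃ a b c : P4, ∀ x, x ∉ k2 a b c → CompOK G σ W π v x (cmp G S w) := by
    intro w hw
    rw [hA2, Finset.mem_filter] at hw
    obtain ⟨hwp, hwo⟩ := hw
    unfold prd at hwp
    rw [Finset.mem_filter] at hwp
    obtain ⟨hwN, hwe⟩ := hwp
    obtain ⟨w', hw'⟩ := Finset.nonempty_iff_ne_empty.2 hwe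
    have hp := nb_partner h1 (hNT w hwN) hw'
    have hw'T : w' ∈ T3 G S := (mem_nb.1 hw').1
    have hadj : G.Adj w w' := (mem_nb.1 hw').2
    have hp' := nb_partner h1 hw'T (partner_symm (hNT w hwN) hw')
    have hc : cmp G S w = {w, w'} := by
      unfold cmp
      rw [hp]
    have hc' : cmp G S w' = cmp G S w :=
      (cmp_eq_of_mem h1 (hNT w hwN) (by rw [hc]; simp)).1
    have h3 := hWnb w (hNT w hwN) (hcmpC w hwN)
    rw [if_pos (hNv w hwN), hp, Finset.card_singleton] at h3
    have h3' := hWnb w' hw'T (by rw [hc']; exact hcmpC w hwN)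
    rw [if_neg (hwo w' hw'), hp', Finset.card_singleton] at h3'
    obtain ⟨u1, hu1⟩ := exists_single v (by omega : (nb G W w).card ≤ 1)
    obtain ⟨u2, u3, hu2⟩ := exists_pair v (by omega : (nb G W w').card ≤ 2)
    rw [hc]
    exact pair_out_ok hσ hadj.ne (hwo w' hw') (fun u hu' h => hu1 u (mem_nb.2 ⟨hu', h.symm⟩))
      (fun u hu' h => hu2 u (mem_nb.2 ⟨hu', h.symm⟩))
  -- mutual pairs
  set C3 : Finset (Finset V) := A3.image (cmp G S) with hC3
  have hk3 : ∀ C ∈ C3, ∃ a b s : P4, ∀ x, x ∉ k3 a b s → CompOK G σ W π v x C := by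
    intro C hC
    rw [hC3, Finset.mem_image] at hC
    obtain ⟨w, hw, rfl⟩ := hC
    rw [hA3, Finset.mem_filter] at hw
    obtain ⟨hwp, hwo⟩ := hw
    unfold prd at hwp
    rw [Finset.mem_filter] at hwp
    obtain ⟨hwN, -⟩ := hwp
    push Not at hwo
    obtain ⟨w', hw', hvw'⟩ := hwo
    have hp := nb_partner h1 (hNT w hwN) hw'
    have hw'T : w' ∈ T3 G S := (mem_nb.1 hw').1
    have hadj : G.Adj w w' := (mem_nb.1 hw').2
    have hp' := nb_partner h1 hw'T (partner_symm (hNT w hwN) hw')
    have hc : cmp G S w = {w, w'} := by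
      unfold cmp
      rw [hp]
    have hc' : cmp G S w' = cmp G S w :=
      (cmp_eq_of_mem h1 (hNT w hwN) (by rw [hc]; simp)).1
    have h3 := hWnb w (hNT w hwN) (hcmpC w hwN)
    rw [if_pos (hNv w hwN), hp, Finset.card_singleton] at h3
    have h3' := hWnb w' hw'T (by rw [hc']; exact hcmpC w hwN)
    rw [if_pos hvw', hp', Finset.card_singleton] at h3'
    obtain ⟨u1, hu1⟩ := exists_single v (by omega : (nb G W w).card ≤ 1)
    obtain ⟨u2, hu2⟩ := exists_single v (by omega : (nb G W w').card ≤ 1)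
    rw [hc]
    exact pair_mut_ok hσ hadj.ne (fun u hu' h => hu1 u (mem_nb.2 ⟨hu', h.symm⟩))
      (fun u hu' h => hu2 u (mem_nb.2 ⟨hu', h.symm⟩))
  -- each mutual component contains two neighbours
  have hcard3 : 2 * C3.card ≤ A3.card := by
    rw [hC3]
    apply Finset.mul_card_image_le_card
    intro C hC
    rw [Finset.mem_image] at hC
    obtain ⟨w, hw, rfl⟩ := hC
    have hw0 := hw
    rw [hA3, Finset.mem_filter] at hw
    obtain ⟨hwp, hwo⟩ := hw
    have hwp' := hwp
    unfold prd at hwp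
    rw [Finset.mem_filter] at hwp
    obtain ⟨hwN, -⟩ := hwp
    push Not at hwo
    obtain ⟨w', hw', hvw'⟩ := hwo
    have hw'T : w' ∈ T3 G S := (mem_nb.1 hw').1
    have hadj : G.Adj w w' := (mem_nb.1 hw').2
    have hw'N : w' ∈ N := mem_nb.2 ⟨hw'T, hvw'⟩
    have hww' : w ∈ nb G (T3 G S) w' := partner_symm (hNT w hwN) hw'
    have hw'A : w' ∈ A3 := by
      rw [hA3, Finset.mem_filter]
      constructor
      · unfold prd
        rw [Finset.mem_filter]
        exact ⟨hw'N, fun h => by rw [h] at hww'; simp at hww'⟩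
      · intro h
        exact h w hww' (hNv w hwN)
    have hc' : cmp G S w' = cmp G S w := by
      apply (cmp_eq_of_mem h1 (hNT w hwN) _).1
      unfold cmp
      exact Finset.mem_insert_of_mem hw'
    have : ({w, w'} : Finset V) ⊆ A3.filter fun a => cmp G S a = cmp G S w := by
      intro u hu
      rw [Finset.mem_insert, Finset.mem_singleton] at hu
      rw [Finset.mem_filter]
      rcases hu with rfl | rfl
      · exact ⟨hw0, rfl⟩
      · exact ⟨hw'A, hc'⟩
    have h2 := Finset.card_le_card this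
    rw [Finset.card_pair hadj.ne] at h2
    exact h2
  -- choose the killed sets
  choose! a1 b1 hab1 using hk1
  choose! a2 b2 c2 habc2 using hk2
  choose! a3 b3 s3 habs3 using hk3
  set E0 : Finset V := nb G W v with hE0
  set X0 : Finset P4 := E0.biUnion (fun u => k0 (σ u v * π u)) with hX0
  set X1 : Finset P4 := A1.biUnion (fun w => k1 (a1 w) (b1 w)) with hX1
  set X2 : Finset P4 := A2.biUnion (fun w => k2 (a2 w) (b2 w) (c2 w)) with hX2
  set X3 : Finset P4 := C3.biUnion (fun C => k3 (a3 C) (b3 C) (s3 C)) with hX3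
  have hE0c : E0.card + N.card ≤ 4 := by
    have hdisj : Disjoint E0 N := by
      rw [Finset.disjoint_left]
      intro u hu hu'
      exact hNW u hu' (mem_nb.1 hu).1
    rw [← Finset.card_union_of_disjoint hdisj, ← hd]
    apply Finset.card_le_card
    intro u hu
    rw [Finset.mem_union] at hu
    rcases hu with hu | hu
    · exact nb_mono hWS v hu
    · exact nb_mono (T3_subset S) v hu
  have c0 : X0.card ≤ E0.card * 15 :=
    Finset.card_biUnion_le_card_mul _ _ _ (fun u _ => card_k0_le _)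
  have c1 : X1.card ≤ A1.card * 8 :=
    Finset.card_biUnion_le_card_mul _ _ _ (fun u _ => card_k1_le _ _)
  have c2' : X2.card ≤ A2.card * 2 :=
    Finset.card_biUnion_le_card_mul _ _ _ (fun u _ => card_k2_le _ _ _)
  have c3 : X3.card ≤ C3.card * 8 :=
    Finset.card_biUnion_le_card_mul _ _ _ (fun u _ => card_k3_le _ _ _)
  have d1 : A1.card = 3 → X1.card ≤ 21 := fun h =>
    card_three_bound _ _ h (fun w _ => ⟨_, _, rfl⟩)
  have d13 : A1.card = 2 → C3.card = 1 → (X1 ∪ X3).card ≤ 23 := fun h h' =>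
    card_two_one_bound _ _ _ _ h h' (fun w _ => ⟨_, _, rfl⟩) (fun w _ => ⟨_, _, _, rfl⟩)
  have d03 : E0.card = 1 → C3.card = 1 → (X0 ∪ X3).card ≤ 21 := fun h h' =>
    card_one_one_bound _ _ _ _ h h' (fun w _ => ⟨_, rfl⟩) (fun w _ => ⟨_, _, _, rfl⟩)
  have u1 : (X0 ∪ X1 ∪ X2 ∪ X3).card ≤ X0.card + X1.card + X2.card + X3.card :=
    card_union4 _ _ _ _
  have u2 : (X0 ∪ X1 ∪ X2 ∪ X3).card ≤ (X1 ∪ X3).card + X0.card + X2.card :=
    card_union4_a _ _ _ _
  have u3 : (X0 ∪ X1 ∪ X2 ∪ X3).card ≤ (X0 ∪ X3).card + X1.card + X2.card :=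
    card_union4_b _ _ _ _
  have hz : C3.card = 0 → A3.card = 0 := by
    intro h
    rw [Finset.card_eq_zero, hC3, Finset.image_eq_empty] at h
    rw [h, Finset.card_empty]
  have htot : (X0 ∪ X1 ∪ X2 ∪ X3).card ≤ 23 := by
    rw [← hcard23] at h9 hcardN
    rw [← hcardN] at hE0c
    exact arith_count h9 hE0c hcard3 hz c0 c1 c2' c3 d1 d13 d03 u1 u2 u3
  obtain ⟨x, hx⟩ := exists_notMem_of_card htot
  simp only [Finset.mem_union, not_or] at hx
  obtain ⟨⟨⟨hx0, hx1⟩, hx2⟩, hx3⟩ := hx
  apply glue hσ (x := x) hπ ?_ Cs ?_ ?_ S hvW ?_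
  · intro u hu h
    by_contra hcon
    apply hx0
    rw [hX0, Finset.mem_biUnion]
    exact ⟨u, mem_nb.2 ⟨hu, h.symm⟩, mem_k0.2 hcon⟩
  · intro C hC
    refine ⟨hCW C hC, ?_, ?_⟩
    · intro hvC
      exact hvT (hCT C hC v hvC).2
    · have hC' := hC
      rw [hCs, Finset.mem_image] at hC
      obtain ⟨w, hw, rfl⟩ := hC
      by_cases hws : nb G (T3 G S) w = ∅
      · have hwA : w ∈ A1 := by
          rw [hA1]
          unfold sgl
          rw [Finset.mem_filter]
          exact ⟨hw, hws⟩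
        apply hab1 w hwA
        intro h
        apply hx1
        rw [hX1, Finset.mem_biUnion]
        exact ⟨w, hwA, h⟩
      · have hwp : w ∈ prd G S v := by
          unfold prd
          rw [Finset.mem_filter]
          exact ⟨hw, hws⟩
        by_cases hwo : ∀ u ∈ nb G (T3 G S) w, ¬ G.Adj v u
        · have hwA : w ∈ A2 := by
            rw [hA2, Finset.mem_filter]
            exact ⟨hwp, hwo⟩
          apply habc2 w hwA
          intro h
          apply hx2
          rw [hX2, Finset.mem_biUnion]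
          exact ⟨w, hwA, h⟩
        · have hwA : cmp G S w ∈ C3 := by
            rw [hC3]
            apply Finset.mem_image_of_mem
            rw [hA3, Finset.mem_filter]
            exact ⟨hwp, hwo⟩
          apply habs3 _ hwA
          intro h
          apply hx3
          rw [hX3, Finset.mem_biUnion]
          exact ⟨_, hwA, h⟩
  · intro C hC C' hC' hne
    constructor
    · rw [Finset.disjoint_left]
      intro u hu hu'
      exact hne ((hCT C hC u hu).1.symm.trans (hCT C' hC' u hu').1)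
    · intro u hu w hw hadj
      have e1 := hCT C hC u hu
      have e2 := hCT C' hC' w hw
      apply hne
      rw [← e1.1, ← e2.1]
      symm
      apply (cmp_eq_of_mem h1 e1.2 _).1
      unfold cmp
      apply Finset.mem_insert_of_mem
      exact mem_nb.2 ⟨e2.2, hadj⟩
  · intro u hu
    by_cases h1 : u = v
    · exact Or.inl h1
    by_cases h2 : u ∈ R
    · right; right
      rw [hR, Finset.mem_biUnion] at h2
      exact h2
    · right; left
      rw [hW, Finset.mem_sdiff, Finset.mem_insert, not_or]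
      exact ⟨hu, h1, h2⟩

/-- Sparse graphs have packings of all 4-covers (permutation form). -/
theorem valid_of_sparse (hσ : ∀ u v, G.Adj u v → σ v u = (σ u v)⁻¹)
    (hsp : ∀ S : Finset V, S.Nonempty → 7 * ∑ v ∈ S, (nb G S v).card < 24 * S.card)
    (S : Finset V) : ∃ π : V → P4, Valid G σ S π := by
  classical
  induction S using Finset.strongInduction with
  | H S ih =>
    rcases S.eq_empty_or_nonempty with rfl | hne
    · exact ⟨fun _ => 1, fun u hu => absurd hu (Finset.notMem_empty u)⟩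
    · rcases exists_reducible S (hsp S hne) with ⟨v, hv, h2⟩ | ⟨v, hv, h3, h4⟩ |
        ⟨-, h1, v, hv, h4, h9⟩
      · obtain ⟨π, hπ⟩ := ih (S.erase v) (Finset.erase_ssubset hv)
        exact ext_small hσ h2 hπ
      · exact ext_path hσ hv h3 h4 ih
      · exact ext_four hσ hv h1 h4 h9 ih

end Pool.Agent.H24.LP
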