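import Pool.Agent.H24.LP.Mad

/-!
# Hall's theorem for permutations
-/

namespace Pool.Agent.H24.LP

open Finset

/-- permutation from Hall's condition -/
lemma hall_perm {K : ℕ} (Forb : Fin K → Finset (Fin K))
    (h : ∀ S : Finset (Fin K), S.card ≤ (S.biUnion fun i => Finset.univ \ Forb i).card) :
    ∃ p : Equiv.Perm (Fin K), ∀ i, p i ∉ Forb i := by
  classical
  obtain ⟨g, hg, hgA⟩ :=
    (Finset.all_card_le_biUnion_card_iff_exists_injective fun i => Finset.univ \ Forb i).1 h
  refine ⟨Equiv.ofBijective g (Finite.injective_iff_bijective.mp hg), ?_⟩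
  intro i
  have := hgA i
  rw [Finset.mem_sdiff] at this
  exact this.2

/-- completing a partial matching -/
lemma hall_complete {K f : ℕ} (Forb : Fin K → Finset (Fin K)) (hrow : ∀ i, (Forb i).card ≤ f)
    (hcol : ∀ c, (Finset.univ.filter fun i => c ∈ Forb i).card ≤ f)
    (M : Finset (Fin K × Fin K)) (hM1 : ∀ x ∈ M, ∀ y ∈ M, x.1 = y.1 → x = y)
    (hM2 : ∀ x ∈ M, ∀ y ∈ M, x.2 = y.2 → x = y) (hMF : ∀ x ∈ M, x.2 ∉ Forb x.1)
    (hK : 2 * f + M.card ≤ K) :
    ∃ p : Equiv.Perm (Fin K), (∀ x ∈ M, p x.1 = x.2) ∧ ∀ i, p i ∉ Forb i := by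
  classical
  set rows := M.image Prod.fst with hrows
  set cols := M.image Prod.snd with hcols
  have hrc : rows.card = M.card := Finset.card_image_of_injOn (fun x hx y hy h => hM1 x hx y hy h)
  have hcc : cols.card = M.card := Finset.card_image_of_injOn (fun x hx y hy h => hM2 x hx y hy h)
  let A : {i : Fin K // i ∉ rows} → Finset (Fin K) := fun i => (Finset.univ \ Forb i.1) \ cols
  have hAcard : ∀ i, K - f - M.card ≤ (A i).card := by
    intro i
    have h1 : K - f ≤ (Finset.univ \ Forb i.1).card := by
      rw [Finset.card_univ_sdiff, Fintype.card_fin]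
      have := hrow i.1
      omega
    have h2 := Finset.le_card_sdiff cols (Finset.univ \ Forb i.1)
    simp only [A]
    omega
  have hcardι : Fintype.card {i : Fin K // i ∉ rows} = K - M.card := by
    rw [Fintype.card_subtype_compl, Fintype.card_fin, Fintype.card_coe, hrc]
  have hall : ∀ S : Finset {i : Fin K // i ∉ rows}, S.card ≤ (S.biUnion A).card := by
    intro S
    rcases S.eq_empty_or_nonempty with rfl | ⟨i, hi⟩
    · simp
    · by_cases hS : S.card ≤ K - f - M.card
      · exact hS.trans ((hAcard i).trans (Finset.card_le_card (Finset.subset_biUnion_of_mem A hi)))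
      · have hsub : Finset.univ \ cols ⊆ S.biUnion A := by
          intro c hc
          rw [Finset.mem_sdiff] at hc
          by_contra hcon
          rw [Finset.mem_biUnion] at hcon
          push Not at hcon
          have h1 : S.image Subtype.val ⊆ Finset.univ.filter fun i => c ∈ Forb i := by
            intro j hj
            rw [Finset.mem_image] at hj
            obtain ⟨j', hj', rfl⟩ := hj
            rw [Finset.mem_filter]
            refine ⟨Finset.mem_univ _, ?_⟩
            by_contra hnot
            apply hcon j' hj'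
            simp only [A, Finset.mem_sdiff, Finset.mem_univ, true_and]
            exact ⟨hnot, hc.2⟩
          have h2 := (Finset.card_le_card h1).trans (hcol c)
          rw [Finset.card_image_of_injective _ Subtype.val_injective] at h2
          omega
        have h3 := Finset.card_le_card hsub
        rw [Finset.card_univ_sdiff, Fintype.card_fin, hcc] at h3
        have h4 : S.card ≤ K - M.card := by
          rw [← hcardι]
          exact Finset.card_le_univ S
        omega
  obtain ⟨g, hg, hgA⟩ := (Finset.all_card_le_biUnion_card_iff_exists_injective A).1 hall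
  -- combine
  have hex : ∀ i, i ∈ rows → ∃ x ∈ M, x.1 = i := by
    intro i hi
    rw [hrows, Finset.mem_image] at hi
    exact hi
  let q : Fin K → Fin K := fun i =>
    if h : i ∈ rows then (Classical.choose (hex i h)).2 else g ⟨i, h⟩
  have hq1 : ∀ x ∈ M, q x.1 = x.2 := by
    intro x hx
    have hxr : x.1 ∈ rows := Finset.mem_image_of_mem _ hx
    have hch := Classical.choose_spec (hex x.1 hxr)
    have heq : Classical.choose (hex x.1 hxr) = x := hM1 _ hch.1 _ hx hch.2
    simp only [q]
    rw [dif_pos hxr, heq]
  have hq2 : ∀ i (h : i ∉ rows), q i = g ⟨i, h⟩ := by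
    intro i h
    simp only [q]
    rw [dif_neg h]
  have hgcols : ∀ j, g j ∉ cols := by
    intro j
    have := hgA j
    simp only [A, Finset.mem_sdiff] at this
    exact this.2
  have hqcols : ∀ i, i ∈ rows → q i ∈ cols := by
    intro i hi
    obtain ⟨x, hx, rfl⟩ := hex i hi
    rw [hq1 x hx]
    exact Finset.mem_image_of_mem _ hx
  have hinj : Function.Injective q := by
    intro i j hij
    by_cases hi : i ∈ rows
    · by_cases hj : j ∈ rows
      · obtain ⟨x, hx, rfl⟩ := hex i hi
        obtain ⟨y, hy, rfl⟩ := hex j hj
        rw [hq1 x hx, hq1 y hy] at hij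
        rw [hM2 x hx y hy hij]
      · exfalso
        rw [hq2 j hj] at hij
        exact hgcols _ (hij ▸ hqcols i hi)
    · by_cases hj : j ∈ rows
      · exfalso
        rw [hq2 i hi] at hij
        exact hgcols _ (hij ▸ hqcols j hj)
      · rw [hq2 i hi, hq2 j hj] at hij
        have := hg hij
        simpa using this
  refine ⟨Equiv.ofBijective q (Finite.injective_iff_bijective.mp hinj), ?_, ?_⟩
  · intro x hx
    exact hq1 x hx
  · intro i
    rw [Equiv.ofBijective_apply]
    by_cases hi : i ∈ rows
    · obtain ⟨x, hx, rfl⟩ := hex i hi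
      rw [hq1 x hx]
      exact hMF x hx
    · rw [hq2 i hi]
      have := hgA ⟨i, hi⟩
      simp only [A, Finset.mem_sdiff, Finset.mem_univ, true_and] at this
      exact this.1

end Pool.Agent.H24.LP
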