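import Pool.Agent.H24.LP.Ear

/-!
# The complete graph on five vertices minus an edge
-/

namespace Pool.Agent.H24.LP

open Finset

/-! ### A greedy upper bound -/

/-- `2 d` colours are enough to avoid `d` permutations -/
lemma exists_avoid {d : ℕ} {ι : Type} [DecidableEq ι] (F : Finset ι) (hF : F.card ≤ d)
    (f : ι → Equiv.Perm (Fin (2 * d))) : ∃ x : Equiv.Perm (Fin (2 * d)), ∀ j ∈ F, Disc (f j) x := by
  classical
  let A : Fin (2 * d) → Finset (Fin (2 * d)) := fun i =>
    Finset.univ.filter fun c => ∀ j ∈ F, f j i ≠ c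
  have hA : ∀ i, d ≤ (A i).card := by
    intro i
    have h1 : (A i)ᶜ ⊆ F.image fun j => f j i := by
      intro c hc
      rw [Finset.mem_compl, Finset.mem_filter, not_and] at hc
      have := hc (Finset.mem_univ _)
      push Not at this
      obtain ⟨j, hj, hjc⟩ := this
      exact Finset.mem_image.2 ⟨j, hj, hjc⟩
    have h2 := (Finset.card_le_card h1).trans Finset.card_image_le
    rw [Finset.card_compl, Fintype.card_fin] at h2
    omega
  have hall : ∀ S : Finset (Fin (2 * d)), S.card ≤ (S.biUnion A).card := by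
    intro S
    rcases S.eq_empty_or_nonempty with rfl | ⟨i, hi⟩
    · simp
    · by_cases hS : S.card ≤ d
      · exact hS.trans ((hA i).trans (Finset.card_le_card (Finset.subset_biUnion_of_mem A hi)))
      · have huniv : S.biUnion A = Finset.univ := by
          rw [Finset.eq_univ_iff_forall]
          intro c
          by_contra hc
          rw [Finset.mem_biUnion] at hc
          push Not at hc
          have h1 : ∀ i ∈ S, ∃ j ∈ F, f j i = c := by
            intro i hi
            have := hc i hi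
            simp only [A, Finset.mem_filter, Finset.mem_univ, true_and] at this
            push Not at this
            exact this
          have : Nonempty ι := ⟨(h1 i hi).choose⟩
          choose! g hg using h1
          have : S.card ≤ F.card := by
            apply Finset.card_le_card_of_injOn g (fun i hi => (hg i hi).1)
            intro i hi i' hi' h
            have e1 := (hg i hi).2
            have e2 := (hg i' hi').2
            rw [h] at e1
            exact (f (g i')).injective (e1.trans e2.symm)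
          omega
        rw [huniv]
        exact Finset.card_le_card (Finset.subset_univ S)
  obtain ⟨g, hg, hgA⟩ := (Finset.all_card_le_biUnion_card_iff_exists_injective A).1 hall
  refine ⟨Equiv.ofBijective g (Finite.injective_iff_bijective.mp hg), ?_⟩
  intro j hj i
  have := hgA i
  simp only [A, Finset.mem_filter, Finset.mem_univ, true_and] at this
  exact this j hj

/-- a graph with at most `d` neighbours at every vertex is packable for `2 d` -/
theorem permPackable_of_degree {V : Type} [Finite V] {G : SimpleGraph V} (d : ℕ)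
    (h : ∀ (S : Finset V) (v : V), (nb G S v).card ≤ d) : PermPackable G (2 * d) := by
  classical
  cases nonempty_fintype V
  intro σ hσ
  have key : ∀ S : Finset V, ∃ π : V → Equiv.Perm (Fin (2 * d)), ∀ u ∈ S, ∀ w ∈ S, G.Adj u w →
      Disc (σ u w * π u) (π w) := by
    intro S
    induction S using Finset.induction_on with
    | empty => exact ⟨fun _ => 1, fun u hu => absurd hu (Finset.notMem_empty u)⟩
    | insert v S hv ih =>
      obtain ⟨π, hπ⟩ := ih
      obtain ⟨x, hx⟩ := exists_avoid (nb G S v) (h S v) (fun u => σ u v * π u)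
      refine ⟨Function.update π v x, ?_⟩
      intro u hu w hw hadj
      have hns : ∀ t ∈ S, t ≠ v := fun t ht htv => hv (htv ▸ ht)
      rw [Finset.mem_insert] at hu hw
      rcases hu with rfl | hu
      · rcases hw with rfl | hw
        · exact absurd hadj (G.loopless.irrefl _)
        · rw [Function.update_self, Function.update_of_ne (hns w hw)]
          have h5 := hx w (mem_nb.2 ⟨hw, hadj⟩)
          rw [hσ w u hadj.symm, ← disc_mul_left (σ w u)]
          simpa using h5.symm
      · rcases hw with rfl | hw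
        · rw [Function.update_self, Function.update_of_ne (hns u hu)]
          exact hx u (mem_nb.2 ⟨hu, hadj.symm⟩)
        · rw [Function.update_of_ne (hns u hu), Function.update_of_ne (hns w hw)]
          exact hπ u hu w hw hadj
  obtain ⟨π, hπ⟩ := key Finset.univ
  exact ⟨π, fun u v huv => hπ u (Finset.mem_univ _) v (Finset.mem_univ _) huv⟩

/-! ### The graph and its cover -/

namespace K5

/-- the complete graph on five vertices minus the edge `34` -/
def graph : SimpleGraph (Fin 5) := SimpleGraph.fromRel fun u v => ¬ (u = 3 ∧ v = 4) ∧ u < v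

instance : DecidableRel graph.Adj := by
  unfold graph
  intro u v
  rw [SimpleGraph.fromRel_adj]
  infer_instance

lemma adj_iff : ∀ u v : Fin 5, graph.Adj u v ↔
    u ≠ v ∧ ¬ (u = 3 ∧ v = 4) ∧ ¬ (u = 4 ∧ v = 3) := by
  intro u v
  unfold graph
  rw [SimpleGraph.fromRel_adj]
  revert u v
  decide

/-- sources of the nine edges -/
def src : Fin 9 → Fin 5 := ![0, 1, 2, 0, 1, 2, 0, 1, 2]

/-- targets of the nine edges -/
def tgt : Fin 9 → Fin 5 := ![1, 2, 0, 3, 3, 3, 4, 4, 4]

/-- shares of the edges -/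
noncomputable def sh : Fin 9 → ℝ := ![1/2, 1/2, 1/2, 3/5, 3/5, 3/5, 3/5, 3/5, 3/5]

theorem madLT {a : ℝ} (ha : 18 / 5 < a) : MadLT graph a := by
  apply madLT_of_load src tgt ?_ sh ?_ ?_
  · intro v
    simp only [Fin.sum_univ_succ, Fin.sum_univ_zero, src, tgt, sh]
    fin_cases v <;> simp [Fin.ext_iff] <;> norm_num <;> linarith
  · intro u v
    rw [adj_iff]
    revert u v
    decide
  · intro e
    fin_cases e <;> simp [sh] <;> norm_num
  · intro e
    fin_cases e <;> simp [sh] <;> norm_num

theorem permPackable_eight : PermPackable graph 8 := by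
  classical
  apply permPackable_of_degree 4
  intro S v
  have h1 : nb graph S v ⊆ Finset.univ.erase v := by
    intro u hu
    rw [mem_nb] at hu
    rw [Finset.mem_erase]
    exact ⟨hu.2.ne', Finset.mem_univ _⟩
  refine (Finset.card_le_card h1).trans ?_
  rw [Finset.card_erase_of_mem (Finset.mem_univ _), Finset.card_univ, Fintype.card_fin]

theorem not_listPackable : ¬ ListPackable graph 3 := by
  intro h
  obtain ⟨c, hc, -⟩ := h (fun _ => {0, 1, 2}) (fun _ => rfl)
  have h1 := (hc 0).1
  have h2 := (hc 0).2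
  have a01 := h2 0 1 (by rw [adj_iff]; decide)
  have a02 := h2 0 2 (by rw [adj_iff]; decide)
  have a03 := h2 0 3 (by rw [adj_iff]; decide)
  have a12 := h2 1 2 (by rw [adj_iff]; decide)
  have a13 := h2 1 3 (by rw [adj_iff]; decide)
  have a23 := h2 2 3 (by rw [adj_iff]; decide)
  have b0 := h1 0
  have b1 := h1 1
  have b2 := h1 2
  have b3 := h1 3
  simp only [Finset.mem_insert, Finset.mem_singleton] at b0 b1 b2 b3
  omega

/-- index of the twist of the edge `uv` (`0` trivial, `3` and `4` the two rotations of the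
colours `1, 2, 3`) -/
def tw : Fin 5 → Fin 5 → Fin 24 :=
  ![![0, 0, 0, 0, 0], ![0, 0, 0, 3, 4], ![0, 0, 0, 4, 3], ![0, 4, 3, 0, 0], ![0, 3, 4, 0, 0]]

lemma tw_symm : ∀ u v : Fin 5, ∀ s : Fin 4, S4.Ef (tw v u) (S4.Ef (tw u v) s) = s := by
  decide +kernel

/-- the bad cover -/
def cover : Cover graph 4 where
  α := Fin 5 × Fin 4
  L := fun v => ({v} : Finset (Fin 5)) ×ˢ Finset.univ
  card_L := fun v => by simp
  disj := by
    intro u v huv
    rw [Finset.disjoint_left]
    rintro ⟨x, c⟩ h1 h2
    simp only [Finset.mem_product, Finset.mem_singleton] at h1 h2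
    exact huv (h1.1.symm.trans h2.1)
  M := fun x y => y.2 = S4.Ef (tw x.1 y.1) x.2
  symm := by
    rintro ⟨u, s⟩ ⟨v, t⟩ h
    change t = S4.Ef (tw u v) s at h
    change s = S4.Ef (tw v u) t
    rw [h, tw_symm]
  matching := by
    intro u v _ x _ y hy z hz h1 h2
    simp only [Finset.mem_product, Finset.mem_singleton] at hy hz
    apply Prod.ext (hy.1.trans hz.1.symm)
    rw [h1, h2, hy.1, hz.1]

theorem chk : ∀ i j : Fin 24, (S4.D 0).testBit i = true → (S4.D 0).testBit j = true →
    (S4.D i).testBit j = true →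
    S4.D 0 &&& S4.D (S4.mu 3 i) &&& S4.D (S4.mu 4 j) = 0 ∨
    S4.D 0 &&& S4.D (S4.mu 4 i) &&& S4.D (S4.mu 3 j) = 0 := by decide +kernel

/-- the algebraic core: there is no packing by permutations -/
lemma no_perms (p0 p1 p2 p3 p4 : Equiv.Perm (Fin 4)) (h01 : Disc p0 p1) (h02 : Disc p0 p2)
    (h12 : Disc p1 p2) (h03 : Disc p0 p3) (h13 : Disc (S4.E 3 * p1) p3)
    (h23 : Disc (S4.E 4 * p2) p3) (h04 : Disc p0 p4) (h14 : Disc (S4.E 4 * p1) p4)
    (h24 : Disc (S4.E 3 * p2) p4) : False := by
  rw [← disc_mul_right p0⁻¹] at h01 h02 h12 h03 h13 h23 h04 h14 h24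
  rw [mul_assoc] at h13 h23 h14 h24
  rw [mul_inv_cancel, ← S4.E_zero] at h01 h02 h03 h04
  obtain ⟨i, hi⟩ := S4.E_surj (p1 * p0⁻¹)
  obtain ⟨j, hj⟩ := S4.E_surj (p2 * p0⁻¹)
  rw [← hi] at h01 h12 h13 h14
  rw [← hj] at h02 h12 h23 h24
  rw [S4.E_mul] at h13 h23 h14 h24
  have e1 := (S4.disc_E 0 i).1 h01
  have e2 := (S4.disc_E 0 j).1 h02
  have e3 := (S4.disc_E i j).1 h12
  rcases chk i j e1 e2 e3 with h | h
  · have := (S4.ex1 0 ⟨S4.mu 3 i, S4.mu_lt 3 i⟩ ⟨S4.mu 4 j, S4.mu_lt 4 j⟩).1
      ⟨_, h03, h13, h23⟩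
    exact this h
  · have := (S4.ex1 0 ⟨S4.mu 4 i, S4.mu_lt 4 i⟩ ⟨S4.mu 3 j, S4.mu_lt 3 j⟩).1
      ⟨_, h04, h14, h24⟩
    exact this h

theorem not_corrPackable : ¬ CorrPackable graph 4 := by
  intro h
  obtain ⟨c, hc, hd⟩ := h cover
  have hfst : ∀ i v, (c i v).1 = v := by
    intro i v
    have h1 : ∀ x : Fin 5 × Fin 4,
        x ∈ ({v} : Finset (Fin 5)) ×ˢ (Finset.univ : Finset (Fin 4)) → x.1 = v := by
      intro x hx
      rw [Finset.mem_product, Finset.mem_singleton] at hx
      exact hx.1
    exact h1 _ ((hc i).1 v)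
  have hinj : ∀ v, Function.Injective fun i => (c i v).2 := by
    intro v i j hij
    by_contra hne
    have h1 : c i v = c j v := Prod.ext ((hfst i v).trans (hfst j v).symm) hij
    have h2 := hd i j hne
    rw [Set.disjoint_left] at h2
    exact h2 ⟨v, rfl⟩ ⟨v, h1.symm⟩
  let p : Fin 5 → Equiv.Perm (Fin 4) := fun v =>
    Equiv.ofBijective _ (Finite.injective_iff_bijective.mp (hinj v))
  have hp : ∀ v i, p v i = (c i v).2 := fun v i => rfl
  have hdisc : ∀ u v, graph.Adj u v → Disc (S4.E (tw u v) * p u) (p v) := by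
    intro u v huv i hi
    apply (hc i).2 u v huv
    rw [Equiv.Perm.mul_apply, S4.E_apply, hp, hp] at hi
    simp only [cover]
    rw [hfst, hfst]
    exact hi.symm
  have t1 : ∀ q : Equiv.Perm (Fin 4), S4.E 0 * q = q := fun q => by rw [S4.E_zero, one_mul]
  have h01 := hdisc 0 1 (by rw [adj_iff]; decide)
  have h02 := hdisc 0 2 (by rw [adj_iff]; decide)
  have h12 := hdisc 1 2 (by rw [adj_iff]; decide)
  have h03 := hdisc 0 3 (by rw [adj_iff]; decide)
  have h13 := hdisc 1 3 (by rw [adj_iff]; decide)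
  have h23 := hdisc 2 3 (by rw [adj_iff]; decide)
  have h04 := hdisc 0 4 (by rw [adj_iff]; decide)
  have h14 := hdisc 1 4 (by rw [adj_iff]; decide)
  have h24 := hdisc 2 4 (by rw [adj_iff]; decide)
  have w01 : tw 0 1 = 0 := rfl
  have w02 : tw 0 2 = 0 := rfl
  have w12 : tw 1 2 = 0 := rfl
  have w03 : tw 0 3 = 0 := rfl
  have w04 : tw 0 4 = 0 := rfl
  have w13 : tw 1 3 = 3 := rfl
  have w23 : tw 2 3 = 4 := rfl
  have w14 : tw 1 4 = 4 := rfl
  have w24 : tw 2 4 = 3 := rfl
  rw [w01, t1] at h01
  rw [w02, t1] at h02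
  rw [w12, t1] at h12
  rw [w03, t1] at h03
  rw [w04, t1] at h04
  rw [w13] at h13
  rw [w23] at h23
  rw [w14] at h14
  rw [w24] at h24
  exact no_perms _ _ _ _ _ h01 h02 h12 h03 h13 h23 h04 h14 h24

theorem five_le_chiC : 5 ≤ chiC graph := by
  have h8 := corrPackable_of_perm permPackable_eight
  have h3 := lt_chiC (by norm_num) h8 not_listPackable
  have hmem := Nat.sInf_mem (⟨8, by norm_num, h8⟩ :
    {k : ℕ | 1 ≤ k ∧ CorrPackable graph k}.Nonempty)
  have h4 : chiC graph ≠ 4 := by
    intro h
    have : CorrPackable graph (chiC graph) := hmem.2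
    rw [h] at this
    exact not_corrPackable this
  omega

end K5

end Pool.Agent.H24.LP
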