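import Pool.Agent.H24.LP.Find

/-!
# The linear improvement
-/

namespace Pool.Agent.H24.LP

open Finset

set_option linter.unusedSectionVars false

/-- the greedy step -/
lemma exists_avoid' {K : ℕ} {ι : Type} (F : Finset ι) (hF : 2 * F.card ≤ K)
    (g : ι → Equiv.Perm (Fin K)) : ∃ x : Equiv.Perm (Fin K), ∀ j ∈ F, Disc (g j) x := by
  classical
  obtain ⟨p, -, hp⟩ := hall_complete (f := F.card)
    (fun i => Finset.univ.filter fun c => ∃ j ∈ F, g j i = c)
    (fun i => card_forb F (fun j c => g j i = c) (fun j c c' h h' => h.symm.trans h'))
    (fun c => by
      have := card_forb F (fun j i => g j i = c)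
        (fun j i i' h h' => (g j).injective (h.trans h'.symm))
      refine le_trans (Finset.card_le_card ?_) this
      intro i hi
      simp only [Finset.mem_filter, Finset.mem_univ, true_and] at hi ⊢
      exact hi)
    ∅ (fun x hx => absurd hx (Finset.notMem_empty x)) (fun x hx => absurd hx (Finset.notMem_empty x))
    (fun x hx => absurd hx (Finset.notMem_empty x)) (by simpa using hF)
  refine ⟨p, ?_⟩
  intro j hj i hi
  apply hp i
  simp only [Finset.mem_filter, Finset.mem_univ, true_and]
  exact ⟨j, hj, hi⟩

theorem permPackable_linear {V : Type} [Finite V] {G : SimpleGraph V} {K : ℕ} (hK : 1 ≤ K)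
    {a : ℝ} (ha : a ≤ (1 / 2 + 1 / 10 ^ 7) * K) (h : MadLT G a) : PermPackable G K := by
  classical
  cases nonempty_fintype V
  intro σ hσ
  have hsp : ∀ S : Finset V, S.Nonempty → 20000000 * E2 G S < 10000002 * (K * S.card) := by
    intro S hS
    have h1 := sum_nb_lt h S hS
    have h2 : a * S.card ≤ (1 / 2 + 1 / 10 ^ 7) * K * S.card :=
      mul_le_mul_of_nonneg_right ha (Nat.cast_nonneg _)
    have h3 : ((E2 G S : ℕ) : ℝ) < (1 / 2 + 1 / 10 ^ 7) * K * S.card := lt_of_lt_of_le h1 h2
    have h4 : (20000000 : ℝ) * (E2 G S : ℝ) < 10000002 * (K * S.card) := by
      have : (20000000 : ℝ) * ((1 / 2 + 1 / 10 ^ 7) * K * S.card) = 10000002 * (K * S.card) := by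
        ring
      rw [← this]
      exact mul_lt_mul_of_pos_left h3 (by norm_num)
    exact_mod_cast h4
  have key : ∀ n : ℕ, ∀ S : Finset V, S.card = n → ∃ π, ValidK G σ S π := by
    intro n
    induction n using Nat.strong_induction_on with
    | _ n ih =>
      intro S hSn
      rcases S.eq_empty_or_nonempty with rfl | hS
      · exact ⟨fun _ => 1, fun u hu => absurd hu (Finset.notMem_empty u)⟩
      by_cases hlow : ∃ v ∈ S, 2 * (nb G S v).card ≤ K
      · obtain ⟨v, hv, hdeg⟩ := hlow
        obtain ⟨π, hπ⟩ := ih (S.erase v).card (hSn ▸ Finset.card_erase_lt_of_mem hv)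
          (S.erase v) rfl
        obtain ⟨p, hp⟩ := exists_avoid' (nb G (S.erase v) v) (by
          have := Finset.card_le_card (nb_mono (G := G) (Finset.erase_subset v S) v)
          omega) (fun w => σ w v * π w)
        refine ⟨Function.update π v p, ?_⟩
        have := validK_insert hσ hπ (Finset.notMem_erase v S) hp
        rwa [Finset.insert_erase hv] at this
      · push Not at hlow
        have hSpos := hS.card_pos
        have hsS := hsp S hS
        by_cases hbig : K < 2000000
        · exfalso
          have h1 : ∑ _v ∈ S, (K + 1) ≤ ∑ v ∈ S, 2 * (nb G S v).card :=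
            Finset.sum_le_sum fun v hv => hlow v hv
          rw [Finset.sum_const, smul_eq_mul, ← Finset.mul_sum] at h1
          have h2 : S.card * (K + 1) ≤ 2 * E2 G S := h1
          have h3 : S.card * (K + 1) = K * S.card + S.card := by ring
          have h4 : K * S.card ≤ 2000000 * S.card := Nat.mul_le_mul_right _ hbig.le
          rw [h3] at h2
          generalize K * S.card = x at *
          omega
        · push Not at hbig
          obtain ⟨I, R, hIR, hIRS, hRne, hRI, hRdeg⟩ := exists_piece G hK hS hsS hlow
          obtain ⟨A, hAR, hcut1, hcut2⟩ := exists_cut G R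
          have hRpos := hRne.card_pos
          have hcardI : I.card < n := by
            have := Finset.card_union_of_disjoint hIR
            rw [hIRS] at this
            omega
          obtain ⟨π, hπ⟩ := ih I.card hcardI I rfl
          set A2 := R \ A with hA2
          have hAA2 : A ∪ A2 = R := Finset.union_sdiff_of_subset hAR
          have hdisjA : Disjoint A A2 := Finset.disjoint_sdiff
          have hIA : Disjoint I A := Finset.disjoint_of_subset_right hAR hIR
          have hIA2 : Disjoint I A2 := Finset.disjoint_of_subset_right Finset.sdiff_subset hIR
          have hA2R : A2 ⊆ R := Finset.sdiff_subset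
          -- degrees
          have hsplit : ∀ v, (nb G S v).card = (nb G I v).card + (nb G R v).card := by
            intro v
            rw [← hIRS]
            exact nb_split G hIR v
          have hsplit2 : ∀ v, (nb G R v).card = (nb G A v).card + (nb G A2 v).card := by
            intro v
            rw [← hAA2]
            exact nb_split G hdisjA v
          have hRS : R ⊆ S := by
            rw [← hIRS]
            exact Finset.subset_union_right
          set m := K / 100 with hm
          have hidx : Function.Injective (fun v : V => (Fintype.equivFin V v).val) :=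
            fun v w hvw => (Fintype.equivFin V).injective (Fin.ext hvw)
          obtain ⟨ω, hω⟩ := Cells.exists_cells (m := m) G σ I A A2 π
            (fun v : V => (Fintype.equivFin V v).val) hidx hbig (by omega) (by omega)
            (fun u hu => hRI u (hAR hu))
            (fun u hu => by
              have h1 := hcut1 u hu
              have h2 := hsplit2 u
              have h3 := hsplit u
              have h4 := hRdeg u (hAR hu)
              omega)
            (fun v hv => by
              have h1 := hcut2 v hv
              have h2 := hsplit2 v
              have h3 := hsplit v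
              have h4 := hlow v (hRS (hA2R hv))
              have h5 := hRI v (hA2R hv)
              omega)
            (fun v hv => by
              rw [hAA2] at hv ⊢
              have h3 := hsplit v
              have h4 := hRdeg v hv
              omega)
          obtain ⟨ρ, -, hρval, hρK, -⟩ := Cells.stage_one G σ I A π
            (fun v : V => (Fintype.equivFin V v).val) ω hσ hidx hIA hπ
            (fun u hu => by
              have h1 := hcut1 u hu
              have h2 := hsplit2 u
              have h3 := hsplit u
              have h4 := hRdeg u (hAR hu)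
              have h5 := hRI u (hAR hu)
              omega) A (Finset.Subset.refl A)
          have hunion : I ∪ A ∪ A2 = S := by
            rw [Finset.union_assoc, hAA2, hIRS]
          obtain ⟨ρ', -, hρ'⟩ := Cells.stage_two G σ I A A2 π
            (fun v : V => (Fintype.equivFin V v).val) ω hσ hK
            (Finset.disjoint_union_left.2 ⟨hIA2, hdisjA⟩) hω
            (fun v hv => by
              rw [hunion]
              exact hRdeg v (hA2R hv)) ρ hρval hρK A2 (Finset.Subset.refl A2)
          rw [hunion] at hρ'
          exact ⟨ρ', hρ'⟩
  obtain ⟨π, hπ⟩ := key _ Finset.univ rfl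
  exact ⟨π, fun u v huv => hπ u (Finset.mem_univ _) v (Finset.mem_univ _) huv⟩

theorem corrPackable_linear {V : Type} [Finite V] {G : SimpleGraph V} {K : ℕ} (hK : 1 ≤ K)
    {a : ℝ} (ha : a ≤ (1 / 2 + 1 / 10 ^ 7) * K) (h : MadLT G a) : CorrPackable G K :=
  corrPackable_of_perm (permPackable_linear hK ha h)

end Pool.Agent.H24.LP
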