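import Pool.Agent.H24.LP.Four

/-!
# Maximum average degree
-/

namespace Pool.Agent.H24.LP

open Finset

variable {V : Type} {G : SimpleGraph V}

/-- handshake lemma for subgraphs -/
lemma two_mul_edges [Fintype V] (H : G.Subgraph) [DecidableRel H.Adj] :
    2 * H.edgeSet.ncard = ∑ v : V, (Finset.univ.filter fun u => H.Adj v u).card := by
  classical
  have h := H.spanningCoe.sum_degrees_eq_twice_card_edges
  have h1 : H.spanningCoe.edgeFinset.card = H.edgeSet.ncard := by
    rw [← Set.ncard_coe_finset, SimpleGraph.coe_edgeFinset, SimpleGraph.Subgraph.edgeSet_spanningCoe]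
  rw [← h1, ← h]
  apply Finset.sum_congr rfl
  intro v _
  rw [← SimpleGraph.card_neighborFinset_eq_degree]
  congr 1
  ext u
  simp

/-- sparsity of all vertex subsets -/
lemma sum_nb_lt [Finite V] {a : ℝ} (h : MadLT G a) (S : Finset V) (hS : S.Nonempty) :
    ((∑ v ∈ S, (nb G S v).card : ℕ) : ℝ) < a * S.card := by
  classical
  cases nonempty_fintype V
  let H : G.Subgraph := (⊤ : G.Subgraph).induce (S : Set V)
  have h1 := h H (by simpa [H] using hS)
  have h2 := two_mul_edges H
  have h3 : H.verts.ncard = S.card := by
    simp only [H, SimpleGraph.Subgraph.induce_verts, Set.ncard_coe_finset]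
  have h4 : ∑ v : V, (Finset.univ.filter fun u => H.Adj v u).card =
      ∑ v ∈ S, (nb G S v).card := by
    rw [← Finset.sum_subset (Finset.subset_univ S)]
    · apply Finset.sum_congr rfl
      intro v hv
      congr 1
      ext u
      rw [Finset.mem_filter, mem_nb]
      simp only [H, SimpleGraph.Subgraph.induce_adj, Finset.mem_coe,
        SimpleGraph.Subgraph.top_adj, Finset.mem_univ, true_and]
      tauto
    · intro v _ hv
      rw [Finset.card_eq_zero, Finset.filter_eq_empty_iff]
      intro u _ hadj
      simp only [H, SimpleGraph.Subgraph.induce_adj, Finset.mem_coe] at hadj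
      exact hv hadj.1
  rw [h3] at h1
  have h5 : (2 * (H.edgeSet.ncard : ℝ)) = ((∑ v ∈ S, (nb G S v).card : ℕ) : ℝ) := by
    rw [← h4, ← h2]
    push_cast
    ring
  rw [h5] at h1
  exact h1

/-- A fractional orientation with small loads bounds the maximum average degree. -/
lemma madLT_of_load [Finite V] {ι : Type} [Fintype ι] [DecidableEq V] (s t : ι → V)
    (hG : ∀ u v, G.Adj u v → ∃ e, (s e = u ∧ t e = v) ∨ (s e = v ∧ t e = u))
    (α : ι → ℝ) (h0 : ∀ e, 0 ≤ α e) (h1 : ∀ e, α e ≤ 1) (a : ℝ)
    (hload : ∀ v, ∑ e, (if t e = v then α e else 0) + ∑ e, (if s e = v then 1 - α e else 0)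
      < a / 2) : MadLT G a := by
  classical
  cases nonempty_fintype V
  intro H hH
  let A : Finset V := Finset.univ.filter fun v => v ∈ H.verts
  have hA : H.verts.ncard = A.card := by
    rw [← Set.ncard_coe_finset]
    congr 1
    ext v
    simp [A]
  have hAne : A.Nonempty := by
    obtain ⟨v, hv⟩ := hH
    exact ⟨v, by simp [A, hv]⟩
  -- edges of H are among the pairs
  let B : Finset ι := Finset.univ.filter fun e => s e ∈ H.verts ∧ t e ∈ H.verts
  have hE : H.edgeSet.ncard ≤ B.card := by
    have hsub : H.edgeSet ⊆ (B.image fun e => s(s e, t e) : Finset (Sym2 V)) := by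
      intro x hx
      induction x using Sym2.ind with
      | _ u v =>
        rw [SimpleGraph.Subgraph.mem_edgeSet] at hx
        obtain ⟨e, he⟩ := hG u v (H.adj_sub hx)
        rw [Finset.mem_coe, Finset.mem_image]
        refine ⟨e, ?_, ?_⟩
        · rw [Finset.mem_filter]
          rcases he with ⟨h1, h2⟩ | ⟨h1, h2⟩
          · rw [h1, h2]
            exact ⟨Finset.mem_univ _, H.edge_vert hx, H.edge_vert hx.symm⟩
          · rw [h1, h2]
            exact ⟨Finset.mem_univ _, H.edge_vert hx.symm, H.edge_vert hx⟩
        · rcases he with ⟨h1, h2⟩ | ⟨h1, h2⟩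
          · rw [h1, h2]
          · rw [h1, h2]
            exact Sym2.eq_swap
    calc H.edgeSet.ncard ≤ ((B.image fun e => s(s e, t e) : Finset (Sym2 V)) : Set (Sym2 V)).ncard :=
          Set.ncard_le_ncard hsub (Finset.finite_toSet _)
      _ = (B.image fun e => s(s e, t e)).card := Set.ncard_coe_finset _
      _ ≤ B.card := Finset.card_image_le
  have hsum : (B.card : ℝ) ≤ ∑ v ∈ A, (∑ e, (if t e = v then α e else 0) +
      ∑ e, (if s e = v then 1 - α e else 0)) := by
    rw [Finset.sum_add_distrib, Finset.sum_comm, Finset.sum_comm (s := A) (t := Finset.univ)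
      (f := fun v e => if s e = v then 1 - α e else 0), ← Finset.sum_add_distrib]
    have hB1 : (B.card : ℝ) = ∑ e ∈ B, (1 : ℝ) := by simp
    have hterm : ∀ e, (∑ v ∈ A, if t e = v then α e else 0) +
        (∑ v ∈ A, if s e = v then 1 - α e else 0) =
        (if t e ∈ A then α e else 0) + (if s e ∈ A then 1 - α e else 0) := by
      intro e
      rw [Finset.sum_ite_eq, Finset.sum_ite_eq]
    rw [hB1]
    calc ∑ e ∈ B, (1 : ℝ) = ∑ e ∈ B, ((∑ v ∈ A, if t e = v then α e else 0) +
          (∑ v ∈ A, if s e = v then 1 - α e else 0)) := by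
          apply Finset.sum_congr rfl
          intro e he
          rw [hterm]
          simp only [B, Finset.mem_filter, Finset.mem_univ, true_and] at he
          have h1 : t e ∈ A := by simp [A, he.2]
          have h2 : s e ∈ A := by simp [A, he.1]
          rw [if_pos h1, if_pos h2]
          ring
      _ ≤ ∑ e, ((∑ v ∈ A, if t e = v then α e else 0) +
          (∑ v ∈ A, if s e = v then 1 - α e else 0)) := by
          apply Finset.sum_le_sum_of_subset_of_nonneg (Finset.subset_univ B)
          intro e _ _
          rw [hterm]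
          have := h0 e
          have := h1 e
          apply add_nonneg
          · split_ifs
            · exact h0 e
            · exact le_refl _
          · split_ifs
            · linarith
            · exact le_refl _
  have hlt : ∑ v ∈ A, (∑ e, (if t e = v then α e else 0) +
      ∑ e, (if s e = v then 1 - α e else 0)) < ∑ v ∈ A, a / 2 :=
    Finset.sum_lt_sum_of_nonempty hAne (fun v _ => hload v)
  rw [Finset.sum_const, nsmul_eq_mul] at hlt
  have hE' : (H.edgeSet.ncard : ℝ) ≤ B.card := by exact_mod_cast hE
  rw [hA]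
  have hfin : (H.edgeSet.ncard : ℝ) < A.card * (a / 2) := lt_of_le_of_lt (hE'.trans hsum) hlt
  linarith

end Pool.Agent.H24.LP
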