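import Pool.Agent.H24.LP.Cells

/-!
# Choice of the random cells by the local lemma
-/

namespace Pool.Agent.H24.LP

open Finset

set_option linter.unusedSectionVars false

lemma four_le_pow {K : ℕ} (hK : 16 ≤ K) : K ^ 4 ≤ 2 ^ K := by
  induction K, hK using Nat.le_induction with
  | base => norm_num
  | succ n hn ih =>
    have h1 : (n + 1) ^ 4 ≤ 2 * n ^ 4 := by
      have h2 : 16 * n ^ 3 ≤ n ^ 4 := by
        calc 16 * n ^ 3 ≤ n * n ^ 3 := Nat.mul_le_mul_right _ hn
          _ = n ^ 4 := by ring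
      have h3 : n ^ 2 ≤ n ^ 3 := Nat.pow_le_pow_right (by omega) (by norm_num)
      have h4 : n ≤ n ^ 3 := by
        calc n = n ^ 1 := (pow_one n).symm
          _ ≤ n ^ 3 := Nat.pow_le_pow_right (by omega) (by norm_num)
      have h5 : 1 ≤ n ^ 3 := Nat.one_le_pow _ _ (by omega)
      calc (n + 1) ^ 4 = n ^ 4 + 4 * n ^ 3 + 6 * n ^ 2 + 4 * n + 1 := by ring
        _ ≤ n ^ 4 + 4 * n ^ 3 + 6 * n ^ 3 + 4 * n ^ 3 + n ^ 3 := by omega
        _ ≤ 2 * n ^ 4 := by omega
    calc (n + 1) ^ 4 ≤ 2 * n ^ 4 := h1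
      _ ≤ 2 * 2 ^ n := Nat.mul_le_mul_left 2 ih
      _ = 2 ^ (n + 1) := by ring

/-- the numerical condition of the local lemma -/
lemma numeric {K : ℕ} (hK : 2000000 ≤ K) :
    4 * ((4 : ℝ) ^ K * (2 ^ (K * K / 1000000) * (199 / 200 : ℝ) ^ (K * K / 2000))) *
      ((K ^ 4 : ℕ) : ℝ) ≤ 1 := by
  set h := K * K / 1000000 with hh
  have h1 : 500 * h ≤ K * K / 2000 := by
    rw [Nat.le_div_iff_mul_le (by norm_num)]
    have := Nat.div_mul_le_self (K * K) 1000000
    calc 500 * h * 2000 = h * 1000000 := by ring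
      _ ≤ K * K := this
  have h2 : (199 / 200 : ℝ) ^ (K * K / 2000) ≤ (1 / 8) ^ h := by
    calc (199 / 200 : ℝ) ^ (K * K / 2000) ≤ (199 / 200 : ℝ) ^ (500 * h) :=
          pow_le_pow_of_le_one (by norm_num) (by norm_num) h1
      _ = ((199 / 200 : ℝ) ^ 500) ^ h := by rw [pow_mul]
      _ ≤ (1 / 8) ^ h := by
          apply pow_le_pow_left₀ (by positivity)
          have e1 : (199 / 200 : ℝ) ^ 100 ≤ 61 / 100 := by norm_num
          calc (199 / 200 : ℝ) ^ 500 = ((199 / 200 : ℝ) ^ 100) ^ 5 := by rw [← pow_mul]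
            _ ≤ (61 / 100) ^ 5 := pow_le_pow_left₀ (by positivity) e1 5
            _ ≤ 1 / 8 := by norm_num
  have h3 : 2 * K ≤ h + 1 := by
    have : 2 * K ≤ h := by
      rw [hh, Nat.le_div_iff_mul_le (by norm_num)]
      nlinarith
    omega
  have h4 : (2 : ℝ) ^ h * (1 / 8) ^ h = (1 / 4) ^ h := by
    rw [← mul_pow]
    norm_num
  have h5 : ((K ^ 4 : ℕ) : ℝ) ≤ 2 ^ K := by
    have := four_le_pow (by omega : 16 ≤ K)
    exact_mod_cast this
  have h6 : (1 / 4 : ℝ) ^ h ≤ 4 * (1 / 4) ^ (2 * K) := by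
    have : (1 / 4 : ℝ) ^ (h + 1) ≤ (1 / 4) ^ (2 * K) :=
      pow_le_pow_of_le_one (by norm_num) (by norm_num) h3
    rw [pow_succ] at this
    linarith
  have h7 : (4 : ℝ) ^ K * (1 / 4) ^ (2 * K) = (1 / 4) ^ K := by
    rw [two_mul, pow_add, ← mul_assoc, ← mul_pow]
    norm_num
  have h8 : (1 / 4 : ℝ) ^ K * 2 ^ K = (1 / 2) ^ K := by
    rw [← mul_pow]
    norm_num
  have h9 : (1 / 2 : ℝ) ^ K ≤ (1 / 2) ^ 4 :=
    pow_le_pow_of_le_one (by norm_num) (by norm_num) (by omega)
  calc 4 * ((4 : ℝ) ^ K * (2 ^ h * (199 / 200 : ℝ) ^ (K * K / 2000))) * ((K ^ 4 : ℕ) : ℝ)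
      ≤ 4 * ((4 : ℝ) ^ K * (2 ^ h * (1 / 8) ^ h)) * 2 ^ K := by gcongr
    _ = 4 * ((4 : ℝ) ^ K * (1 / 4) ^ h) * 2 ^ K := by rw [h4]
    _ ≤ 4 * ((4 : ℝ) ^ K * (4 * (1 / 4) ^ (2 * K))) * 2 ^ K := by gcongr
    _ = 16 * (((4 : ℝ) ^ K * (1 / 4) ^ (2 * K)) * 2 ^ K) := by ring
    _ = 16 * (1 / 2) ^ K := by rw [h7, h8]
    _ ≤ 16 * (1 / 2) ^ 4 := by gcongr
    _ = 1 := by norm_num

namespace Cells

variable {V : Type} [Fintype V] [DecidableEq V] {K m : ℕ}
variable (G : SimpleGraph V) (σ : V → V → Equiv.Perm (Fin K)) (W A A2 : Finset V)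
    (π : V → Equiv.Perm (Fin K)) (idx : V → ℕ)

/-- the cells of the neighbours of `v` -/
noncomputable def JJ (m : ℕ) (v : V) : Finset (V × Fin m) := nb G A v ×ˢ Finset.univ

/-- the vertices on which the event of `v` depends -/
noncomputable def UU (v : V) : Finset V := nb G A v ∪ (nb G A v).biUnion (nb G A)

open Classical in
/-- the bad event of `v` -/
noncomputable def Ev (m : ℕ) (h : ℕ) (v : V) : Finset (Om V m K) :=
  if v ∈ A2 then Finset.univ.filter fun ω => ∃ X Y : Finset (Fin K), 2 * K ≤ 5 * X.card ∧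
    2 * K ≤ 5 * Y.card ∧
    ((JJ G A m v).filter fun j => HitAt G σ W A π idx v X Y j ω).card ≤ h
  else ∅

open Classical in
/-- the coordinates of the event of `v` -/
noncomputable def DD (m : ℕ) (v : V) : Finset (V × Fin m) :=
  if v ∈ A2 then UU G A v ×ˢ Finset.univ else ∅

lemma ev_dep (h : ℕ) (v : V) :
    Pool.Agent.H16.Cube.DependsOn (Ev G σ W A A2 π idx m h v) (DD G A A2 m v) := by
  classical
  intro ω ω' hω hmem
  unfold Ev at hmem ⊢
  unfold DD at hω
  by_cases hv : v ∈ A2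
  · rw [if_pos hv] at hmem ⊢ hω
    rw [Finset.mem_filter] at hmem ⊢
    obtain ⟨-, X, Y, hX, hY, hc⟩ := hmem
    refine ⟨Finset.mem_univ _, X, Y, hX, hY, ?_⟩
    refine (Finset.card_le_card ?_).trans hc
    rintro ⟨u, t⟩ hj
    rw [Finset.mem_filter] at hj ⊢
    obtain ⟨hj1, hk, hx, hy⟩ := hj
    have huv : u ∈ nb G A v := (Finset.mem_product.1 hj1).1
    have e1 : ∀ t', ω' (u, t') = ω (u, t') := by
      intro t'
      apply (hω _ _).symm
      rw [Finset.mem_product]
      exact ⟨Finset.mem_union_left _ huv, Finset.mem_univ _⟩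
    refine ⟨hj1, ?_, ?_, ?_⟩
    · apply keep_congr G σ W A π idx (fun t' _ => e1 t') ?_ hk
      intro u' hu' _ t'
      apply (hω _ _).symm
      rw [Finset.mem_product]
      exact ⟨Finset.mem_union_right _ (Finset.mem_biUnion.2 ⟨u, huv, hu'⟩), Finset.mem_univ _⟩
    · rw [← e1 t]
      exact hx
    · rw [← e1 t]
      exact hy
  · rw [if_neg hv] at hmem
    exact absurd hmem (Finset.notMem_empty _)

lemma card_UU {Δ : ℕ} (h1 : ∀ v ∈ A ∪ A2, (nb G (A ∪ A2) v).card ≤ Δ) {v : V}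
    (hv : v ∈ A ∪ A2) : (UU G A v).card ≤ Δ + Δ * Δ := by
  have hmono : ∀ w, (nb G A w).card ≤ (nb G (A ∪ A2) w).card := fun w =>
    Finset.card_le_card (nb_mono Finset.subset_union_left w)
  unfold UU
  refine (Finset.card_union_le _ _).trans ?_
  refine Nat.add_le_add ((hmono v).trans (h1 v hv)) ?_
  refine (Finset.card_biUnion_le_card_mul _ _ Δ ?_).trans ?_
  · intro u hu
    have huA : u ∈ A ∪ A2 := Finset.mem_union_left _ (mem_nb.1 hu).1
    exact (hmono u).trans (h1 u huA)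
  · exact Nat.mul_le_mul_right _ ((hmono v).trans (h1 v hv))

lemma card_inv_UU {Δ : ℕ} (h1 : ∀ v ∈ A ∪ A2, (nb G (A ∪ A2) v).card ≤ Δ) {u : V}
    (hu : u ∈ A) : (A2.filter fun z => u ∈ UU G A z).card ≤ Δ + Δ * Δ := by
  have hmono : ∀ w, (nb G A w).card ≤ (nb G (A ∪ A2) w).card := fun w =>
    Finset.card_le_card (nb_mono Finset.subset_union_left w)
  have hmono2 : ∀ w, (nb G A2 w).card ≤ (nb G (A ∪ A2) w).card := fun w =>
    Finset.card_le_card (nb_mono Finset.subset_union_right w)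
  have hsub : (A2.filter fun z => u ∈ UU G A z) ⊆
      nb G A2 u ∪ (nb G A u).biUnion (nb G A2) := by
    intro z hz
    rw [Finset.mem_filter] at hz
    obtain ⟨hz2, hz⟩ := hz
    unfold UU at hz
    rw [Finset.mem_union, Finset.mem_biUnion] at hz
    rw [Finset.mem_union, Finset.mem_biUnion]
    rcases hz with hz | ⟨w, hw, hw2⟩
    · left
      rw [mem_nb] at hz ⊢
      exact ⟨hz2, hz.2.symm⟩
    · right
      rw [mem_nb] at hw hw2
      exact ⟨w, mem_nb.2 ⟨hw.1, hw2.2.symm⟩, mem_nb.2 ⟨hz2, hw.2.symm⟩⟩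
  refine (Finset.card_le_card hsub).trans ?_
  have huA : u ∈ A ∪ A2 := Finset.mem_union_left _ hu
  refine (Finset.card_union_le _ _).trans ?_
  refine Nat.add_le_add ((hmono2 u).trans (h1 u huA)) ?_
  refine (Finset.card_biUnion_le_card_mul _ _ Δ ?_).trans ?_
  · intro w hw
    have hwA : w ∈ A ∪ A2 := Finset.mem_union_left _ (mem_nb.1 hw).1
    exact (hmono2 w).trans (h1 w hwA)
  · exact Nat.mul_le_mul_right _ ((hmono u).trans (h1 u huA))

lemma card_dep {Δ : ℕ} (h1 : ∀ v ∈ A ∪ A2, (nb G (A ∪ A2) v).card ≤ Δ) (v : V) :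
    (Finset.univ.filter fun z => z ≠ v ∧ ¬ Disjoint (DD G A A2 m v) (DD G A A2 m z)).card ≤
      (Δ + Δ * Δ) * (Δ + Δ * Δ) := by
  classical
  by_cases hv : v ∈ A2
  · have hsub : (Finset.univ.filter fun z => z ≠ v ∧
        ¬ Disjoint (DD G A A2 m v) (DD G A A2 m z)) ⊆
        (UU G A v).biUnion fun u => A2.filter fun z => u ∈ UU G A z := by
      intro z hz
      rw [Finset.mem_filter] at hz
      obtain ⟨-, -, hz⟩ := hz
      rw [Finset.not_disjoint_iff] at hz
      obtain ⟨⟨u, t⟩, h2, h3⟩ := hz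
      unfold DD at h2 h3
      rw [if_pos hv, Finset.mem_product] at h2
      by_cases hz2 : z ∈ A2
      · rw [if_pos hz2, Finset.mem_product] at h3
        rw [Finset.mem_biUnion]
        exact ⟨u, h2.1, Finset.mem_filter.2 ⟨hz2, h3.1⟩⟩
      · rw [if_neg hz2] at h3
        exact absurd h3 (Finset.notMem_empty _)
    refine (Finset.card_le_card hsub).trans ?_
    refine (Finset.card_biUnion_le_card_mul _ _ (Δ + Δ * Δ) ?_).trans ?_
    · intro u hu
      apply card_inv_UU G A A2 h1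
      unfold UU at hu
      rw [Finset.mem_union, Finset.mem_biUnion] at hu
      rcases hu with hu | ⟨w, -, hw⟩
      · exact (mem_nb.1 hu).1
      · exact (mem_nb.1 hw).1
    · exact Nat.mul_le_mul_right _ (card_UU G A A2 h1 (Finset.mem_union_right _ hv))
  · have : (Finset.univ.filter fun z => z ≠ v ∧
        ¬ Disjoint (DD G A A2 m v) (DD G A A2 m z)) = ∅ := by
      rw [Finset.filter_eq_empty_iff]
      intro z _ hz
      apply hz.2
      unfold DD
      rw [if_neg hv]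
      exact Finset.disjoint_empty_left _
    rw [this]
    simp

/-- the bad events are unlikely -/
lemma card_ev (hidx : Function.Injective idx) (hm : 100 * m ≤ K) (hm2 : K ≤ 200 * m)
    (hext : ∀ u ∈ A, 10 * (nb G W u).card ≤ 3 * K)
    (hin : ∀ u ∈ A, 10 * (nb G A u).card ≤ 3 * K)
    (hout : ∀ v ∈ A2, K ≤ 10 * (nb G A v).card) (h : ℕ) (v : V) :
    ((Ev G σ W A A2 π idx m h v).card : ℝ) ≤
      ((4 : ℝ) ^ K * (2 ^ h * (199 / 200 : ℝ) ^ (K * K / 2000))) *
        Fintype.card (Om V m K) := by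
  classical
  by_cases hv : v ∈ A2
  · have hsub : Ev G σ W A A2 π idx m h v ⊆
        ((Finset.univ : Finset (Finset (Fin K) × Finset (Fin K))).filter fun p =>
          2 * K ≤ 5 * p.1.card ∧ 2 * K ≤ 5 * p.2.card).biUnion fun p =>
        Finset.univ.filter fun ω : Om V m K =>
          ((JJ G A m v).filter fun j => HitAt G σ W A π idx v p.1 p.2 j ω).card ≤ h := by
      intro ω hω
      unfold Ev at hω
      rw [if_pos hv, Finset.mem_filter] at hω
      obtain ⟨-, X, Y, hX, hY, hc⟩ := hω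
      rw [Finset.mem_biUnion]
      exact ⟨(X, Y), Finset.mem_filter.2 ⟨Finset.mem_univ _, hX, hY⟩,
        Finset.mem_filter.2 ⟨Finset.mem_univ _, hc⟩⟩
    have hone : ∀ p ∈ ((Finset.univ : Finset (Finset (Fin K) × Finset (Fin K))).filter fun p =>
          2 * K ≤ 5 * p.1.card ∧ 2 * K ≤ 5 * p.2.card),
        ((Finset.univ.filter fun ω : Om V m K =>
          ((JJ G A m v).filter fun j => HitAt G σ W A π idx v p.1 p.2 j ω).card ≤ h).card : ℝ) ≤
        (2 ^ h * (199 / 200 : ℝ) ^ (K * K / 2000)) * Fintype.card (Om V m K) := by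
      rintro ⟨X, Y⟩ hp
      rw [Finset.mem_filter] at hp
      obtain ⟨-, hX, hY⟩ := hp
      have hf := few_hits (rk idx) (fun j (ω : Om V m K) => HitAt G σ W A π idx v X Y j ω)
        (rk_inj hidx) (fun j ω ω' => hit_dep G σ W A π idx v X Y j ω ω') (1 / 100)
        (by norm_num) (JJ G A m v) ?_ h
      · refine hf.trans ?_
        have h1 : K * K / 2000 ≤ (JJ G A m v).card := by
          unfold JJ
          rw [Finset.card_product, Finset.card_univ, Fintype.card_fin]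
          apply Nat.div_le_of_le_mul
          have := Nat.mul_le_mul (hout v hv) hm2
          calc K * K ≤ 10 * (nb G A v).card * (200 * m) := this
            _ = 2000 * ((nb G A v).card * m) := by ring
        have h2 : (1 - 1 / 100 / 2 : ℝ) ^ (JJ G A m v).card ≤
            (199 / 200 : ℝ) ^ (K * K / 2000) := by
          have : (1 - 1 / 100 / 2 : ℝ) = 199 / 200 := by norm_num
          rw [this]
          exact pow_le_pow_of_le_one (by norm_num) (by norm_num) h1
        calc (2 : ℝ) ^ h * ((1 - 1 / 100 / 2 : ℝ) ^ (JJ G A m v).card *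
              Fintype.card (Om V m K))
            ≤ 2 ^ h * ((199 / 200 : ℝ) ^ (K * K / 2000) * Fintype.card (Om V m K)) := by gcongr
          _ = _ := by ring
      · rintro ⟨u, t⟩ hj ω
        have hu : u ∈ nb G A v := (Finset.mem_product.1 hj).1
        have huA : u ∈ A := (mem_nb.1 hu).1
        have := hit_count G σ W A π idx hm t (hext u huA) (hin u huA) v hX hY ω
        have h3 : (((K * K : ℕ) : ℝ)) ≤ ((100 * (Finset.univ.filter fun c : Fin K × Fin K =>
          HitAt G σ W A π idx v X Y (u, t) (Function.update ω (u, t) c)).card : ℕ) : ℝ) := by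
          exact_mod_cast this
        rw [Fintype.card_prod, Fintype.card_fin]
        push_cast at h3 ⊢
        linarith
    have h1 : ((Ev G σ W A A2 π idx m h v).card : ℝ) ≤
        ∑ p ∈ ((Finset.univ : Finset (Finset (Fin K) × Finset (Fin K))).filter fun p =>
          2 * K ≤ 5 * p.1.card ∧ 2 * K ≤ 5 * p.2.card),
        ((Finset.univ.filter fun ω : Om V m K =>
          ((JJ G A m v).filter fun j => HitAt G σ W A π idx v p.1 p.2 j ω).card ≤ h).card : ℝ) := by
      exact_mod_cast (Finset.card_le_card hsub).trans Finset.card_biUnion_le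
    refine h1.trans ((Finset.sum_le_sum hone).trans ?_)
    rw [Finset.sum_const, nsmul_eq_mul, ← mul_assoc]
    apply mul_le_mul_of_nonneg_right _ (Nat.cast_nonneg _)
    apply mul_le_mul_of_nonneg_right _ (by positivity)
    have h2 : ((Finset.univ : Finset (Finset (Fin K) × Finset (Fin K))).filter fun p =>
          2 * K ≤ 5 * p.1.card ∧ 2 * K ≤ 5 * p.2.card).card ≤ 4 ^ K := by
      refine (Finset.card_filter_le _ _).trans ?_
      rw [Finset.card_univ, Fintype.card_prod, Fintype.card_finset, Fintype.card_fin,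
        ← mul_pow]
      norm_num
    exact_mod_cast h2
  · unfold Ev
    rw [if_neg hv, Finset.card_empty, Nat.cast_zero]
    positivity

/-- The choice of the cells. -/
theorem exists_cells (hidx : Function.Injective idx) (hK : 2000000 ≤ K) (hm : 100 * m ≤ K)
    (hm2 : K ≤ 200 * m) (hext : ∀ u ∈ A, 10 * (nb G W u).card ≤ 3 * K)
    (hin : ∀ u ∈ A, 10 * (nb G A u).card ≤ 3 * K)
    (hout : ∀ v ∈ A2, K ≤ 10 * (nb G A v).card)
    (hdeg : ∀ v ∈ A ∪ A2, 5 * (nb G (A ∪ A2) v).card ≤ 3 * K) :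
    ∃ ω : Om V m K, ∀ v ∈ A2, ∀ X Y : Finset (Fin K), 2 * K ≤ 5 * X.card → 2 * K ≤ 5 * Y.card →
      ∃ T : Finset (V × Fin m), (∀ j ∈ T, j.1 ∈ nb G A v ∧ HitAt G σ W A π idx v X Y j ω) ∧
        K * K < 1000000 * T.card := by
  classical
  have : NeZero K := ⟨by omega⟩
  have : Nonempty (Fin K × Fin K) := ⟨(0, 0)⟩
  set h := K * K / 1000000 with hh
  set q : ℝ := (4 : ℝ) ^ K * (2 ^ h * (199 / 200 : ℝ) ^ (K * K / 2000)) with hq
  have hq0 : 0 ≤ q := by positivity
  have hnum := numeric hK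
  rw [← hh, ← hq] at hnum
  have hK4 : (1 : ℝ) ≤ ((K ^ 4 : ℕ) : ℝ) := by
    have : 1 ≤ K ^ 4 := Nat.one_le_pow _ _ (by omega)
    exact_mod_cast this
  have h4q : 4 * q ≤ 1 := by
    have : 4 * q * 1 ≤ 4 * q * ((K ^ 4 : ℕ) : ℝ) := mul_le_mul_of_nonneg_left hK4 (by linarith)
    linarith
  have hdeg' : ∀ v ∈ A ∪ A2, (nb G (A ∪ A2) v).card ≤ 3 * K / 5 := by
    intro v hv
    have := hdeg v hv
    omega
  have hD : ∀ y, (Finset.univ.filter fun z => z ≠ y ∧
      ¬ Disjoint (DD G A A2 m y) (DD G A A2 m z)).card ≤ K ^ 4 := by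
    intro y
    refine (card_dep G A A2 hdeg' y).trans ?_
    have h1 : 3 * K / 5 + 3 * K / 5 * (3 * K / 5) ≤ K * K := by
      have h2 : 5 * (3 * K / 5) ≤ 3 * K := Nat.mul_div_le _ _
      generalize 3 * K / 5 = x at *
      nlinarith
    calc _ ≤ (K * K) * (K * K) := Nat.mul_le_mul h1 h1
      _ = K ^ 4 := by ring
  have hlll := Pool.Agent.H16.Cube.lll (E := Ev G σ W A A2 π idx m h) (S := DD G A A2 m)
    (fun y => ev_dep G σ W A A2 π idx h y) hq0
    (fun y => card_ev G σ W A A2 π idx hidx hm hm2 hext hin hout h y) hD hnum (by linarith)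
  have hpos : (0 : ℝ) < (1 - 2 * q) ^ Fintype.card V * Fintype.card (Om V m K) := by
    have h1 : (0 : ℝ) < 1 - 2 * q := by linarith
    have h2 : (0 : ℝ) < Fintype.card (Om V m K) := by exact_mod_cast Fintype.card_pos
    positivity
  have hne : (0 : ℝ) < ((Pool.Agent.H16.Cube.avoid (Ev G σ W A A2 π idx m h)
      Finset.univ).card : ℝ) := lt_of_lt_of_le hpos hlll
  have hne' : 0 < (Pool.Agent.H16.Cube.avoid (Ev G σ W A A2 π idx m h) Finset.univ).card := by
    exact_mod_cast hne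
  obtain ⟨ω, hω⟩ := Finset.card_pos.1 hne'
  unfold Pool.Agent.H16.Cube.avoid at hω
  rw [Finset.mem_filter] at hω
  refine ⟨ω, ?_⟩
  intro v hv X Y hX hY
  have h1 := hω.2 v (Finset.mem_univ _)
  unfold Ev at h1
  rw [if_pos hv, Finset.mem_filter, not_and] at h1
  have h2 := h1 (Finset.mem_univ _)
  push Not at h2
  have h3 := h2 X Y hX hY
  refine ⟨(JJ G A m v).filter fun j => HitAt G σ W A π idx v X Y j ω, ?_, ?_⟩
  · intro j hj
    rw [Finset.mem_filter] at hj
    exact ⟨(Finset.mem_product.1 hj.1).1, hj.2⟩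
  · have h4 : K * K < 1000000 * (h + 1) := by
      rw [hh]
      have := Nat.lt_mul_div_succ (K * K) (by norm_num : 0 < 1000000)
      exact this
    exact lt_of_lt_of_le h4 (Nat.mul_le_mul_left _ h3)

end Cells

end Pool.Agent.H24.LP
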