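import Pool.Agent.H24.LP.S4Tab

/-!
# Facts about permutations of four points used for extending packings
-/

namespace Pool.Agent.H24.LP

open Finset

namespace S4

/-- the permutation number `i` -/
noncomputable def E (i : Fin 24) : Equiv.Perm (Fin 4) :=
  Equiv.ofBijective (Ef i) (Finite.injective_iff_bijective.mp (fun a b h => Ef_inj i a b h))

lemma E_apply (i : Fin 24) (t : Fin 4) : E i t = Ef i t := rfl

lemma E_inj : Function.Injective E := by
  intro i j h
  apply Ef_ext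
  intro t
  rw [← E_apply, ← E_apply, h]

lemma E_surj : Function.Surjective E := by
  intro p
  have hne : ∀ i j : Fin 4, i ≠ j → p i ≠ p j := fun i j h h' => h (p.injective h')
  obtain ⟨i, h0, h1, h2, h3⟩ := Ef_surj (p 0) (p 1) (p 2) (p 3) (hne _ _ (by decide))
    (hne _ _ (by decide)) (hne _ _ (by decide)) (hne _ _ (by decide)) (hne _ _ (by decide))
    (hne _ _ (by decide))
  refine ⟨i, ?_⟩
  ext t
  fin_cases t
  · exact congrArg Fin.val h0
  · exact congrArg Fin.val h1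
  · exact congrArg Fin.val h2
  · exact congrArg Fin.val h3

/-- the numbering of the permutations -/
noncomputable def EE : Fin 24 ≃ Equiv.Perm (Fin 4) := Equiv.ofBijective E ⟨E_inj, E_surj⟩

lemma EE_apply (i : Fin 24) : EE i = E i := rfl

lemma disc_E (i j : Fin 24) : Disc (E i) (E j) ↔ (D i).testBit j = true := D_spec i j

lemma E_mul (s x : Fin 24) : E s * E x = E ⟨mu s x, mu_lt s x⟩ := by
  ext t
  rw [Equiv.Perm.mul_apply, E_apply, E_apply, E_apply, mu_spec]

lemma E_zero : E 0 = 1 := by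
  ext t
  rw [E_apply, Ef_zero]
  rfl

lemma land_eq_zero_iff (m : ℕ) (hm : m < 2 ^ 24) :
    m ≠ 0 ↔ ∃ j : Fin 24, m.testBit j = true := by
  constructor
  · intro h
    obtain ⟨j, hj⟩ := Nat.exists_testBit_of_ne_zero h
    by_cases h24 : j < 24
    · exact ⟨⟨j, h24⟩, hj⟩
    · exfalso
      have : m.testBit j = false := by
        apply Nat.testBit_lt_two_pow
        exact lt_of_lt_of_le hm (Nat.pow_le_pow_right (by norm_num) (by omega))
      rw [this] at hj
      exact absurd hj (by decide)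
  · rintro ⟨j, hj⟩ h0
    rw [h0] at hj
    simp at hj

lemma D_lt (i : ℕ) : D i < 2 ^ 24 := by
  have : D i ≤ 16777215 := Nat.and_le_right
  omega

lemma land_lt (a b : ℕ) (ha : a < 2 ^ 24) : a &&& b < 2 ^ 24 :=
  lt_of_le_of_lt Nat.and_le_left ha

lemma ex1 (a b x : Fin 24) :
    (∃ y, Disc (E a) y ∧ Disc (E b) y ∧ Disc (E x) y) ↔ D a &&& D b &&& D x ≠ 0 := by
  rw [land_eq_zero_iff _ (land_lt _ _ (land_lt _ _ (D_lt a)))]
  constructor
  · rintro ⟨y, h1, h2, h3⟩
    obtain ⟨j, rfl⟩ := E_surj y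
    rw [disc_E] at h1 h2 h3
    exact ⟨j, by simp [Nat.testBit_and, h1, h2, h3]⟩
  · rintro ⟨j, hj⟩
    simp only [Nat.testBit_and, Bool.and_eq_true] at hj
    exact ⟨E j, (disc_E _ _).2 hj.1.1, (disc_E _ _).2 hj.1.2, (disc_E _ _).2 hj.2⟩

lemma KM_iff (b c x : Fin 24) :
    (KM b c).testBit x = true ↔ ¬ ∃ y, Disc (E b) y ∧ Disc (E c) y ∧ Disc (E x) y := by
  rw [ex1, KM_spec, not_not]

lemma testBit_full (i : Fin 24) : (16777215 : ℕ).testBit i = true := by
  revert i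
  decide

lemma testBit_compl (m : ℕ) (i : Fin 24) :
    (16777215 ^^^ m).testBit i = true ↔ ¬ m.testBit i = true := by
  rw [Nat.testBit_xor, testBit_full]
  cases m.testBit i <;> simp

lemma ex2 (a b c x : Fin 24) :
    (∃ y z, Disc (E a) y ∧ Disc (E x) y ∧ Disc y z ∧ Disc (E b) z ∧ Disc (E c) z) ↔
      D a &&& D x &&& KC b c ≠ 0 := by
  rw [land_eq_zero_iff _ (land_lt _ _ (land_lt _ _ (D_lt a)))]
  constructor
  · rintro ⟨y, z, h1, h2, h3, h4, h5⟩
    obtain ⟨j, rfl⟩ := E_surj y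
    refine ⟨j, ?_⟩
    rw [disc_E] at h1 h2
    rw [Nat.testBit_and, Nat.testBit_and, h1, h2]
    simp only [Bool.true_and, KC]
    rw [testBit_compl, KM_iff, not_not]
    exact ⟨z, h4, h5, h3⟩
  · rintro ⟨j, hj⟩
    simp only [Nat.testBit_and, Bool.and_eq_true, KC] at hj
    rw [testBit_compl, KM_iff, not_not] at hj
    obtain ⟨⟨h1, h2⟩, z, h4, h5, h3⟩ := hj
    exact ⟨E j, z, (disc_E _ _).2 h1, (disc_E _ _).2 h2, h3, h4, h5⟩

/-- permutations not discordant with `a` -/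
noncomputable def k0 (a : Equiv.Perm (Fin 4)) : Finset (Equiv.Perm (Fin 4)) :=
  by classical exact Finset.univ.filter fun x => ¬ Disc a x

/-- permutations killed by a vertex with two outside constraints -/
noncomputable def k1 (a b : Equiv.Perm (Fin 4)) : Finset (Equiv.Perm (Fin 4)) :=
  by classical exact Finset.univ.filter fun x => ¬ ∃ y, Disc a y ∧ Disc b y ∧ Disc x y

/-- permutations killed by a pair of adjacent vertices, one of them joined to the centre -/
noncomputable def k2 (a b c : Equiv.Perm (Fin 4)) : Finset (Equiv.Perm (Fin 4)) :=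
  by classical exact Finset.univ.filter fun x =>
    ¬ ∃ y z, Disc a y ∧ Disc x y ∧ Disc y z ∧ Disc b z ∧ Disc c z

/-- permutations killed by a pair of adjacent vertices, both joined to the centre -/
noncomputable def k3 (a b s : Equiv.Perm (Fin 4)) : Finset (Equiv.Perm (Fin 4)) :=
  by classical exact Finset.univ.filter fun x =>
    ¬ ∃ y z, Disc a y ∧ Disc x y ∧ Disc y z ∧ Disc b z ∧ Disc (s * x) z

lemma mem_k0 {a x : Equiv.Perm (Fin 4)} : x ∈ k0 a ↔ ¬ Disc a x := by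
  classical
  simp [k0]

lemma mem_k1 {a b x : Equiv.Perm (Fin 4)} :
    x ∈ k1 a b ↔ ¬ ∃ y, Disc a y ∧ Disc b y ∧ Disc x y := by
  classical
  simp only [k1, Finset.mem_filter, Finset.mem_univ, true_and]

lemma mem_k2 {a b c x : Equiv.Perm (Fin 4)} :
    x ∈ k2 a b c ↔ ¬ ∃ y z, Disc a y ∧ Disc x y ∧ Disc y z ∧ Disc b z ∧ Disc c z := by
  classical
  simp only [k2, Finset.mem_filter, Finset.mem_univ, true_and]

lemma mem_k3 {a b s x : Equiv.Perm (Fin 4)} :
    x ∈ k3 a b s ↔ ¬ ∃ y z, Disc a y ∧ Disc x y ∧ Disc y z ∧ Disc b z ∧ Disc (s * x) z := by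
  classical
  simp only [k3, Finset.mem_filter, Finset.mem_univ, true_and]

/-- left translation of `k0` -/
lemma k0_mul (g a x : Equiv.Perm (Fin 4)) : x ∈ k0 a ↔ g * x ∈ k0 (g * a) := by
  rw [mem_k0, mem_k0, disc_mul_left]

lemma k1_mul (g a b x : Equiv.Perm (Fin 4)) : x ∈ k1 a b ↔ g * x ∈ k1 (g * a) (g * b) := by
  rw [mem_k1, mem_k1, not_iff_not]
  constructor
  · rintro ⟨y, h1, h2, h3⟩
    exact ⟨g * y, (disc_mul_left g).2 h1, (disc_mul_left g).2 h2, (disc_mul_left g).2 h3⟩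
  · rintro ⟨y, h1, h2, h3⟩
    refine ⟨g⁻¹ * y, ?_, ?_, ?_⟩
    · rw [← disc_mul_left g]; simpa using h1
    · rw [← disc_mul_left g]; simpa using h2
    · rw [← disc_mul_left g]; simpa using h3

lemma k2_mul (g a b c x : Equiv.Perm (Fin 4)) :
    x ∈ k2 a b c ↔ g * x ∈ k2 (g * a) (g * b) (g * c) := by
  rw [mem_k2, mem_k2, not_iff_not]
  constructor
  · rintro ⟨y, z, h1, h2, h3, h4, h5⟩
    exact ⟨g * y, g * z, (disc_mul_left g).2 h1, (disc_mul_left g).2 h2, (disc_mul_left g).2 h3,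
      (disc_mul_left g).2 h4, (disc_mul_left g).2 h5⟩
  · rintro ⟨y, z, h1, h2, h3, h4, h5⟩
    refine ⟨g⁻¹ * y, g⁻¹ * z, ?_, ?_, ?_, ?_, ?_⟩
    · rw [← disc_mul_left g]; simpa using h1
    · rw [← disc_mul_left g]; simpa using h2
    · rw [disc_mul_left]; exact h3
    · rw [← disc_mul_left g]; simpa using h4
    · rw [← disc_mul_left g]; simpa using h5

lemma k3_mul (g a b s x : Equiv.Perm (Fin 4)) :
    x ∈ k3 a b s ↔ g * x ∈ k3 (g * a) (g * b) (g * s * g⁻¹) := by
  rw [mem_k3, mem_k3, not_iff_not]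
  constructor
  · rintro ⟨y, z, h1, h2, h3, h4, h5⟩
    refine ⟨g * y, g * z, (disc_mul_left g).2 h1, (disc_mul_left g).2 h2, (disc_mul_left g).2 h3,
      (disc_mul_left g).2 h4, ?_⟩
    have : g * s * g⁻¹ * (g * x) = g * (s * x) := by group
    rw [this]
    exact (disc_mul_left g).2 h5
  · rintro ⟨y, z, h1, h2, h3, h4, h5⟩
    have : g * s * g⁻¹ * (g * x) = g * (s * x) := by group
    rw [this] at h5
    refine ⟨g⁻¹ * y, g⁻¹ * z, ?_, ?_, ?_, ?_, ?_⟩
    · rw [← disc_mul_left g]; simpa using h1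
    · rw [← disc_mul_left g]; simpa using h2
    · rw [disc_mul_left]; exact h3
    · rw [← disc_mul_left g]; simpa using h4
    · rw [← disc_mul_left g]; simpa [mul_assoc] using h5

/-- counting through the numbering -/
lemma card_eq_of_iff (A : Finset (Equiv.Perm (Fin 4))) (P : Fin 24 → Prop) [DecidablePred P]
    (h : ∀ i, E i ∈ A ↔ P i) : A.card = (Finset.univ.filter P).card := by
  symm
  apply Finset.card_equiv EE
  intro i
  rw [EE_apply, h i]
  simp

lemma card_eq_cnt (A : Finset (Equiv.Perm (Fin 4))) (m : ℕ)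
    (h : ∀ i, E i ∈ A ↔ m.testBit i = true) : A.card = cnt m :=
  card_eq_of_iff A _ h

lemma card_congr_mul (g : Equiv.Perm (Fin 4)) (A B : Finset (Equiv.Perm (Fin 4)))
    (h : ∀ x, x ∈ A ↔ g * x ∈ B) : A.card = B.card :=
  Finset.card_equiv (Equiv.mulLeft g) (fun x => by simpa using h x)

lemma card_k0_le (a : Equiv.Perm (Fin 4)) : (k0 a).card ≤ 15 := by
  obtain ⟨i, rfl⟩ := E_surj a
  rw [card_eq_cnt _ (16777215 ^^^ D i)]
  · exact chk0 i
  · intro j
    rw [mem_k0, disc_E, testBit_compl]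

lemma card_k1_le (a b : Equiv.Perm (Fin 4)) : (k1 a b).card ≤ 8 := by
  obtain ⟨i, rfl⟩ := E_surj a
  obtain ⟨j, rfl⟩ := E_surj b
  rw [card_eq_cnt _ (KM i j)]
  · exact chk1 i j
  · intro l
    rw [mem_k1, KM_iff]

/-- half of the discordant permutations survive -/
lemma card_k1_sdiff (c a b : Equiv.Perm (Fin 4)) : ((k1 a b) \ (k0 c)).card ≤ 4 := by
  classical
  have h1 : ((k1 a b) \ (k0 c)).card = ((k1 (c⁻¹ * a) (c⁻¹ * b)) \ (k0 (c⁻¹ * c))).card := by
    apply card_congr_mul c⁻¹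
    intro x
    rw [Finset.mem_sdiff, Finset.mem_sdiff, ← k1_mul, ← k0_mul]
  rw [h1, inv_mul_cancel]
  obtain ⟨i, hi⟩ := E_surj (c⁻¹ * a)
  obtain ⟨j, hj⟩ := E_surj (c⁻¹ * b)
  rw [← hi, ← hj, ← E_zero, card_eq_cnt _ (D 0 &&& KM i j)]
  · exact chk1' i j
  · intro l
    rw [Finset.mem_sdiff, mem_k1, mem_k0, not_not, Nat.testBit_and, Bool.and_eq_true, KM_iff]
    have : Disc (E 0) (E l) ↔ (D 0).testBit l = true := disc_E 0 l
    rw [this]
    exact and_comm

lemma card_k2_le (a b c : Equiv.Perm (Fin 4)) : (k2 a b c).card ≤ 2 := by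
  classical
  have h1 : (k2 a b c).card = (k2 (b⁻¹ * a) (b⁻¹ * b) (b⁻¹ * c)).card := by
    apply card_congr_mul b⁻¹
    intro x
    rw [← k2_mul]
  rw [h1, inv_mul_cancel]
  obtain ⟨i, hi⟩ := E_surj (b⁻¹ * a)
  obtain ⟨j, hj⟩ := E_surj (b⁻¹ * c)
  rw [← hi, ← hj, ← E_zero]
  rw [card_eq_of_iff _ (fun x : Fin 24 => D i &&& D x &&& KC 0 j = 0)]
  · exact chk2 i j
  · intro l
    rw [mem_k2]
    have := ex2 i 0 j l
    rw [this, not_not]
    rfl

lemma k3_one_iff (b s l : Fin 24) :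
    E l ∈ k3 (E 0) (E b) (E s) ↔ D 0 &&& D l &&& KC b (mu s l) = 0 := by
  rw [mem_k3, E_mul]
  have := ex2 0 b ⟨mu s l, mu_lt s l⟩ l
  rw [this, not_not]
  rfl

/-- the set `k3` (with trivial first permutation) has at most four elements or is `M3` -/
lemma k3_cases (b s : Equiv.Perm (Fin 4)) :
    (k3 1 b s).card ≤ 4 ∨ ∀ l : Fin 24, E l ∈ k3 1 b s ↔ M3.testBit l = true := by
  obtain ⟨i, rfl⟩ := E_surj b
  obtain ⟨j, rfl⟩ := E_surj s
  rw [← E_zero]
  rcases chk3 i j with h | h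
  · left
    rw [card_eq_of_iff _ (fun x : Fin 24 => D 0 &&& D x &&& KC i (mu j x) = 0)]
    · exact h
    · intro l
      rw [k3_one_iff]
  · right
    intro l
    rw [k3_one_iff]
    exact h l

lemma card_k3_le (a b s : Equiv.Perm (Fin 4)) : (k3 a b s).card ≤ 8 := by
  classical
  have h1 : (k3 a b s).card = (k3 (a⁻¹ * a) (a⁻¹ * b) (a⁻¹ * s * a⁻¹⁻¹)).card := by
    apply card_congr_mul a⁻¹
    intro x
    rw [← k3_mul]
  rw [h1, inv_mul_cancel]
  rcases k3_cases (a⁻¹ * b) (a⁻¹ * s * a⁻¹⁻¹) with h | h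
  · omega
  · rw [card_eq_cnt _ _ h, chkM3]

/-- a centre with one outside constraint and a triangle pair -/
lemma card_k0_k3 (c a b s : Equiv.Perm (Fin 4)) : (k0 c ∪ k3 a b s).card ≤ 21 := by
  classical
  have h1 : (k0 c ∪ k3 a b s).card =
      (k0 (a⁻¹ * c) ∪ k3 (a⁻¹ * a) (a⁻¹ * b) (a⁻¹ * s * a⁻¹⁻¹)).card := by
    apply card_congr_mul a⁻¹
    intro x
    rw [Finset.mem_union, Finset.mem_union, ← k3_mul, ← k0_mul]
  rw [h1, inv_mul_cancel]
  obtain ⟨i, hi⟩ := E_surj (a⁻¹ * c)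
  rw [← hi]
  rcases k3_cases (a⁻¹ * b) (a⁻¹ * s * a⁻¹⁻¹) with h | h
  · have h2 := Finset.card_union_le (k0 (E i)) (k3 1 (a⁻¹ * b) (a⁻¹ * s * a⁻¹⁻¹))
    have h3 := card_k0_le (E i)
    omega
  · rw [card_eq_cnt _ ((16777215 ^^^ D i) ||| M3)]
    · exact chk03 i
    · intro l
      rw [Finset.mem_union, h l, mem_k0, disc_E, Nat.testBit_or, Bool.or_eq_true, testBit_compl]

lemma k1_mem_L8 (a b : Equiv.Perm (Fin 4)) :
    (k1 a b).card ≤ 4 ∨ ∃ m ∈ L8, ∀ l : Fin 24, E l ∈ k1 a b ↔ m.testBit l = true := by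
  obtain ⟨i, rfl⟩ := E_surj a
  obtain ⟨j, rfl⟩ := E_surj b
  rcases chk1L i j with h | h
  · left
    rw [card_eq_cnt _ (KM i j)]
    · exact h
    · intro l
      rw [mem_k1, KM_iff]
  · right
    exact ⟨KM i j, h, fun l => by rw [mem_k1, KM_iff]⟩

lemma k1_mem_L80 (b : Equiv.Perm (Fin 4)) :
    (k1 1 b).card ≤ 4 ∨ ∃ m ∈ L80, ∀ l : Fin 24, E l ∈ k1 1 b ↔ m.testBit l = true := by
  obtain ⟨j, rfl⟩ := E_surj b
  rw [← E_zero]
  rcases chk1L0 j with h | h
  · left
    rw [card_eq_cnt _ (KM 0 j)]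
    · exact h
    · intro l
      rw [mem_k1]
      exact (KM_iff 0 j l).symm
  · right
    exact ⟨KM 0 j, h, fun l => by rw [mem_k1]; exact (KM_iff 0 j l).symm⟩

lemma exists_testBit_clr (c : ℕ) (hc : c ≠ 0) :
    ∃ i, c.testBit i = true ∧ (clr c).testBit i = false := by
  by_contra hcon
  push Not at hcon
  have : clr c = c := by
    apply Nat.eq_of_testBit_eq
    intro i
    by_cases h : c.testBit i = true
    · have := hcon i h
      rw [h]
      simpa using this
    · unfold clr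
      rw [Nat.testBit_and]
      simp at h
      simp [h]
  have h2 : clr c ≤ c - 1 := Nat.and_le_right
  omega

lemma testBit_of_clr (c i : ℕ) (h : (clr c).testBit i = true) : c.testBit i = true := by
  unfold clr at h
  rw [Nat.testBit_and, Bool.and_eq_true] at h
  exact h.1

lemma clr_ne_zero (c : ℕ) (h : clr c ≠ 0) : c ≠ 0 := by
  rintro rfl
  exact h (by decide)

/-- three bits -/
lemma exists_three (c : ℕ) (h : clr (clr c) ≠ 0) :
    ∃ i j l, c.testBit i = true ∧ c.testBit j = true ∧ c.testBit l = true ∧ i ≠ j ∧ i ≠ l ∧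
      j ≠ l := by
  have h1 : clr c ≠ 0 := clr_ne_zero _ h
  have h0 : c ≠ 0 := clr_ne_zero _ h1
  obtain ⟨i, hi, hi'⟩ := exists_testBit_clr c h0
  obtain ⟨j, hj, hj'⟩ := exists_testBit_clr (clr c) h1
  obtain ⟨l, hl, -⟩ := exists_testBit_clr (clr (clr c)) h
  have hl1 := testBit_of_clr _ _ hl
  refine ⟨i, j, l, hi, testBit_of_clr _ _ hj, testBit_of_clr _ _ hl1, ?_, ?_, ?_⟩
  · rintro rfl
    rw [hi'] at hj
    exact absurd hj (by decide)
  · rintro rfl
    rw [hi'] at hl1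
    exact absurd hl1 (by decide)
  · rintro rfl
    rw [hj'] at hl
    exact absurd hl (by decide)

lemma mem_L8_lt : ∀ m ∈ L8, m < 2 ^ 24 := by decide +kernel

lemma mem_L80_lt : ∀ m ∈ L80, m < 2 ^ 24 := by decide +kernel

lemma xor_full_lt (m : ℕ) (hm : m < 2 ^ 24) : 16777215 ^^^ m < 2 ^ 24 :=
  Nat.xor_lt_two_pow (by norm_num) hm

lemma card_perm4 : (Finset.univ : Finset (Equiv.Perm (Fin 4))).card = 24 := by
  rw [Finset.card_univ, Fintype.card_perm]
  rfl

/-- three vertices with two outside constraints kill at most 21 permutations -/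
lemma card_k1_k1_k1 (a b c d e f : Equiv.Perm (Fin 4)) :
    (k1 a b ∪ k1 c d ∪ k1 e f).card ≤ 21 := by
  classical
  have h1 : (k1 a b ∪ k1 c d ∪ k1 e f).card =
      (k1 (a⁻¹ * a) (a⁻¹ * b) ∪ k1 (a⁻¹ * c) (a⁻¹ * d) ∪ k1 (a⁻¹ * e) (a⁻¹ * f)).card := by
    apply card_congr_mul a⁻¹
    intro x
    simp only [Finset.mem_union]
    rw [← k1_mul, ← k1_mul, ← k1_mul]
  rw [h1, inv_mul_cancel]
  generalize a⁻¹ * b = b'
  generalize a⁻¹ * c = c'
  generalize a⁻¹ * d = d'
  generalize a⁻¹ * e = e'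
  generalize a⁻¹ * f = f'
  have hu := Finset.card_union_le (k1 1 b' ∪ k1 c' d') (k1 e' f')
  have hu2 := Finset.card_union_le (k1 1 b') (k1 c' d')
  have g1 := card_k1_le 1 b'
  have g2 := card_k1_le c' d'
  have g3 := card_k1_le e' f'
  rcases k1_mem_L80 b' with h | ⟨m1, hm1, h1⟩
  · omega
  rcases k1_mem_L8 c' d' with h | ⟨m2, hm2, h2⟩
  · omega
  rcases k1_mem_L8 e' f' with h | ⟨m3, hm3, h3⟩
  · omega
  have hchk := chk111
  rw [List.all_eq_true] at hchk
  have := hchk m1 hm1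
  rw [List.all_eq_true] at this
  have := this m2 hm2
  rw [List.all_eq_true] at this
  have := this m3 hm3
  have hne : clr (clr (16777215 ^^^ (m1 ||| m2 ||| m3))) ≠ 0 := by simpa using this
  obtain ⟨i, j, l, hi, hj, hl, hij, hil, hjl⟩ := exists_three _ hne
  have hlt : 16777215 ^^^ (m1 ||| m2 ||| m3) < 2 ^ 24 := by
    apply xor_full_lt
    exact Nat.or_lt_two_pow (Nat.or_lt_two_pow (mem_L80_lt _ hm1) (mem_L8_lt _ hm2))
      (mem_L8_lt _ hm3)
  have hsmall : ∀ i, (16777215 ^^^ (m1 ||| m2 ||| m3)).testBit i = true → i < 24 := by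
    intro i hi
    by_contra hcon
    have : (16777215 ^^^ (m1 ||| m2 ||| m3)).testBit i = false := by
      apply Nat.testBit_lt_two_pow
      exact lt_of_lt_of_le hlt (Nat.pow_le_pow_right (by norm_num) (by omega))
    rw [this] at hi
    exact absurd hi (by decide)
  set A := k1 1 b' ∪ k1 c' d' ∪ k1 e' f' with hA
  have hnot : ∀ i (h : i < 24), (16777215 ^^^ (m1 ||| m2 ||| m3)).testBit i = true →
      E ⟨i, h⟩ ∉ A := by
    intro i h hi hmem
    rw [hA, Finset.mem_union, Finset.mem_union, h1, h2, h3] at hmem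
    have := (testBit_compl (m1 ||| m2 ||| m3) ⟨i, h⟩).1 hi
    apply this
    rw [Nat.testBit_or, Nat.testBit_or, Bool.or_eq_true, Bool.or_eq_true]
    exact hmem
  have hsub : ({E ⟨i, hsmall i hi⟩, E ⟨j, hsmall j hj⟩, E ⟨l, hsmall l hl⟩} :
      Finset (Equiv.Perm (Fin 4))) ⊆ Finset.univ \ A := by
    intro x hx
    simp only [Finset.mem_insert, Finset.mem_singleton] at hx
    rw [Finset.mem_sdiff]
    refine ⟨Finset.mem_univ _, ?_⟩
    rcases hx with rfl | rfl | rfl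
    · exact hnot _ _ hi
    · exact hnot _ _ hj
    · exact hnot _ _ hl
  have hcard := Finset.card_le_card hsub
  rw [Finset.card_eq_three.2 ⟨_, _, _, ?_, ?_, ?_, rfl⟩, Finset.card_univ_sdiff] at hcard
  · have h24 : Fintype.card (Equiv.Perm (Fin 4)) = 24 := by rw [← Finset.card_univ, card_perm4]
    omega
  · intro h; apply hij; have := E_inj h; simpa using this
  · intro h; apply hil; have := E_inj h; simpa using this
  · intro h; apply hjl; have := E_inj h; simpa using this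

/-- two vertices with two outside constraints and a triangle pair do not kill everything -/
lemma card_k1_k1_k3 (a b c d e f s : Equiv.Perm (Fin 4)) :
    (k1 a b ∪ k1 c d ∪ k3 e f s).card ≤ 23 := by
  classical
  have h1 : (k1 a b ∪ k1 c d ∪ k3 e f s).card =
      (k1 (e⁻¹ * a) (e⁻¹ * b) ∪ k1 (e⁻¹ * c) (e⁻¹ * d) ∪
        k3 (e⁻¹ * e) (e⁻¹ * f) (e⁻¹ * s * e⁻¹⁻¹)).card := by
    apply card_congr_mul e⁻¹
    intro x
    simp only [Finset.mem_union]
    rw [← k1_mul, ← k1_mul, ← k3_mul]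
  rw [h1, inv_mul_cancel]
  generalize e⁻¹ * a = a'
  generalize e⁻¹ * b = b'
  generalize e⁻¹ * c = c'
  generalize e⁻¹ * d = d'
  generalize e⁻¹ * f = f'
  generalize e⁻¹ * s * e⁻¹⁻¹ = s'
  have hu := Finset.card_union_le (k1 a' b' ∪ k1 c' d') (k3 1 f' s')
  have hu2 := Finset.card_union_le (k1 a' b') (k1 c' d')
  have g1 := card_k1_le a' b'
  have g2 := card_k1_le c' d'
  have g3 := card_k3_le 1 f' s'
  rcases k1_mem_L8 a' b' with h | ⟨m1, hm1, h1⟩
  · omega
  rcases k1_mem_L8 c' d' with h | ⟨m2, hm2, h2⟩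
  · omega
  rcases k3_cases f' s' with h | h3
  · omega
  have hchk := chk113
  rw [List.all_eq_true] at hchk
  have := hchk m1 hm1
  rw [List.all_eq_true] at this
  have := this m2 hm2
  have hne : (16777215 ^^^ (m1 ||| m2 ||| M3)) ≠ 0 := by simpa using this
  have hlt : 16777215 ^^^ (m1 ||| m2 ||| M3) < 2 ^ 24 := by
    apply xor_full_lt
    exact Nat.or_lt_two_pow (Nat.or_lt_two_pow (mem_L8_lt _ hm1) (mem_L8_lt _ hm2))
      (by decide)
  obtain ⟨i, hi⟩ := (land_eq_zero_iff _ hlt).1 hne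
  set A := k1 a' b' ∪ k1 c' d' ∪ k3 1 f' s' with hA
  have hnot : E i ∉ A := by
    intro hmem
    rw [hA, Finset.mem_union, Finset.mem_union, h1, h2, h3] at hmem
    have := (testBit_compl (m1 ||| m2 ||| M3) i).1 hi
    apply this
    rw [Nat.testBit_or, Nat.testBit_or, Bool.or_eq_true, Bool.or_eq_true]
    exact hmem
  have hss : A ⊂ Finset.univ := by
    rw [Finset.ssubset_univ_iff]
    intro h
    rw [h] at hnot
    exact hnot (Finset.mem_univ _)
  have := Finset.card_lt_card hss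
  rw [card_perm4] at this
  omega

end S4

end Pool.Agent.H24.LP
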