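import Pool.Agent.H24.LP.Mad

/-!
# Upper bounds for the packing numbers of sparse graphs
-/

namespace Pool.Agent.H24.LP

open Finset

variable {V : Type} {G : SimpleGraph V}

theorem permPackable_four [Finite V] {a : ℝ} (ha : a ≤ 24 / 7) (h : MadLT G a) :
    PermPackable G 4 := by
  classical
  cases nonempty_fintype V
  intro σ hσ
  have hsp : ∀ S : Finset V, S.Nonempty → 7 * ∑ v ∈ S, (nb G S v).card < 24 * S.card := by
    intro S hS
    have h1 := sum_nb_lt h S hS
    have h2 : (0 : ℝ) < S.card := by exact_mod_cast Finset.card_pos.2 hS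
    have h3 : ((7 * ∑ v ∈ S, (nb G S v).card : ℕ) : ℝ) < ((24 * S.card : ℕ) : ℝ) := by
      push_cast at h1 ⊢
      nlinarith
    exact_mod_cast h3
  obtain ⟨π, hπ⟩ := valid_of_sparse hσ hsp Finset.univ
  exact ⟨π, fun u v huv => hπ u (Finset.mem_univ _) v (Finset.mem_univ _) huv⟩

theorem permPackable_two [Finite V] {a : ℝ} (ha : a ≤ 2) (h : MadLT G a) :
    PermPackable G 2 := by
  classical
  cases nonempty_fintype V
  intro σ hσ
  have key : ∀ S : Finset V, ∃ π : V → Equiv.Perm (Fin 2), ∀ u ∈ S, ∀ w ∈ S, G.Adj u w →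
      Disc (σ u w * π u) (π w) := by
    intro S
    induction S using Finset.strongInduction with
    | H S ih =>
      rcases S.eq_empty_or_nonempty with rfl | hne
      · exact ⟨fun _ => 1, fun u hu => absurd hu (Finset.notMem_empty u)⟩
      · have h1 := sum_nb_lt h S hne
        have h2 : (0 : ℝ) < S.card := by exact_mod_cast Finset.card_pos.2 hne
        have h3 : ∑ v ∈ S, (nb G S v).card < ∑ v ∈ S, 2 := by
          rw [Finset.sum_const, smul_eq_mul, mul_comm]
          have h3 : ((∑ v ∈ S, (nb G S v).card : ℕ) : ℝ) < ((2 * S.card : ℕ) : ℝ) := by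
            push_cast at h1 ⊢
            nlinarith
          exact_mod_cast h3
        obtain ⟨v, hv, hv2⟩ := Finset.exists_lt_of_sum_lt h3
        obtain ⟨u0, hu0⟩ := exists_single v (by omega : (nb G S v).card ≤ 1)
        obtain ⟨π, hπ⟩ := ih (S.erase v) (Finset.erase_ssubset hv)
        have hsw : ∀ p : Equiv.Perm (Fin 2), Disc p (Equiv.swap 0 1 * p) := by
          intro p i
          rw [Equiv.Perm.mul_apply]
          generalize p i = j
          revert j
          decide
        have hx : ∀ u ∈ S.erase v, G.Adj u v →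
            Disc (σ u v * π u) (Equiv.swap 0 1 * (σ u0 v * π u0)) := by
          intro u hu hadj
          rw [hu0 u (mem_nb.2 ⟨Finset.mem_of_mem_erase hu, hadj.symm⟩)]
          exact hsw _
        refine ⟨Function.update π v (Equiv.swap 0 1 * (σ u0 v * π u0)), ?_⟩
        intro u hu w hw hadj
        by_cases huv : u = v
        · subst huv
          have hwu : w ≠ u := hadj.ne'
          rw [Function.update_self, Function.update_of_ne hwu]
          have hw' : w ∈ S.erase u := Finset.mem_erase.2 ⟨hwu, hw⟩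
          have h5 := hx w hw' hadj.symm
          rw [hσ w u hadj.symm, ← disc_mul_left (σ w u)]
          simpa using h5.symm
        · by_cases hwv : w = v
          · subst hwv
            rw [Function.update_self, Function.update_of_ne huv]
            exact hx u (Finset.mem_erase.2 ⟨huv, hu⟩) hadj
          · rw [Function.update_of_ne huv, Function.update_of_ne hwv]
            exact hπ u (Finset.mem_erase.2 ⟨huv, hu⟩) w (Finset.mem_erase.2 ⟨hwv, hw⟩) hadj
  obtain ⟨π, hπ⟩ := key Finset.univ
  exact ⟨π, fun u v huv => hπ u (Finset.mem_univ _) v (Finset.mem_univ _) huv⟩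

theorem permPackable_one [Finite V] {a : ℝ} (ha : a ≤ 1) (h : MadLT G a) :
    PermPackable G 1 := by
  classical
  intro σ _
  refine ⟨fun _ => 1, ?_⟩
  intro u v huv
  exfalso
  have h1 := sum_nb_lt h {u, v} ⟨u, by simp⟩
  have hne := huv.ne
  rw [Finset.card_pair hne, Finset.sum_pair hne] at h1
  have h2 : 1 ≤ (nb G {u, v} u).card :=
    Finset.card_pos.2 ⟨v, mem_nb.2 ⟨by simp, huv⟩⟩
  have h3 : 1 ≤ (nb G {u, v} v).card :=
    Finset.card_pos.2 ⟨u, mem_nb.2 ⟨by simp, huv.symm⟩⟩
  have h2' : (1 : ℝ) ≤ ((nb G {u, v} u).card : ℝ) := by exact_mod_cast h2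
  have h3' : (1 : ℝ) ≤ ((nb G {u, v} v).card : ℝ) := by exact_mod_cast h3
  push_cast at h1
  linarith

end Pool.Agent.H24.LP
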